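import Pool.Agent.Lib.MP_a28c52_lc.Typed2

/-! Conversion between raw strings and coded lists of bits. -/

namespace HerCo

open Function

variable {m : Mode}

/-- Raw string to coded list of bits. -/
theorem Cp.rawToEnc : Cp m (fun x : List Bool => x) (enc : List Bool → List Bool) := by
  let v : List Bool → ℕ → List Bool := fun x i => dl (x.drop i) ++ enc (x.take i).reverse
  have hv0 : ∀ x, v x 0 = dl x ++ [] := fun x => by simp [v, enc, encList]
  have h0 : Cp m (fun x : List Bool => x) (fun x => v x 0) :=
    (Cp.pair Cp.id (Cp.const [])).of_eq (fun _ => rfl) fun x => (hv0 x).symm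
  have hc : Cp m (fun x => v x 0) (fun x => x) :=
    Cp.fstS.of_eq (fun _ => rfl) fun x => by rw [hv0, fstS_dl]
  have hstep : Cp m (fun p : {p : List Bool × ℕ // p.2 < p.1.length} => v p.1.1 p.1.2)
      (fun p => v p.1.1 (p.1.2 + 1)) := by
    have key : ∀ (b : Bool) (P : {p : List Bool × ℕ // p.2 < p.1.length} → Prop),
        (∀ p, P p → p.1.1.drop p.1.2 = b :: p.1.1.drop (p.1.2 + 1)) →
        Cp m (fun p : {p // P p} => v p.1.1.1 p.1.1.2) (fun p => v p.1.1.1 (p.1.1.2 + 1)) := by
      intro b P hP
      have h1 : Cp m (fun p : {p // P p} => v p.1.1.1 p.1.1.2)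
          (fun p => (HerCo.fstS (v p.1.1.1 p.1.1.2)).tail) := Cp.tail.comp Cp.fstS
      have h2 : Cp m (fun p : {p // P p} => v p.1.1.1 p.1.1.2)
          (fun p => true :: b :: false :: HerCo.sndS (v p.1.1.1 p.1.1.2)) :=
        (Cp.cons true).comp ((Cp.cons b).comp ((Cp.cons false).comp Cp.sndS))
      refine (h1.pair h2).of_eq (fun _ => rfl) fun p => ?_
      have h3 := hP p.1 p.2
      have h4 : p.1.1.1.take (p.1.1.2 + 1) = p.1.1.1.take p.1.1.2 ++ [b] := by
        rw [List.take_add_one]
        congr 1
        have : p.1.1.1[p.1.1.2]? = some b := by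
          rw [← List.head?_drop, h3]; rfl
        rw [this]; rfl
      simp only [v, fstS_dl, sndS_dl]
      rw [h4, h3, List.reverse_append]
      rfl
    refine Cp.branch (q := fun p => HerCo.fstS (v p.1.1 p.1.2)) Cp.fstS ?_ (key false _ ?_)
      (key true _ ?_)
    · refine (Cp.const []).of_eq (fun _ => rfl) ?_
      rintro ⟨⟨⟨x, i⟩, hi⟩, h⟩
      simp only [v, fstS_dl, List.drop_eq_nil_iff] at h
      simp only at hi
      omega
    · rintro ⟨⟨x, i⟩, hi⟩ ⟨l, h⟩
      simp only [v, fstS_dl] at h
      simp only
      rw [h, ← List.tail_drop, h]; rfl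
    · rintro ⟨⟨x, i⟩, hi⟩ ⟨l, h⟩
      simp only [v, fstS_dl] at h
      simp only
      rw [h, ← List.tail_drop, h]; rfl
  have hiter := Cp.iter hstep hc (fun hm => by
    subst hm
    refine ⟨fun x => 8 * x.length + 8, ?_, fun x i _ => ?_⟩
    · refine BD.mono_len (e := fun x : List Bool => x)
        (((BD.const 8).mul BD.len).add (BD.const 8)) fun x => ?_
      rw [hv0]; simp; omega
    · simp only [v, List.length_append, length_dl, List.length_drop]
      have h1 : (enc (x.take i).reverse).length = sz (x.take i).reverse := rfl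
      rw [h1, sz_reverse]
      have h2 : ∀ y : List Bool, sz y = 3 * y.length := by
        intro y
        induction y with
        | nil => simp
        | cons b y ih => simp [ih]; ring
      rw [h2, List.length_take]
      have := Nat.min_le_right i x.length
      omega)
  have h5 := Cp.sndS.comp (hiter.comp h0)
  have h6 : Cp m (fun x : List Bool => x) (fun x => enc x.reverse) :=
    h5.of_eq (fun _ => rfl) (fun x => by simp [v])
  have h7 : FP m (fun x : List Bool => x.reverse) := FP.reverse FP.id
  exact ((Cp.reindex h7 List.reverse).comp h6).of_eq (fun _ => rfl) fun x => by simp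

/-- Coded list of bits to raw string. -/
theorem Cp.encToRaw : Cp m (enc : List Bool → List Bool) (fun x => x) := by
  let v : List Bool → ℕ → List Bool := fun x i => dl (enc (x.drop i)) ++ (x.take i).reverse
  have hv0 : ∀ x, v x 0 = dl (enc x) ++ [] := fun x => by simp [v]
  have h0 : Cp m (enc : List Bool → List Bool) (fun x => v x 0) :=
    (Cp.pair Cp.id (Cp.const [])).of_eq (fun _ => rfl) fun x => (hv0 x).symm
  have hc : Cp m (fun x => v x 0) (fun x : List Bool => enc x) :=
    Cp.fstS.of_eq (fun _ => rfl) fun x => by rw [hv0, fstS_dl]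
  have hstep : Cp m (fun p : {p : List Bool × ℕ // p.2 < (enc p.1 : List Bool).length} =>
      v p.1.1 p.1.2) (fun p => v p.1.1 (p.1.2 + 1)) := by
    have key : ∀ (b : Bool) (P : {p : List Bool × ℕ // p.2 < (enc p.1).length} → Prop),
        (∀ p, P p → p.1.1.drop p.1.2 = b :: p.1.1.drop (p.1.2 + 1)) →
        Cp m (fun p : {p // P p} => v p.1.1.1 p.1.1.2) (fun p => v p.1.1.1 (p.1.1.2 + 1)) := by
      intro b P hP
      have h1 : Cp m (fun p : {p // P p} => v p.1.1.1 p.1.1.2)
          (fun p => (HerCo.fstS (v p.1.1.1 p.1.1.2)).tail.tail.tail) :=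
        Cp.tail.comp (Cp.tail.comp (Cp.tail.comp Cp.fstS))
      have h2 : Cp m (fun p : {p // P p} => v p.1.1.1 p.1.1.2)
          (fun p => b :: HerCo.sndS (v p.1.1.1 p.1.1.2)) :=
        (Cp.cons b).comp Cp.sndS
      refine (h1.pair h2).of_eq (fun _ => rfl) fun p => ?_
      have h3 := hP p.1 p.2
      have h4 : p.1.1.1.take (p.1.1.2 + 1) = p.1.1.1.take p.1.1.2 ++ [b] := by
        rw [List.take_add_one]
        congr 1
        have : p.1.1.1[p.1.1.2]? = some b := by
          rw [← List.head?_drop, h3]; rfl
        rw [this]; rfl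
      simp only [v, fstS_dl, sndS_dl]
      rw [h4, h3, List.reverse_append]
      rfl
    refine Cp.branch (q := fun p => (HerCo.fstS (v p.1.1 p.1.2)).tail) (Cp.tail.comp Cp.fstS) ?_
      (key false _ ?_) (key true _ ?_)
    · refine Cp.id.of_eq (fun _ => rfl) ?_
      rintro ⟨⟨⟨x, i⟩, hi⟩, h⟩
      simp only [v, fstS_dl] at h
      simp only [v]
      cases hd : x.drop i with
      | cons b r => rw [hd] at h; simp [enc, encList, dl] at h
      | nil =>
        have h1 : x.length ≤ i := List.drop_eq_nil_iff.1 hd
        rw [List.drop_eq_nil_iff.2 (by omega : x.length ≤ i + 1), List.take_of_length_le h1,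
          List.take_of_length_le (by omega)]
    · rintro ⟨⟨x, i⟩, hi⟩ ⟨l, h⟩
      simp only [v, fstS_dl] at h
      simp only
      rw [← List.tail_drop]
      cases hd : x.drop i with
      | nil => rw [hd] at h; simp [enc, encList] at h
      | cons b r =>
        rw [hd] at h
        simp only [enc, encList, dl, List.cons_append, List.tail_cons, List.cons.injEq] at h
        simp [h.1]
    · rintro ⟨⟨x, i⟩, hi⟩ ⟨l, h⟩
      simp only [v, fstS_dl] at h
      simp only
      rw [← List.tail_drop]
      cases hd : x.drop i with
      | nil => rw [hd] at h; simp [enc, encList] at h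
      | cons b r =>
        rw [hd] at h
        simp only [enc, encList, dl, List.cons_append, List.tail_cons, List.cons.injEq] at h
        simp [h.1]
  have hiter := Cp.iter hstep hc (fun hm => by
    subst hm
    refine ⟨fun x => 8 * (enc x : List Bool).length + 8, ?_, fun x i _ => ?_⟩
    · refine BD.mono_len (e := fun x : List Bool => (enc x : List Bool))
        (((BD.const 8).mul BD.len).add (BD.const 8)) fun x => ?_
      rw [hv0]; simp; omega
    · simp only [v, List.length_append, length_dl, List.length_reverse, List.length_take]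
      have h1 : ∀ y : List Bool, (enc y).length = 3 * y.length := by
        intro y
        show sz y = _
        induction y with
        | nil => simp
        | cons b y ih => simp [ih]; ring
      rw [h1, h1, List.length_drop]
      have := Nat.min_le_right i x.length
      omega)
  have h5 := Cp.sndS.comp (hiter.comp h0)
  have h6 : Cp m (enc : List Bool → List Bool) (fun x => x.reverse) :=
    h5.of_eq (fun _ => rfl) (fun x => by
      have : x.length ≤ (enc x).length := length_le_sz x
      simp only [v, sndS_dl]
      rw [List.take_of_length_le this])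
  have h7 : FP m (fun x : List Bool => x.reverse) := FP.reverse FP.id
  exact ((Cp.reindex h6 List.reverse).comp h7).of_eq (fun _ => rfl) fun x => by simp

/-- Computability with respect to raw strings and typed computability coincide. -/
theorem Cp.of_FP {D : Type} {e : D → List Bool} {F : List Bool → List Bool} (h : FP m F) :
    Cp m e (fun d => F (e d)) :=
  (Cp.reindex Cp.encToRaw (fun d => F (e d))).comp
    ((Cp.reindex h e).comp (Cp.reindex Cp.rawToEnc e))

theorem FP.of_Cp {F : List Bool → List Bool} (h : Cp m (fun x : List Bool => x) F) :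
    FP m F :=
  (Cp.reindex Cp.rawToEnc F).comp (h.comp Cp.encToRaw)

end HerCo
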