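import Pool.Agent.Lib.MP_a28c52_lc.FromTM
import Pool.Agent.Lib.MP_a28c52_lc.Raw

/-! Functions computed by polynomial-time `FinTM2` machines are computable in our sense. -/

namespace HerCo

open Function Turing StateTransition

theorem poly_bound (p : Polynomial ℕ) : ∃ k, ∀ n, p.eval n ≤ (n + 2) ^ k := by
  induction p using Polynomial.induction_on' with
  | add p q hp hq =>
    obtain ⟨k, hk⟩ := hp
    obtain ⟨l, hl⟩ := hq
    refine ⟨k + l + 1, fun n => ?_⟩
    rw [Polynomial.eval_add]
    exact (Nat.add_le_add (hk n) (hl n)).trans (pow_add_le (by omega) k l)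
  | monomial d a =>
    refine ⟨a + d, fun n => ?_⟩
    rw [Polynomial.eval_monomial, pow_add]
    refine Nat.mul_le_mul ?_ (Nat.pow_le_pow_left (by omega) _)
    exact (Nat.lt_two_pow_self).le.trans (Nat.pow_le_pow_left (by omega) _)

/-- Output table of the last stack. -/
noncomputable def outTab (tm : FinTM2) (syms : List (Σ k, tm.Γ k)) (k : tm.K)
    (o : tm.Γ k → Bool) : List Bool :=
  open Classical in
  syms.map (fun x => if h : x.1 = k then o (h ▸ x.2) else false)

theorem outTab_get (tm : FinTM2) (syms : List (Σ k, tm.Γ k)) (k : tm.K)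
    (o : tm.Γ k → Bool) (a : tm.Γ k) (ha : (⟨k, a⟩ : Σ k, tm.Γ k) ∈ syms) :
    (outTab tm syms k o).getD (cS tm syms ⟨k, a⟩) false = o a := by
  unfold outTab
  rw [List.getD_eq_getElem?_getD, List.getElem?_map, cS_get tm syms ha]
  simp

theorem Cp.ofTM2 {α β : Type} {ea : α → List Bool} {eb : β → List Bool} {f : α → β}
    (h : TM2ComputableInPolyTime ea eb f) : Cp .poly ea (fun a => eb (f a)) := by
  classical
  obtain ⟨⟨tm, inA, outA⟩, time, hout⟩ := h
  simp only at hout
  let _ := tm.kDecidableEq
  let _ := tm.kFin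
  let _ := tm.ΛFin
  let _ := tm.σFin
  have hfin : ((⋃ l, pushes tm (tm.m l)) ∪
      (Set.range (fun b => (⟨tm.k₀, inA.symm b⟩ : Σ k, tm.Γ k))) ∪
      (Set.range (fun b => (⟨tm.k₁, outA.symm b⟩ : Σ k, tm.Γ k)))).Finite :=
    ((Set.finite_iUnion fun l => finite_pushes tm _).union (Set.finite_range _)).union
      (Set.finite_range _)
  let syms : List (Σ k, tm.Γ k) := hfin.toFinset.toList
  have hmem : ∀ x, x ∈ syms ↔ x ∈ ((⋃ l, pushes tm (tm.m l)) ∪
      (Set.range (fun b => (⟨tm.k₀, inA.symm b⟩ : Σ k, tm.Γ k))) ∪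
      (Set.range (fun b => (⟨tm.k₁, outA.symm b⟩ : Σ k, tm.Γ k)))) := by
    intro x; simp [syms]
  have hsy : ∀ l, pushes tm (tm.m l) ⊆ {x | x ∈ syms} := by
    intro l x hx
    exact (hmem x).2 (.inl (.inl (Set.mem_iUnion.2 ⟨l, hx⟩)))
  have hin : ∀ b, (⟨tm.k₀, inA.symm b⟩ : Σ k, tm.Γ k) ∈ syms := fun b =>
    (hmem _).2 (.inl (.inr ⟨b, rfl⟩))
  have hou : ∀ b, (⟨tm.k₁, outA.symm b⟩ : Σ k, tm.Γ k) ∈ syms := fun b =>
    (hmem _).2 (.inr ⟨b, rfl⟩)
  obtain ⟨k, hk⟩ := poly_bound time
  -- the initial coded configuration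
  let c0 : List Bool → ℕ × ℕ × List (List ℕ) := fun x =>
    (cL tm tm.main + 1, cV tm tm.initialState,
      (List.replicate (nK tm) ([] : List ℕ)).set (cK tm tm.k₀)
        (x.map fun b => if b then cS tm syms ⟨tm.k₀, inA.symm true⟩
          else cS tm syms ⟨tm.k₀, inA.symm false⟩))
  have hc0 : ∀ x, c0 x = codeCfg tm syms (initList tm (x.map inA.invFun)) := by
    intro x
    unfold codeCfg
    have h1 : (initList tm (x.map inA.invFun)).stk = update (fun _ => []) tm.k₀
        (x.map inA.invFun) := by
      funext k'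
      by_cases hk' : k' = tm.k₀
      · subst hk'
        rw [update_self]
        exact dif_pos rfl
      · rw [update_of_ne hk']
        exact dif_neg hk'
    rw [h1, codeStk_update]
    refine Prod.ext rfl (Prod.ext rfl ?_)
    show List.set _ _ _ = List.set _ _ _
    congr 1
    · have : codeStk tm syms (fun _ => []) = List.replicate (nK tm) [] := by
        unfold codeStk
        rw [List.eq_replicate_iff]
        refine ⟨length_tabK _ _, fun b hb => ?_⟩
        unfold tabK at hb
        obtain ⟨i, hi⟩ := (List.mem_ofFn' _ _).1 hb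
        rw [← hi]; rfl
      exact this.symm
    · rw [List.map_map]
      refine List.map_congr_left fun b _ => ?_
      cases b <;> rfl
  -- the simulation
  let run : List Bool → ℕ × ℕ × List (List ℕ) := fun x =>
    (simStep tm syms)^[(x.length + 2) ^ k] (c0 x)
  let F : List Bool → List Bool := fun x =>
    ((run x).2.2.getD (cK tm tm.k₁) []).map (fun j => (outTab tm syms tm.k₁ outA).getD j false)
  have hc0FP : FP .poly c0 := by
    show FP .poly (fun x => _)
    fun_prop
  have hsFP : FP .poly (simStep tm syms) := FP.simAll tm syms _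
  have hrun : FP .poly run := by
    obtain ⟨C, hC⟩ := simAll_size tm syms (Finset.univ.toList)
    have hb : ∀ (x : List Bool) (i : ℕ), ((simStep tm syms)^[i] (c0 x)).1 ≤ nL tm + 1 ∧
        ((simStep tm syms)^[i] (c0 x)).2.1 ≤ nV tm ∧
        sz ((simStep tm syms)^[i] (c0 x)).2.2 ≤ sz (c0 x).2.2 + i * C := by
      intro x i
      induction i with
      | zero =>
        refine ⟨?_, ?_, by simp⟩
        · exact Nat.succ_le_succ (cL_lt tm _).le
        · exact (cV_lt tm _).le
      | succ i ih =>
        rw [iterate_succ_apply']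
        have h1 := hC ((simStep tm syms)^[i] (c0 x)) ih.1 ih.2.1
        refine ⟨h1.1, h1.2.1, ?_⟩
        have h2 : sz (simStep tm syms ((simStep tm syms)^[i] (c0 x))).2.2 ≤
          sz ((simStep tm syms)^[i] (c0 x)).2.2 + C := h1.2.2
        have : (i + 1) * C = i * C + C := by ring
        omega
    have hn : FP .poly (fun x : List Bool => (x.length + 2) ^ k) := by fun_prop
    refine FP.nat_iterate (init := c0) (h := fun _ c => simStep tm syms c) hc0FP
      (hsFP.comp (by fun_prop)) hn fun _ => ?_
    refine ⟨fun x => 2 * (nL tm + 1) + 1 + (2 * nV tm + 1 + (sz (c0 x).2.2 +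
      sz ((x.length + 2) ^ k) * C)), ?_, fun x i hi => ?_⟩
    · refine (Bd.const _).add ((Bd.const _).add (Bd.add ?_ (hn.bd.mul (Bd.const _))))
      have : FP .poly (fun x => (c0 x).2.2) := by fun_prop
      exact this.bd
    · have h1 := hb x i
      have h2 : ∀ c : ℕ × ℕ × List (List ℕ), sz c = 2 * c.1 + 1 + (2 * c.2.1 + 1 + sz c.2.2) := by
        rintro ⟨a, b, c⟩; simp
      show sz ((simStep tm syms)^[i] (c0 x)) ≤ _
      rw [h2]
      beta_reduce
      rw [sz_nat]
      have h3 : i * C ≤ (x.length + 2) ^ k * C := Nat.mul_le_mul_right _ hi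
      omega
  have hF : FP .poly F := by
    show FP .poly (fun x => _)
    fun_prop
  refine (Cp.of_FP (e := ea) hF).of_eq (fun _ => rfl) fun a => ?_
  -- correctness
  obtain ⟨⟨t, ht⟩, hle⟩ := hout a
  simp only at hle
  have hle' : t ≤ ((ea a).length + 2) ^ k := hle.trans (hk _)
  have hgood : Good tm syms (initList tm ((ea a).map inA.invFun)).stk := by
    intro k' x hx
    have h1 : (initList tm ((ea a).map inA.invFun)).stk = update (fun _ => []) tm.k₀
        ((ea a).map inA.invFun) := by
      funext k'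
      by_cases hk' : k' = tm.k₀
      · subst hk'
        rw [update_self]
        exact dif_pos rfl
      · rw [update_of_ne hk']
        exact dif_neg hk'
    rw [h1] at hx
    by_cases hk' : k' = tm.k₀
    · subst hk'
      rw [update_self] at hx
      obtain ⟨b, _, rfl⟩ := List.mem_map.1 hx
      exact hin b
    · rw [update_of_ne hk'] at hx
      cases hx
  obtain ⟨h1, h2⟩ := simStep_iter tm syms hsy t _ _ hgood ht
  have h3 : run (ea a) = codeCfg tm syms (haltList tm ((eb (f a)).map outA.invFun)) := by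
    show (simStep tm syms)^[((ea a).length + 2) ^ k] (c0 (ea a)) = _
    obtain ⟨r, hr⟩ := Nat.exists_eq_add_of_le hle'
    rw [hr, Nat.add_comm, iterate_add_apply, hc0, h1]
    exact Function.iterate_fixed (simStep_halt tm syms _ rfl) r
  show (((run (ea a)).2.2.getD (cK tm tm.k₁) []).map _) = _
  rw [h3]
  have h4 : (codeCfg tm syms (haltList tm ((eb (f a)).map outA.invFun))).2.2
      = codeStk tm syms (haltList tm ((eb (f a)).map outA.invFun)).stk := rfl
  rw [h4, codeStk_get]
  have h5 : (haltList tm ((eb (f a)).map outA.invFun)).stk tm.k₁ = (eb (f a)).map outA.invFun :=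
    dif_pos rfl
  rw [h5, List.map_map, List.map_map]
  refine (List.map_congr_left fun b _ => ?_).trans (List.map_id _)
  simp only [comp_apply]
  have h6 := outTab_get tm syms tm.k₁ outA (outA.symm b) (hou b)
  rw [show outA.invFun b = outA.symm b from rfl, h6]
  simp

end HerCo
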