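import Pool.Agent.Lib.MP_a28c52_lc.Clock
import Mathlib.Computability.TuringMachine.Computable

/-! From flat machines to Mathlib's `FinTM2`. -/

namespace HerCo

open Function Turing StateTransition

/-- The label with number `n`. -/
def labOf (p : List Instr) (n : ℕ) : Fin (p.length + 1) := ⟨min n p.length, by omega⟩

/-- The statement executed at a label. -/
def stmtOf (p : List Instr) (κ : ℕ) (hκ : 0 < κ) (l : Fin (p.length + 1)) :
    TM2.Stmt (fun _ : Fin κ => Bool) (Fin (p.length + 1)) (Option Bool) :=
  match p[l.1]? with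
  | none => .halt
  | some i =>
    if i.1 = 0 then
      .push ⟨i.2.1 % κ, Nat.mod_lt _ hκ⟩ (fun _ => false) (.goto fun _ => labOf p i.2.2.1)
    else if i.1 = 1 then
      .push ⟨i.2.1 % κ, Nat.mod_lt _ hκ⟩ (fun _ => true) (.goto fun _ => labOf p i.2.2.1)
    else if i.1 = 2 then
      .pop ⟨i.2.1 % κ, Nat.mod_lt _ hκ⟩ (fun v _ => v) (.goto fun _ => labOf p i.2.2.1)
    else
      .peek ⟨i.2.1 % κ, Nat.mod_lt _ hκ⟩ (fun _ o => o)
        (.branch (fun v => decide (v = none)) (.load (fun _ => none)
          (.goto fun _ => labOf p i.2.2.1))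
          (.branch (fun v => decide (v = some false)) (.load (fun _ => none)
            (.goto fun _ => labOf p i.2.2.2.1))
            (.load (fun _ => none) (.goto fun _ => labOf p i.2.2.2.2))))

/-- The Turing machine of a flat program. -/
def toTM (p : List Instr) (κ : ℕ) (hκ : 0 < κ) : FinTM2 where
  K := Fin κ
  k₀ := ⟨0, hκ⟩
  k₁ := ⟨0, hκ⟩
  Γ := fun _ => Bool
  Λ := Fin (p.length + 1)
  main := 0
  σ := Option Bool
  initialState := none
  Γk₀Fin := inferInstanceAs (Fintype Bool)
  m := stmtOf p κ hκ

/-- The configuration of the Turing machine belonging to a configuration of the flat machine. -/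
def toCfg (p : List Instr) (κ : ℕ) (hκ : 0 < κ) (c : ℕ × Store) : (toTM p κ hκ).Cfg :=
  ⟨some (labOf p c.1), none, fun k => c.2 k.1⟩

theorem step_toCfg {p : List Instr} {κ : ℕ} (hκ : 0 < κ) (hp : WF p κ) (c : ℕ × Store)
    (hc : c.1 < p.length) :
    (toTM p κ hκ).step (toCfg p κ hκ c) = some (toCfg p κ hκ (stepM p c)) ∧
      (stepM p c).1 ≤ p.length := by
  obtain ⟨pc, s⟩ := c
  simp only at hc
  have hg : p[pc]? = some p[pc] := List.getElem?_eq_getElem hc
  have hw := hp p[pc] (List.getElem_mem hc)
  generalize p[pc] = i at hg hw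
  obtain ⟨op, k, a, b, d⟩ := i
  simp only at hw
  obtain ⟨w1, w2, w3, w4, w5⟩ := hw
  have hl : (labOf p pc).1 = pc := by simp [labOf]; omega
  have hk : k % κ = k := Nat.mod_eq_of_lt w2
  have hupd : ∀ v : List Bool, (update (fun j : Fin κ => s j.1) ⟨k % κ, Nat.mod_lt _ hκ⟩ v)
      = fun j : Fin κ => update s k v j.1 := by
    intro v
    funext j
    by_cases hj : j = ⟨k % κ, Nat.mod_lt _ hκ⟩
    · subst hj; simp [hk]
    · have : j.1 ≠ k := by
        intro h; apply hj; ext; simp [hk, h]
      rw [update_of_ne hj, update_of_ne this]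
  have e1 : (toTM p κ hκ).step (toCfg p κ hκ (pc, s))
      = some (TM2.stepAux (stmtOf p κ hκ (labOf p pc)) none (fun k : Fin κ => s k.1)) := rfl
  rw [e1]
  have e2 : stepM p (pc, s) =
      (if op = 0 then (a, update s k (false :: s k))
      else if op = 1 then (a, update s k (true :: s k))
      else if op = 2 then (a, update s k (s k).tail)
      else if op = 3 then
        ((match s k with
          | [] => a
          | false :: _ => b
          | true :: _ => d), s)
      else (pc, s)) := by
    simp only [stepM, hg]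
    rfl
  rw [e2]
  have e3 : stmtOf p κ hκ (labOf p pc) =
    (if op = 0 then
      .push ⟨k % κ, Nat.mod_lt _ hκ⟩ (fun _ => false) (.goto fun _ => labOf p a)
    else if op = 1 then
      .push ⟨k % κ, Nat.mod_lt _ hκ⟩ (fun _ => true) (.goto fun _ => labOf p a)
    else if op = 2 then
      .pop ⟨k % κ, Nat.mod_lt _ hκ⟩ (fun v _ => v) (.goto fun _ => labOf p a)
    else
      .peek ⟨k % κ, Nat.mod_lt _ hκ⟩ (fun _ o => o)
        (.branch (fun v => decide (v = none)) (.load (fun _ => none)
          (.goto fun _ => labOf p a))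
          (.branch (fun v => decide (v = some false)) (.load (fun _ => none)
            (.goto fun _ => labOf p b))
            (.load (fun _ => none) (.goto fun _ => labOf p d))))) := by
    unfold stmtOf
    rw [hl, hg]
  rw [e3]
  obtain h | h | h | h : op = 0 ∨ op = 1 ∨ op = 2 ∨ op = 3 := by omega
  · subst h
    simp only [if_true]
    refine ⟨?_, w3⟩
    simp only [TM2.stepAux]
    rw [hupd]
    simp only [toCfg, hk]
    rfl
  · subst h
    simp only [one_ne_zero, if_false, if_true]
    refine ⟨?_, w3⟩
    simp only [TM2.stepAux]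
    rw [hupd]
    simp only [toCfg, hk]
    rfl
  · subst h
    simp only [OfNat.ofNat_ne_zero, OfNat.ofNat_ne_one, if_false, if_true]
    refine ⟨?_, w3⟩
    simp only [TM2.stepAux]
    rw [hupd]
    simp only [toCfg, hk]
    rfl
  · subst h
    simp only [OfNat.ofNat_ne_zero, OfNat.ofNat_ne_one, if_false, if_true,
      show (3 : ℕ) ≠ 2 by decide]
    simp only [TM2.stepAux, hk]
    rcases s k with _ | ⟨_ | _, l⟩
    · refine ⟨?_, w3⟩
      rfl
    · refine ⟨?_, w4⟩
      rfl
    · refine ⟨?_, w5⟩
      rfl

theorem step_toCfg_halt {p : List Instr} {κ : ℕ} (hκ : 0 < κ) (s : Store) :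
    (toTM p κ hκ).step (toCfg p κ hκ (p.length, s))
      = some ⟨none, none, fun k => s k.1⟩ := by
  have hl : (labOf p p.length).1 = p.length := by simp [labOf]
  have e1 : (toTM p κ hκ).step (toCfg p κ hκ (p.length, s))
      = some (TM2.stepAux (stmtOf p κ hκ (labOf p p.length)) none
        (fun k : Fin κ => s k.1)) := rfl
  rw [e1]
  have e2 : stmtOf p κ hκ (labOf p p.length) = .halt := by
    unfold stmtOf
    rw [hl]
    simp
  rw [e2]
  rfl

theorem run_toCfg {p : List Instr} {κ : ℕ} (hκ : 0 < κ) (hp : WF p κ) (t : ℕ) :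
    ∀ (c : ℕ × Store) (s : Store), c.1 ≤ p.length → (stepM p)^[t] c = (p.length, s) →
    ∃ t' ≤ t + 1, (flip bind (toTM p κ hκ).step)^[t'] (some (toCfg p κ hκ c))
      = some ⟨none, none, fun k => s k.1⟩ := by
  induction t with
  | zero =>
    intro c s _ h
    have hc : c = (p.length, s) := h
    subst hc
    exact ⟨1, le_rfl, step_toCfg_halt hκ s⟩
  | succ t ih =>
    intro c s hc h
    rcases hc.lt_or_eq with hlt | heq
    · obtain ⟨h1, h2⟩ := step_toCfg hκ hp c hlt
      rw [iterate_succ_apply] at h
      obtain ⟨t', ht', h3⟩ := ih _ s h2 h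
      refine ⟨t' + 1, by omega, ?_⟩
      rw [iterate_succ_apply]
      have : flip bind (toTM p κ hκ).step (some (toCfg p κ hκ c))
          = some (toCfg p κ hκ (stepM p c)) := h1
      rw [this]
      exact h3
    · obtain ⟨pc, s'⟩ := c
      simp only at heq
      subst heq
      rw [stepM_halt_iter] at h
      have hs : s' = s := congrArg Prod.snd h
      subst hs
      exact ⟨1, by omega, step_toCfg_halt hκ s'⟩

theorem ini_zero (x : List Bool) : ini x 0 = x := by simp [ini]

theorem ini_ne (x : List Bool) {k : ℕ} (h : k ≠ 0) : ini x k = [] := by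
  unfold ini; rw [update_of_ne h]

theorem initList_toTM {p : List Instr} {κ : ℕ} (hκ : 0 < κ) (x : List Bool) :
    initList (toTM p κ hκ) x = toCfg p κ hκ (0, ini x) := by
  unfold initList toCfg
  congr 1
  funext k
  by_cases hk : k = (toTM p κ hκ).k₀
  · subst hk
    exact (dif_pos rfl).trans (ini_zero x).symm
  · have h1 : (k : Fin κ).1 ≠ 0 := fun h => hk (Fin.ext h)
    exact (dif_neg hk).trans (ini_ne x h1).symm

theorem haltList_toTM {p : List Instr} {κ : ℕ} (hκ : 0 < κ) (x : List Bool) :
    haltList (toTM p κ hκ) x = ⟨none, none, fun k => ini x k.1⟩ := by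
  unfold haltList
  congr 1
  funext k
  by_cases hk : k = (toTM p κ hκ).k₁
  · subst hk
    exact (dif_pos rfl).trans (ini_zero x).symm
  · have h1 : (k : Fin κ).1 ≠ 0 := fun h => hk (Fin.ext h)
    exact (dif_neg hk).trans (ini_ne x h1).symm

/-- String functions computed by stack programs in polynomial time are computed by
polynomial-time Turing machines. -/
theorem Cp.toTM2 {α β : Type} {ea : α → List Bool} {eb : β → List Bool} {f : α → β}
    (h : Cp .poly ea (fun a => eb (f a))) : Nonempty (TM2ComputableInPolyTime ea eb f) := by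
  obtain ⟨p, κ, T, hκ, hp, ⟨d, hd⟩, hrun⟩ := h.machine
  refine ⟨{
    tm := toTM p κ hκ
    inputAlphabet := Equiv.refl Bool
    outputAlphabet := Equiv.refl Bool
    time := (Polynomial.X + 2) ^ d + 1
    outputsFun := fun a => ?_ }⟩
  have h1 : ∃ t' ≤ (((Polynomial.X + 2) ^ d + 1 : Polynomial ℕ)).eval (ea a).length,
      (flip bind (toTM p κ hκ).step)^[t'] (some (initList (toTM p κ hκ) (ea a)))
        = some (haltList (toTM p κ hκ) (eb (f a))) := by
    obtain ⟨t, ht, h2⟩ := hrun a
    obtain ⟨t', ht', h3⟩ := run_toCfg hκ hp t (0, ini (ea a)) _ (Nat.zero_le _) h2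
    refine ⟨t', ?_, ?_⟩
    · have := hd a
      simp only [Polynomial.eval_add, Polynomial.eval_pow, Polynomial.eval_X,
        Polynomial.eval_ofNat, Polynomial.eval_one]
      omega
    · rw [initList_toTM, haltList_toTM]
      exact h3
  have e1 : List.map (Equiv.refl Bool).invFun (ea a) = ea a := by simp
  have e2 : List.map (Equiv.refl Bool).invFun (eb (f a)) = eb (f a) := by simp
  exact {
    steps := h1.choose
    evals_in_steps := by
      have h2 := h1.choose_spec.2
      refine Eq.trans ?_ (h2.trans ?_)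
      · exact congrArg (fun z => (flip bind (toTM p κ hκ).step)^[h1.choose]
          (some (initList (toTM p κ hκ) z))) e1
      · exact congrArg (fun z => some (haltList (toTM p κ hκ) z)) e2.symm
    steps_le_m := h1.choose_spec.1 }

end HerCo
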