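import Pool.Agent.Lib.MP_a28c52_lc.SM

/-! Clocked runs of flat machines are computable (polynomial time for a fixed machine). -/

namespace HerCo

open Function

variable {α β γ δ σ : Type} [Enc α] [Enc β] [Enc γ] [Enc δ] [Enc σ] {m : Mode}

@[fun_prop]
theorem FP.optElim' {o : α → Option β} {f : α → γ} {g : α → β → γ} (ho : FP m o) (hf : FP m f)
    (hg : FP m (fun p : α × β => g p.1 p.2)) :
    FP m (fun a => (o a).elim (f a) (fun b => g a b)) :=
  FP.optElim ho hf (g := fun p : α × β => g p.1 p.2) hg

@[fun_prop]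
theorem FP.listElim' {l : α → List β} {f : α → γ} {g : α → β → List β → γ} (hl : FP m l)
    (hf : FP m f) (hg : FP m (fun p : α × β × List β => g p.1 p.2.1 p.2.2)) :
    FP m (fun a => HerCo.listElim (l a) (f a) (fun b t => g a b t)) :=
  FP.listElim hl hf (g := fun p : α × β × List β => g p.1 p.2.1 p.2.2) hg

@[fun_prop]
theorem FP.natElim' {n : α → ℕ} {f : α → γ} {g : α → ℕ → γ} (hn : FP m n)
    (hf : FP m f) (hg : FP m (fun p : α × ℕ => g p.1 p.2)) :
    FP m (fun a => HerCo.natElim (n a) (f a) (fun b => g a b)) :=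
  FP.natElim hn hf (g := fun p : α × ℕ => g p.1 p.2) hg

@[fun_prop]
theorem FP.setE {l : α → List (List Bool)} {k : α → ℕ} {v : α → List Bool} (hl : FP m l)
    (hk : FP m k) (hv : FP m v) : FP m (fun a => setE (l a) (k a) (v a)) := by
  unfold HerCo.setE
  fun_prop

@[fun_prop]
theorem FP.stepL {p : α → List Instr} {c : α → ℕ × List (List Bool)} (hp : FP m p)
    (hc : FP m c) : FP m (fun a => stepL (p a) (c a)) := by
  unfold HerCo.stepL
  fun_prop

theorem FP.outL_any {p : α → List Instr} {t : α → ℕ} {x : α → List Bool} (hp : FP .any p)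
    (ht : FP .any t) (hx : FP .any x) : FP .any (fun a => outL (p a) (t a) (x a)) := by
  have h1 : FP .any (fun a => (HerCo.stepL (p a))^[t a] (0, [x a])) :=
    FP.nat_iterateAny (init := fun a => (0, [x a])) (h := fun a c => HerCo.stepL (p a) c)
      (by fun_prop) (by fun_prop) ht
  unfold HerCo.outL
  fun_prop

theorem sz_boolList (x : List Bool) : sz x = 3 * x.length := by
  induction x with
  | nil => simp
  | cons b x ih => simp [ih]; ring

theorem sz_getD_le (l : List (List Bool)) (k : ℕ) : sz (l.getD k []) ≤ sz l := by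
  rw [List.getD_eq_getElem?_getD]
  by_cases h : k < l.length
  · rw [List.getElem?_eq_getElem h]
    exact sz_le_of_mem (List.getElem_mem h)
  · rw [List.getElem?_eq_none (by omega)]; simp

theorem sz_setE_le (l : List (List Bool)) (k : ℕ) (v : List Bool) :
    sz (setE l k v) + 2 * sz (l.getD k []) ≤ sz l + 2 * sz v + (k + 1) := by
  have e0 : ∀ (l : List (List Bool)) (n : ℕ), sz ((List.range (l.length + n)).map
      (fun i => l.getD i [])) = sz l + n := by
    intro l n
    rw [List.range_add, List.map_append, sz_append]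
    congr 1
    · congr 1
      apply List.ext_getElem?
      intro i
      by_cases hi : i < l.length
      · rw [List.getElem?_map, List.getElem?_range hi, List.getElem?_eq_getElem hi]
        simp [List.getD_eq_getElem?_getD, List.getElem?_eq_getElem hi]
      · rw [List.getElem?_eq_none (by simp; omega), List.getElem?_eq_none (by omega)]
    · rw [List.map_map]
      have : (List.range n).map ((fun i => l.getD i []) ∘ (fun x => l.length + x))
          = List.replicate n ([] : List Bool) := by
        rw [List.eq_replicate_iff]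
        refine ⟨by simp, fun b hb => ?_⟩
        obtain ⟨i, _, rfl⟩ := List.mem_map.1 hb
        simp [List.getD_eq_getElem?_getD]
      rw [this, sz_list]
      simp
  have e1 : ∀ (r : List ℕ) (k : ℕ) (f g : ℕ → List Bool), r.Nodup → k ∈ r →
      (∀ i, i ≠ k → f i = g i) →
      sz (r.map f) + 2 * sz (g k) = sz (r.map g) + 2 * sz (f k) := by
    intro r k f g
    induction r with
    | nil => intro _ h; simp at h
    | cons a r ih =>
      intro hn hk hfg
      rw [List.nodup_cons] at hn
      simp only [List.map_cons, sz_cons]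
      by_cases ha : a = k
      · subst ha
        have : r.map f = r.map g := List.map_congr_left fun i hi => hfg i (by
          rintro rfl; exact hn.1 hi)
        rw [this]; omega
      · have := ih hn.2 (by
          rcases List.mem_cons.1 hk with h | h
          · exact absurd h.symm ha
          · exact h) hfg
        rw [hfg a ha]
        omega
  have e2 := e1 (List.range (l.length + (k + 1 - l.length))) k
    (fun i => if i = k then v else l.getD i []) (fun i => l.getD i []) List.nodup_range
    (List.mem_range.2 (by omega)) (fun i hi => by simp [hi])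
  rw [e0] at e2
  simp only [if_true] at e2
  unfold setE
  omega

/-- Bound for the growth of the configuration in one step. -/
theorem sz_stepL_le (p : List Instr) (κ : ℕ) (hp : ∀ i ∈ p, i.2.1 < κ)
    (c : ℕ × List (List Bool)) : sz (stepL p c).2 ≤ sz c.2 + (κ + 6) := by
  unfold stepL
  obtain h | ⟨i, h⟩ : p[c.1]? = none ∨ ∃ i, p[c.1]? = some i := by cases p[c.1]? <;> simp
  · simp [h]
  · have hi := hp i (List.mem_of_getElem? h)
    simp only [h, Option.elim_some]
    split_ifs with h1 h2 h3 h4
    · have := sz_setE_le c.2 i.2.1 (false :: c.2.getD i.2.1 [])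
      rw [sz_cons, sz_bool] at this
      simp only; omega
    · have := sz_setE_le c.2 i.2.1 (true :: c.2.getD i.2.1 [])
      rw [sz_cons, sz_bool] at this
      simp only; omega
    · have := sz_setE_le c.2 i.2.1 (c.2.getD i.2.1 []).tail
      have h5 : sz (c.2.getD i.2.1 []).tail ≤ sz (c.2.getD i.2.1 []) := by
        cases c.2.getD i.2.1 [] <;> simp
      simp only; omega
    · simp
    · omega

theorem pc_stepL_le (p : List Instr) (P : ℕ) (hp : ∀ i ∈ p, i.2.2.1 ≤ P ∧ i.2.2.2.1 ≤ P ∧
    i.2.2.2.2 ≤ P)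
    (c : ℕ × List (List Bool)) (hc : c.1 ≤ P) : (stepL p c).1 ≤ P := by
  unfold stepL
  obtain h | ⟨i, h⟩ : p[c.1]? = none ∨ ∃ i, p[c.1]? = some i := by cases p[c.1]? <;> simp
  · simp [h, hc]
  · have hi := hp i (List.mem_of_getElem? h)
    simp only [h, Option.elim_some]
    split_ifs with h1 h2 h3 h4
    · exact hi.1
    · exact hi.1
    · exact hi.1
    · rcases c.2.getD i.2.1 [] with _ | ⟨_ | _, l⟩ <;> simp [HerCo.listElim, hi]
    · exact hc

theorem FP.outL_poly (p : List Instr) {t : α → ℕ} {x : α → List Bool}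
    (ht : FP .poly t) (hx : FP .poly x) : FP .poly (fun a => outL p (t a) (x a)) := by
  obtain ⟨κ, hκ⟩ : ∃ κ, ∀ i ∈ p, i.2.1 < κ := ⟨(p.map fun i => i.2.1).sum + 1, fun i hi => by
    have := List.single_le_sum (by simp) _ (List.mem_map.2 ⟨i, hi, rfl⟩ :
      i.2.1 ∈ p.map fun i => i.2.1)
    omega⟩
  obtain ⟨P, hP⟩ : ∃ P, ∀ i ∈ p, i.2.2.1 ≤ P ∧ i.2.2.2.1 ≤ P ∧ i.2.2.2.2 ≤ P :=
    ⟨(p.map fun i => i.2.2.1 + i.2.2.2.1 + i.2.2.2.2).sum, fun i hi => by
      have := List.single_le_sum (by simp) _ (List.mem_map.2 ⟨i, hi, rfl⟩ :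
        i.2.2.1 + i.2.2.2.1 + i.2.2.2.2 ∈ p.map fun i => i.2.2.1 + i.2.2.2.1 + i.2.2.2.2)
      omega⟩
  have hb : ∀ (x : List Bool) (i : ℕ), ((HerCo.stepL p)^[i] (0, [x])).1 ≤ P ∧
      sz ((HerCo.stepL p)^[i] (0, [x])).2 ≤ 2 * sz x + 1 + i * (κ + 6) := by
    intro x i
    induction i with
    | zero => simp
    | succ i ih =>
      rw [iterate_succ_apply']
      refine ⟨pc_stepL_le p P hP _ ih.1, (sz_stepL_le p κ hκ _).trans ?_⟩
      have : (i + 1) * (κ + 6) = i * (κ + 6) + (κ + 6) := by ring
      omega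
  have h1 : FP .poly (fun a => (HerCo.stepL p)^[t a] (0, [x a])) := by
    refine FP.nat_iterate (init := fun a => (0, [x a])) (h := fun _ c => HerCo.stepL p c)
      (by fun_prop) (by fun_prop) ht fun _ => ?_
    refine ⟨fun a => 2 * P + 1 + (2 * sz (x a) + 1 + sz (t a) * (κ + 6)), ?_, fun a i hi => ?_⟩
    · exact (Bd.const _).add ((((Bd.const 2).mul hx.bd).add (Bd.const 1)).add
        (ht.bd.mul (Bd.const _)))
    · have h2 := hb (x a) i
      have h3 : sz ((HerCo.stepL p)^[i] (0, [x a])) =
        2 * ((HerCo.stepL p)^[i] (0, [x a])).1 + 1 + sz ((HerCo.stepL p)^[i] (0, [x a])).2 := by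
        generalize (HerCo.stepL p)^[i] (0, [x a]) = c
        obtain ⟨u, v⟩ := c
        simp
      show sz ((HerCo.stepL p)^[i] (0, [x a])) ≤ _
      rw [h3]
      beta_reduce
      rw [sz_nat]
      have h4 : i * (κ + 6) ≤ t a * (κ + 6) := Nat.mul_le_mul_right _ hi
      omega
  unfold HerCo.outL
  fun_prop

end HerCo
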