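import Pool.Agent.Lib.MP_a28c52_lc.ToTM
import Pool.Agent.Lib.MP_a28c52_lc.FromTM2
import Pool.Agent.Lib.MP_a28c52_lc.Raw
import Pool.Agent.Lib.MP_a28c52_lc.Clock
import Pool.Prelude.Def_F_458e953d

/-! The notion of polynomial time of the statement and the typed notion coincide. -/

namespace HerCo

open N68a2faeb

theorem delimit_eq (x : List Bool) : N487b59b3.delimit x = dl x := by
  induction x with
  | nil => rfl
  | cons b x ih => simp [N487b59b3.delimit, dl, ih]

theorem encode_list (x : List Bool) :
    (N487b59b3.toEncoding (α := List Bool)).encode x = enc x := by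
  show ((x.map N487b59b3.bitEncode).map N487b59b3.delimit).flatten = enc x
  induction x with
  | nil => rfl
  | cons b x ih =>
    simp only [List.map_cons, List.flatten_cons, ih]
    rw [delimit_eq]
    rfl

theorem encode_pair (q : List Bool × List Bool) :
    (N487b59b3.toEncoding (α := List Bool × List Bool)).encode q = enc q := by
  show N487b59b3.delimit (N487b59b3.bitEncode q.1) ++ N487b59b3.bitEncode q.2 = _
  rw [delimit_eq]
  show dl ((N487b59b3.toEncoding (α := List Bool)).encode q.1) ++
    (N487b59b3.toEncoding (α := List Bool)).encode q.2 = _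
  rw [encode_list, encode_list]
  rfl

theorem encode_bool (b : Bool) : (N487b59b3.toEncoding (α := Bool)).encode b = enc b := rfl

theorem isPolyTime_iff {α β : Type} [N487b59b3 α] [N487b59b3 β] [Enc α] [Enc β] (f : α → β)
    (ha : ∀ a : α, (N487b59b3.toEncoding (α := α)).encode a = enc a)
    (hb : ∀ b : β, (N487b59b3.toEncoding (α := β)).encode b = enc b) :
    IsPolyTime f ↔ FP .poly f := by
  constructor
  · rintro ⟨h⟩
    exact (Cp.ofTM2 h).of_eq ha fun a => hb (f a)
  · intro h
    exact Cp.toTM2 (Cp.of_eq h (fun a => (ha a).symm) fun a => (hb (f a)).symm)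

theorem isPolyTime_bool (f : List Bool → Bool) : IsPolyTime f ↔ FP .poly f :=
  isPolyTime_iff f encode_list encode_bool

theorem isPolyTime_list (f : List Bool → List Bool) : IsPolyTime f ↔ FP .poly f :=
  isPolyTime_iff f encode_list encode_list

theorem isPolyTime_pair (f : List Bool × List Bool → Bool) : IsPolyTime f ↔ FP .poly f :=
  isPolyTime_iff f encode_pair encode_bool

variable {α : Type} [Enc α] {md : Mode}

@[fun_prop]
theorem FP.polyEval (p : Polynomial ℕ) {f : α → ℕ} (hf : FP md f) :
    FP md (fun a => p.eval (f a)) := by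
  induction p using Polynomial.induction_on' with
  | add p q hp hq => simp only [Polynomial.eval_add]; fun_prop
  | monomial n c => simp only [Polynomial.eval_monomial]; fun_prop

@[fun_prop]
theorem FP.fstS {f : α → List Bool} (hf : FP md f) : FP md (fun a => fstS (f a)) :=
  (FP.of_Cp (Cp.fstS (e := fun x : List Bool => x))).comp hf

@[fun_prop]
theorem FP.sndS {f : α → List Bool} (hf : FP md f) : FP md (fun a => sndS (f a)) :=
  (FP.of_Cp (Cp.sndS (e := fun x : List Bool => x))).comp hf

@[fun_prop]
theorem FP.dl {f : α → List Bool} (hf : FP md f) : FP md (fun a => dl (f a)) := by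
  have h : ∀ x : List Bool, HerCo.dl x = x.flatMap (fun b => [true, b]) ++ [false] := by
    intro x
    induction x with
    | nil => rfl
    | cons b x ih => simp [HerCo.dl, ih]
  simp only [h]
  fun_prop

end HerCo
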