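import Pool.Agent.Lib.MP_a28c52_lc.MC
import Pool.Agent.Lib.MP_a28c52_lc.Bridge

/-! Codes of finite structures, induced substructures. -/

namespace HerCo

open Function FirstOrder FirstOrder.Language

variable {α β γ δ σ : Type} [Enc α] [Enc β] [Enc γ] [Enc δ] [Enc σ] {md : Mode}

/-- The body of the code: the adjacency matrices. -/
def bodyOf (m N : ℕ) (f : ℕ → ℕ → ℕ → Bool) : List Bool :=
  (List.range m).flatMap fun j => (List.range N).flatMap fun a =>
    (List.range N).map fun b => f j a b

/-- The code of the structure with domain `{0, ..., N - 1}` and relations `f`. -/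
def codeOf (m N : ℕ) (f : ℕ → ℕ → ℕ → Bool) : List Bool :=
  List.replicate N true ++ false :: bodyOf m N f

theorem length_flatMap_range {β : Type} (n c : ℕ) (g : ℕ → List β)
    (h : ∀ i < n, (g i).length = c) : ((List.range n).flatMap g).length = n * c := by
  induction n with
  | zero => simp
  | succ n ih =>
    rw [List.range_succ, List.flatMap_append, List.length_append,
      ih fun i hi => h i (by omega)]
    simp [h n (by omega)]
    ring

theorem getD_flatMap_range {β : Type} (n c : ℕ) (g : ℕ → List β)
    (h : ∀ i < n, (g i).length = c) (i r : ℕ) (hi : i < n) (hr : r < c) (d : β) :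
    ((List.range n).flatMap g).getD (i * c + r) d = (g i).getD r d := by
  induction n with
  | zero => omega
  | succ n ih =>
    rw [List.range_succ, List.flatMap_append]
    have hl := length_flatMap_range n c g fun i hi => h i (by omega)
    by_cases h1 : i < n
    · rw [List.getD_append _ _ _ _ (by
        rw [hl]
        have : (i + 1) * c ≤ n * c := Nat.mul_le_mul_right _ h1
        have h2 : (i + 1) * c = i * c + c := by ring
        omega)]
      exact ih (fun i hi => h i (by omega)) h1
    · obtain rfl : i = n := by omega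
      rw [List.getD_append_right _ _ _ _ (by rw [hl]; omega), hl]
      simp

theorem length_bodyOf (m N : ℕ) (f : ℕ → ℕ → ℕ → Bool) :
    (bodyOf m N f).length = m * (N * N) := by
  unfold bodyOf
  refine length_flatMap_range m (N * N) _ fun j _ => ?_
  exact length_flatMap_range N N _ fun a _ => by simp

theorem getD_bodyOf (m N : ℕ) (f : ℕ → ℕ → ℕ → Bool) {j a b : ℕ} (hj : j < m) (ha : a < N)
    (hb : b < N) : (bodyOf m N f).getD (j * (N * N) + a * N + b) false = f j a b := by
  unfold bodyOf
  have h1 : a * N + b < N * N := by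
    have : (a + 1) * N ≤ N * N := Nat.mul_le_mul_right _ ha
    have h2 : (a + 1) * N = a * N + N := by ring
    omega
  rw [Nat.add_assoc, getD_flatMap_range m (N * N) _ (fun j _ =>
    length_flatMap_range N N _ fun a _ => by simp) j (a * N + b) hj h1,
    getD_flatMap_range N N _ (fun a _ => by simp) a b ha hb]
  rw [List.getD_eq_getElem?_getD, List.getElem?_map, List.getElem?_range hb]
  rfl

@[simp]
theorem numElems_codeOf (m N : ℕ) (f : ℕ → ℕ → ℕ → Bool) : numElems (codeOf m N f) = N := by
  unfold numElems codeOf
  rw [List.takeWhile_append_of_pos (by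
    intro a ha
    simp [List.eq_of_mem_replicate ha])]
  simp

theorem length_codeOf (m N : ℕ) (f : ℕ → ℕ → ℕ → Bool) :
    (codeOf m N f).length = N + 1 + m * (N * N) := by
  unfold codeOf
  rw [List.length_append, List.length_cons, length_bodyOf, List.length_replicate]
  omega

theorem isCode_codeOf {m N : ℕ} (f : ℕ → ℕ → ℕ → Bool) (hN : 0 < N) :
    IsCode m (codeOf m N f) := by
  refine ⟨by simpa using hN, ?_⟩
  rw [length_codeOf, numElems_codeOf]

theorem bitOf_codeOf {m N : ℕ} (f : ℕ → ℕ → ℕ → Bool) {j a b : ℕ} (hj : j < m) (ha : a < N)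
    (hb : b < N) : bitOf (codeOf m N f) j a b = f j a b := by
  unfold bitOf
  rw [numElems_codeOf]
  unfold codeOf
  rw [List.getD_append_right _ _ _ _ (by rw [List.length_replicate]; omega),
    List.length_replicate]
  have : N + 1 + j * (N * N) + a * N + b - N = (j * (N * N) + a * N + b) + 1 := by omega
  rw [this, List.getD_cons_succ, getD_bodyOf m N f hj ha hb]

/-- `IsCode` as a Boolean. -/
def validB (m : ℕ) (y : List Bool) : Bool :=
  decide (0 < numElems y) && decide (y.length = numElems y + 1 + m * (numElems y * numElems y))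

theorem validB_iff (m : ℕ) (y : List Bool) : validB m y = true ↔ IsCode m y := by
  simp [validB, IsCode]

@[fun_prop]
theorem FP.validB {f : α → ℕ} {y : α → List Bool} (hf : FP md f) (hy : FP md y) :
    FP md (fun a => validB (f a) (y a)) := by
  unfold HerCo.validB
  fun_prop

/-- The code of the substructure of `y` induced on the list `l`. -/
def induced (m : ℕ) (y : List Bool) (l : List ℕ) : List Bool :=
  codeOf m l.length fun j a b => bitOf y j (l.getD a 0) (l.getD b 0)

@[fun_prop]
theorem FP.bodyOf {M N : α → ℕ} {f : α → ℕ → ℕ → ℕ → Bool} (hM : FP md M) (hN : FP md N)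
    (hf : FP md (fun p : α × ℕ × ℕ × ℕ => f p.1 p.2.1 p.2.2.1 p.2.2.2)) :
    FP md (fun a => bodyOf (M a) (N a) (f a)) := by
  unfold HerCo.bodyOf
  refine FP.flatMap (g := fun a j => (List.range (N a)).flatMap fun c =>
    (List.range (N a)).map fun b => f a j c b) (by fun_prop) ?_
  refine FP.flatMap (l := fun p : α × ℕ => List.range (N p.1)) (g := fun (p : α × ℕ) c =>
    (List.range (N p.1)).map fun b => f p.1 p.2 c b) (by fun_prop) ?_
  refine FP.map (l := fun p : (α × ℕ) × ℕ => List.range (N p.1.1)) (g := fun
    (p : (α × ℕ) × ℕ) b => f p.1.1 p.1.2 p.2 b) (by fun_prop) ?_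
  exact FP.comp (f := fun p : ((α × ℕ) × ℕ) × ℕ => (p.1.1.1, p.1.1.2, p.1.2, p.2)) hf
    (by fun_prop)

@[fun_prop]
theorem FP.codeOf {M N : α → ℕ} {f : α → ℕ → ℕ → ℕ → Bool} (hM : FP md M) (hN : FP md N)
    (hf : FP md (fun p : α × ℕ × ℕ × ℕ => f p.1 p.2.1 p.2.2.1 p.2.2.2)) :
    FP md (fun a => codeOf (M a) (N a) (f a)) := by
  unfold HerCo.codeOf
  fun_prop

@[fun_prop]
theorem FP.induced {M : α → ℕ} {y : α → List Bool} {l : α → List ℕ} (hM : FP md M)
    (hy : FP md y) (hl : FP md l) : FP md (fun a => induced (M a) (y a) (l a)) := by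
  unfold HerCo.induced
  fun_prop

/-- Truth of a sentence in the structure coded by a string. -/
def sat {m : ℕ} (φ : (binLang m).Sentence) (y : List Bool) : Bool :=
  mc φ y (List.range (numElems y)) []

theorem map_getD_range (l : List ℕ) : (List.range l.length).map (fun a => l.getD a 0) = l := by
  apply List.ext_getElem
  · simp
  · intro i h1 h2
    rw [List.getElem_map, List.getElem_range, List.getD_eq_getElem _ _ h2]

theorem mc_induced {m : ℕ} (φ : (binLang m).Sentence) (y : List Bool) (l : List ℕ)
    (hl : l.Nodup) : mc φ y l [] = sat φ (induced m y l) := by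
  unfold sat
  have hn : numElems (induced m y l) = l.length := by simp [induced]
  rw [hn]
  have h := mc_map φ (induced m y l) y (List.range l.length) (fun a => l.getD a 0)
    (by
      intro a ha b hb hab
      rw [List.mem_range] at ha hb
      rw [List.getD_eq_getElem _ _ ha, List.getD_eq_getElem _ _ hb] at hab
      exact (List.Nodup.getElem_inj_iff hl).1 hab)
    (by
      intro j hj a ha b hb
      rw [List.mem_range] at ha hb
      unfold induced
      rw [bitOf_codeOf _ hj ha hb])
    [] rfl (by simp)
  rw [h, map_getD_range]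
  rfl

/-- Hereditary satisfaction in terms of lists of elements. -/
theorem hereditarily_iff {m : ℕ} (φ : (binLang m).Sentence) (y : List Bool) :
    Hereditarily φ y ↔ ∀ l : List ℕ, l ≠ [] → (∀ a ∈ l, a < numElems y) → mc φ y l [] = true := by
  let _ := strOf m y
  have key : ∀ (B : (binLang m).Substructure (Fin (numElems y))) (l : List ℕ),
      (∀ a (h : a < numElems y), a ∈ l ↔ (⟨a, h⟩ : Fin (numElems y)) ∈ B) →
      (∀ a ∈ l, a < numElems y) →
      (B ⊨ φ ↔ mc φ y l [] = true) := by
    intro B l h1 h2
    rw [mc_sentence]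
    let _ := strOn m y l
    let e : B ≃ {a // a ∈ l} := {
      toFun := fun b => ⟨b.1.1, (h1 b.1.1 b.1.2).2 b.2⟩
      invFun := fun a => ⟨⟨a.1, h2 _ a.2⟩, (h1 _ _).1 a.2⟩
      left_inv := fun b => rfl
      right_inv := fun a => rfl }
    let E : B ≃[binLang m] {a // a ∈ l} := {
      e with
      map_fun' := fun f => nomatch f
      map_rel' := by
        intro n r x
        cases r with
        | rel j => exact Iff.rfl }
    exact StrongHomClass.realize_sentence E φ
  constructor
  · intro h l hl hlt
    obtain ⟨a, ha⟩ := List.exists_mem_of_ne_nil l hl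
    let B : (binLang m).Substructure (Fin (numElems y)) := {
      carrier := {a | a.1 ∈ l}
      fun_mem := fun f => nomatch f }
    refine (key B l (fun a h => Iff.rfl) hlt).1 (h B ⟨⟨⟨a, hlt a ha⟩, ha⟩⟩)
  · intro h B hB
    classical
    obtain ⟨⟨b, hb⟩⟩ := hB
    let l : List ℕ := (List.range (numElems y)).filter
      (fun a => decide (∃ h : a < numElems y, (⟨a, h⟩ : Fin (numElems y)) ∈ B))
    have h1 : ∀ a (h : a < numElems y), a ∈ l ↔ (⟨a, h⟩ : Fin (numElems y)) ∈ B := by
      intro a h
      simp only [l, List.mem_filter, List.mem_range, decide_eq_true_eq]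
      exact ⟨fun h => h.2.2, fun h' => ⟨h, h, h'⟩⟩
    refine (key B l h1 ?_).2 (h l ?_ ?_)
    · intro a ha
      exact List.mem_range.1 (List.mem_filter.1 ha).1
    · intro hl
      have := (h1 b.1 b.2).2 hb
      rw [hl] at this
      simp at this
    · intro a ha
      exact List.mem_range.1 (List.mem_filter.1 ha).1

/-- All lists of length at most `b` with entries less than `N`. -/
def tup (N : ℕ) : ℕ → List (List ℕ)
  | 0 => [([] : List ℕ)]
  | b + 1 => [] :: (tup N b).flatMap fun l => (List.range N).map fun a => a :: l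

theorem mem_tup (N : ℕ) : ∀ (b : ℕ) (l : List ℕ),
    l ∈ tup N b ↔ l.length ≤ b ∧ ∀ a ∈ l, a < N := by
  intro b
  induction b with
  | zero =>
    intro l
    simp only [tup, List.mem_singleton, Nat.le_zero, List.length_eq_zero_iff]
    exact ⟨fun h => ⟨h, by simp [h]⟩, fun h => h.1⟩
  | succ b ih =>
    intro l
    simp only [tup, List.mem_cons, List.mem_flatMap, List.mem_map, List.mem_range]
    constructor
    · rintro (rfl | ⟨l', hl', a, ha, rfl⟩)
      · simp
      · have := (ih l').1 hl'
        refine ⟨by simp; omega, ?_⟩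
        intro c hc
        rcases List.mem_cons.1 hc with rfl | hc
        · exact ha
        · exact this.2 c hc
    · rintro ⟨h1, h2⟩
      cases l with
      | nil => exact .inl rfl
      | cons a l =>
        refine .inr ⟨l, (ih l).2 ⟨by simpa using h1, fun c hc => h2 c (List.mem_cons_of_mem _ hc)⟩,
          a, h2 a (List.mem_cons_self ..), rfl⟩

theorem FP.tupC {N : α → ℕ} (hN : FP md N) (b : ℕ) : FP md (fun a => tup (N a) b) := by
  induction b with
  | zero => simp only [tup]; fun_prop
  | succ b ih => simp only [tup]; fun_prop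

/-- One step of the construction of `tup`. -/
def tupStep (N : ℕ) (t : List (List ℕ)) : List (List ℕ) :=
  [] :: t.flatMap fun l => (List.range N).map fun a => a :: l

theorem tup_eq_iterate (N b : ℕ) : tup N b = (tupStep N)^[b] [([] : List ℕ)] := by
  induction b with
  | zero => rfl
  | succ b ih => rw [iterate_succ_apply', ← ih]; rfl

@[fun_prop]
theorem FP.tupAny {N b : α → ℕ} (hN : FP .any N) (hb : FP .any b) :
    FP .any (fun a => tup (N a) (b a)) := by
  simp only [tup_eq_iterate]
  refine FP.nat_iterateAny (init := fun _ => [([] : List ℕ)]) (h := fun a t => tupStep (N a) t)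
    (by fun_prop) ?_ hb
  unfold tupStep
  fun_prop

/-- Lists without repetitions. -/
def nodupB (l : List ℕ) : Bool :=
  (List.range l.length).all fun i => (List.range l.length).all fun j =>
    decide (i = j) || !(decide (l.getD i 0 = l.getD j 0))

theorem nodupB_iff (l : List ℕ) : nodupB l = true ↔ l.Nodup := by
  unfold nodupB
  simp only [List.all_eq_true, List.mem_range, Bool.or_eq_true, decide_eq_true_eq,
    Bool.not_eq_true', decide_eq_false_iff_not]
  rw [List.nodup_iff_injective_getElem]
  constructor
  · intro h i j hij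
    rcases h i.1 i.2 j.1 j.2 with h1 | h1
    · exact Fin.ext h1
    · exfalso
      apply h1
      rw [List.getD_eq_getElem _ _ i.2, List.getD_eq_getElem _ _ j.2]
      exact hij
  · intro h i hi j hj
    by_cases h1 : l.getD i 0 = l.getD j 0
    · left
      rw [List.getD_eq_getElem _ _ hi, List.getD_eq_getElem _ _ hj] at h1
      have := @h ⟨i, hi⟩ ⟨j, hj⟩ h1
      exact congrArg Fin.val this
    · exact .inr h1

@[fun_prop]
theorem FP.nodupB {l : α → List ℕ} (hl : FP md l) : FP md (fun a => nodupB (l a)) := by
  unfold HerCo.nodupB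
  fun_prop

/-- Membership of a string in a list. -/
def memB (x : List Bool) (F : List (List Bool)) : Bool := F.any fun z => decide (x = z)

theorem memB_iff (x : List Bool) (F : List (List Bool)) : memB x F = true ↔ x ∈ F := by
  simp [memB]

@[fun_prop]
theorem FP.memB {x : α → List Bool} {F : α → List (List Bool)} (hx : FP md x) (hF : FP md F) :
    FP md (fun a => memB (x a) (F a)) := by
  unfold HerCo.memB
  fun_prop

/-- The string `y` is not a code, or it is the code of a structure having a nonempty induced
substructure with at most `b` elements whose code is in the list `F`. -/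
def UPf (m b : ℕ) (F : List (List Bool)) (y : List Bool) : Bool :=
  !(validB m y) || (tup (numElems y) b).any fun l =>
    !l.isEmpty && nodupB l && memB (induced m y l) F

theorem UPf_iff (m b : ℕ) (F : List (List Bool)) (y : List Bool) :
    UPf m b F y = true ↔ (IsCode m y → ∃ l : List ℕ, l ≠ [] ∧ l.Nodup ∧
      (∀ a ∈ l, a < numElems y) ∧ l.length ≤ b ∧ induced m y l ∈ F) := by
  unfold UPf
  simp only [Bool.or_eq_true, Bool.not_eq_true', List.any_eq_true, Bool.and_eq_true,
    List.isEmpty_eq_false_iff, memB_iff]
  rw [← validB_iff]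
  constructor
  · rintro (h | ⟨l, h1, ⟨h2, h3⟩, h4⟩) h0
    · rw [h] at h0; cases h0
    · rw [mem_tup] at h1
      exact ⟨l, h2, (nodupB_iff l).1 h3, h1.2, h1.1, h4⟩
  · intro h
    by_cases h0 : validB m y = true
    · obtain ⟨l, h2, h3, h4, h5, h6⟩ := h h0
      exact .inr ⟨l, (mem_tup _ _ _).2 ⟨h5, h4⟩, ⟨h2, (nodupB_iff l).2 h3⟩, h6⟩
    · exact .inl (by simpa using h0)

theorem FP.UPfC {y : α → List Bool} (hy : FP md y) (m b : ℕ) (F : List (List Bool)) :
    FP md (fun a => UPf m b F (y a)) := by
  have h1 : FP md (fun a => tup (HerCo.numElems (y a)) b) := FP.tupC (by fun_prop) b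
  unfold UPf
  fun_prop

@[fun_prop]
theorem FP.UPfAny {M b : α → ℕ} {F : α → List (List Bool)} {y : α → List Bool}
    (hM : FP .any M) (hb : FP .any b) (hF : FP .any F) (hy : FP .any y) :
    FP .any (fun a => UPf (M a) (b a) (F a) (y a)) := by
  unfold UPf
  fun_prop

end HerCo
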