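import Pool.Agent.Lib.MP_a28c52_lc.Canon
import Pool.Agent.Lib.MP_a28c52_lc.Codes

/-! The structure all of whose accepting-run substructures have a given beginning. -/

namespace HerCo

open Function FirstOrder FirstOrder.Language

section arith

variable {α : Type} [Enc α] {md : Mode}

@[fun_prop]
theorem FP.div {f g : α → ℕ} (hf : FP md f) (hg : FP md g) : FP md (fun a => f a / g a) := by
  have e : ∀ (a b : ℕ), 0 < b → ∀ n,
      (fun s => if (s + 1) * b ≤ a then s + 1 else s)^[n] 0 = min n (a / b) := by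
    intro a b hb n
    induction n with
    | zero => simp
    | succ n ih =>
      rw [iterate_succ_apply', ih]
      by_cases h1 : (min n (a / b) + 1) * b ≤ a
      · rw [if_pos h1]
        rw [← Nat.le_div_iff_mul_le hb] at h1
        omega
      · rw [if_neg h1]
        rw [← Nat.le_div_iff_mul_le hb] at h1
        omega
  have h1 : FP md (fun a => (fun s => if (s + 1) * g a ≤ f a then s + 1 else s)^[f a] 0) := by
    refine FP.nat_iterate (init := fun _ => 0) (h := fun a s => if (s + 1) * g a ≤ f a then s + 1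
      else s) (by fun_prop) (by fun_prop) hf fun hm => ?_
    subst hm
    refine ⟨fun a => f a, ?_, fun a i hi => ?_⟩
    · have h1 := hf.bd
      simpa only [sz_nat] using h1
    · have : ∀ n, (fun s => if (s + 1) * g a ≤ f a then s + 1 else s)^[n] 0 ≤ n := by
        intro n
        induction n with
        | zero => simp
        | succ n ih =>
          rw [iterate_succ_apply']
          split_ifs <;> omega
      rw [sz_nat]
      exact (this i).trans hi
  have h2 : FP md (fun a => if g a = 0 then 0 else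
      (fun s => if (s + 1) * g a ≤ f a then s + 1 else s)^[f a] 0) := by fun_prop
  refine h2.congr fun a => ?_
  by_cases h0 : g a = 0
  · simp [h0]
  · rw [if_neg h0, e _ _ (Nat.pos_of_ne_zero h0)]
    exact min_eq_right (Nat.div_le_self _ _)

@[fun_prop]
theorem FP.mod {f g : α → ℕ} (hf : FP md f) (hg : FP md g) : FP md (fun a => f a % g a) := by
  simp only [Nat.mod_def]
  fun_prop

/-- The digit with index `i` of `a` in base `B`. -/
def dig (B i a : ℕ) : ℕ := ((fun n => n / B)^[i] a) % B

@[fun_prop]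
theorem FP.dig {B i a : α → ℕ} (hB : FP md B) (hi : FP md i) (ha : FP md a) :
    FP md (fun x => dig (B x) (i x) (a x)) := by
  have h1 : FP md (fun x => (fun n => n / B x)^[i x] (a x)) := by
    refine FP.nat_iterate (init := a) (h := fun x n => n / B x) ha (by fun_prop) hi fun hm => ?_
    subst hm
    refine ⟨fun x => a x, ?_, fun x j hj => ?_⟩
    · have h1 := ha.bd
      simpa only [sz_nat] using h1
    · rw [sz_nat]
      clear hj
      induction j with
      | zero => exact le_rfl
      | succ j ih =>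
        rw [iterate_succ_apply']
        exact (Nat.div_le_self _ _).trans ih
  unfold HerCo.dig
  fun_prop

/-- The number with given digits. -/
def num (B : ℕ) : ℕ → (ℕ → ℕ) → ℕ
  | 0, _ => 0
  | n + 1, d => d 0 + B * num B n (fun i => d (i + 1))

theorem dig_num (B : ℕ) : ∀ (n : ℕ) (d : ℕ → ℕ) (i : ℕ), i < n → (∀ j < n, d j < B) →
    dig B i (num B n d) = d i := by
  intro n
  induction n with
  | zero => intro d i hi; omega
  | succ n ih =>
    intro d i hi hd
    have h0 := hd 0 (by omega)
    cases i with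
    | zero =>
      simp only [dig, num, iterate_zero, id_eq]
      rw [Nat.add_mul_mod_self_left, Nat.mod_eq_of_lt h0]
    | succ i =>
      have h1 := ih (fun i => d (i + 1)) i (by omega) fun j hj => hd _ (by omega)
      rw [← h1]
      simp only [dig, num, iterate_succ_apply]
      congr 2
      rw [Nat.add_mul_div_left _ _ (by omega), Nat.div_eq_of_lt h0, Nat.zero_add]

theorem num_lt (B : ℕ) : ∀ (n : ℕ) (d : ℕ → ℕ), (∀ j < n, d j < B) → num B n d < B ^ n := by
  intro n
  induction n with
  | zero => intro d _; simp [num]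
  | succ n ih =>
    intro d hd
    have h0 := hd 0 (by omega)
    have h1 := ih (fun i => d (i + 1)) fun j hj => hd _ (by omega)
    simp only [num]
    have h2 : B * (num B n (fun i => d (i + 1)) + 1) ≤ B * B ^ n := Nat.mul_le_mul_left _ h1
    rw [pow_succ, mul_comm (B ^ n) B]
    have h3 : B * (num B n (fun i => d (i + 1)) + 1) = B * num B n (fun i => d (i + 1)) + B := by
      ring
    omega

end arith

/-- Admissible elements. -/
def VB (P T : ℕ) (u : List Bool) (a : ℕ) : Bool :=
  decide (dig (T + 1) 0 a < T) && decide (dig (T + 1) 1 a < P + 3) &&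
    (decide (u.length ≤ dig (T + 1) 0 a) ||
      decide (dig (T + 1) 1 a = if u.getD (dig (T + 1) 0 a) false then 1 else 0))

/-- The relations. -/
def relB (P T : ℕ) (u : List Bool) (j a b : ℕ) : Bool :=
  VB P T u a && VB P T u b &&
    (if j = 0 then decide (dig (T + 1) 0 a < dig (T + 1) 0 b)
    else if j = 1 then decide (dig (T + 1) 0 a + 1 = dig (T + 1) 0 b)
    else if j = 2 then decide (dig (T + 1) 0 a = 0)
    else if j < 6 + P then decide (dig (T + 1) 1 a = j - 3)
    else decide (dig (T + 1) (j - (6 + P) + 2) a = dig (T + 1) 0 b))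

/-- The code of the structure. -/
def gad (P κ T : ℕ) (u : List Bool) : List Bool :=
  codeOf (6 + P + κ) ((T + 1) ^ (κ + 2)) (relB P T u)

theorem FP.gad {α : Type} [Enc α] {md : Mode} (P κ : ℕ) {T : α → ℕ} {u : α → List Bool}
    (hT : FP md T) (hu : FP md u) : FP md (fun a => gad P κ (T a) (u a)) := by
  unfold HerCo.gad relB VB
  fun_prop

theorem isCode_gad (P κ T : ℕ) (u : List Bool) : IsCode (6 + P + κ) (gad P κ T u) :=
  isCode_codeOf _ (by positivity)

theorem numElems_gad (P κ T : ℕ) (u : List Bool) :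
    numElems (gad P κ T u) = (T + 1) ^ (κ + 2) := by
  unfold gad
  rw [numElems_codeOf]

section

variable {p : List Instr} {κ : ℕ}

theorem mc_iff_isRun {ψ : (binLang (6 + p.length + κ)).Sentence}
    (hψ : ∀ (A : Type) (R : ℕ → A → A → Prop),
      @Sentence.Realize (binLang _) A (mkStr fun j a b => R j a b) ψ ↔ IsRun p κ A R)
    (y : List Bool) (l : List ℕ) : mc ψ y l [] = true ↔
      IsRun p κ {a // a ∈ l} (fun j a b => bitOf y j a.1 b.1 = true) :=
  (mc_sentence ψ y l).trans
    (hψ {a // a ∈ l} (fun j a b => bitOf y j a.1 b.1 = true))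

/-- Digits of the element for the time `t`. -/
def dgt (p : List Instr) (lab : ℕ → ℕ) (T t i : ℕ) : ℕ :=
  if i = 0 then t else if i = 1 then lab t else (psN p lab t (i - 2)).head?.getD T

theorem dgt_lt {lab : ℕ → ℕ} {T ℓ : ℕ} (hℓ : ℓ < T) (hP : p.length + 2 ≤ T)
    (hl : ∀ t, lab t ≤ p.length + 2) {t : ℕ} (ht : t ≤ ℓ) (i : ℕ) :
    dgt p lab T t i < T + 1 := by
  unfold dgt
  split_ifs with h1 h2
  · omega
  · have := hl t; omega
  · cases hs : psN p lab t (i - 2) with
    | nil => simp
    | cons z r =>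
      have := (psN_cons p lab (i - 2) t z r hs).1
      simp
      omega

theorem gad_complete (hκ : 0 < κ) (hp : WF p κ)
    {ψ : (binLang (6 + p.length + κ)).Sentence}
    (hψ : ∀ (A : Type) (R : ℕ → A → A → Prop),
      @Sentence.Realize (binLang _) A (mkStr fun j a b => R j a b) ψ ↔ IsRun p κ A R)
    {lab : ℕ → ℕ} {ℓ T : ℕ} {u : List Bool} (h : Trace p lab ℓ) (hℓ : ℓ < T)
    (hP : p.length + 2 ≤ T) (hl : ∀ t, lab t ≤ p.length + 2)
    (hu : ∀ t < u.length, lab t = if u.getD t false then 1 else 0) :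
    ∃ l : List ℕ, l ≠ [] ∧ (∀ a ∈ l, a < numElems (gad p.length κ T u)) ∧
      mc ψ (gad p.length κ T u) l [] = true := by
  let g : ℕ → ℕ := fun t => num (T + 1) (κ + 2) (dgt p lab T t)
  have hdig : ∀ t ≤ ℓ, ∀ i < κ + 2, dig (T + 1) i (g t) = dgt p lab T t i := fun t ht i hi =>
    dig_num _ _ _ _ hi fun j _ => dgt_lt hℓ hP hl ht j
  have hg0 : ∀ t ≤ ℓ, dig (T + 1) 0 (g t) = t := fun t ht => by
    rw [hdig t ht 0 (by omega)]; rfl
  have hg1 : ∀ t ≤ ℓ, dig (T + 1) 1 (g t) = lab t := fun t ht => by
    rw [hdig t ht 1 (by omega)]; rfl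
  have hV : ∀ t ≤ ℓ, VB p.length T u (g t) = true := by
    intro t ht
    unfold VB
    rw [hg0 t ht, hg1 t ht]
    simp only [Bool.and_eq_true, decide_eq_true_eq, Bool.or_eq_true]
    refine ⟨⟨by omega, by have := hl t; omega⟩, ?_⟩
    rcases Nat.lt_or_ge t u.length with h1 | h1
    · exact .inr (hu t h1)
    · exact .inl h1
  have hlt : ∀ t ≤ ℓ, g t < (T + 1) ^ (κ + 2) := fun t ht =>
    num_lt _ _ _ fun j _ => dgt_lt hℓ hP hl ht j
  have hrel : ∀ j < 6 + p.length + κ, ∀ t ≤ ℓ, ∀ t' ≤ ℓ,
      (RC p lab j t t' ↔ bitOf (gad p.length κ T u) j (g t) (g t') = true) := by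
    intro j hj t ht t' ht'
    unfold gad
    rw [bitOf_codeOf _ hj (hlt t ht) (hlt t' ht')]
    unfold relB
    rw [hV t ht, hV t' ht', hg0 t ht, hg0 t' ht', hg1 t ht]
    simp only [Bool.and_self, Bool.true_and]
    unfold RC
    split_ifs with h0 h1 h2 h3
    · simp
    · simp
    · simp
    · simp
    · rw [hdig t ht _ (by omega)]
      unfold dgt
      rw [if_neg (by omega), if_neg (by omega), Nat.add_sub_cancel, decide_eq_true_eq]
      cases hs : psN p lab t (j - (6 + p.length)) with
      | nil => simp; omega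
      | cons z r => simp
  refine ⟨(List.range (ℓ + 1)).map g, by simp, ?_, ?_⟩
  · intro a ha
    obtain ⟨t, ht, rfl⟩ := List.mem_map.1 ha
    rw [numElems_gad]
    exact hlt t (by have := List.mem_range.1 ht; omega)
  · rw [mc_iff_isRun hψ]
    have hmem : ∀ t : Fin (ℓ + 1), g t ∈ (List.range (ℓ + 1)).map g := fun t =>
      List.mem_map.2 ⟨t, List.mem_range.2 t.2, rfl⟩
    let f : Fin (ℓ + 1) → {a // a ∈ (List.range (ℓ + 1)).map g} := fun t => ⟨g t, hmem t⟩
    have hf : Bijective f := by
      constructor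
      · intro t t' htt
        have h1 : g t = g t' := congrArg Subtype.val htt
        have h2 := hg0 t (by omega)
        rw [h1, hg0 t' (by omega)] at h2
        exact Fin.ext h2.symm
      · rintro ⟨a, ha⟩
        obtain ⟨t, ht, rfl⟩ := List.mem_map.1 ha
        exact ⟨⟨t, List.mem_range.1 ht⟩, rfl⟩
    refine (canon_isRun hκ hp h).of_equiv hκ hp (Equiv.ofBijective f hf) fun j hj a b => ?_
    exact hrel j hj a (by omega) b (by omega)

theorem gad_sound (hκ : 0 < κ) (hp : WF p κ)
    {ψ : (binLang (6 + p.length + κ)).Sentence}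
    (hψ : ∀ (A : Type) (R : ℕ → A → A → Prop),
      @Sentence.Realize (binLang _) A (mkStr fun j a b => R j a b) ψ ↔ IsRun p κ A R)
    {T : ℕ} {u : List Bool} {l : List ℕ} (hl : l ≠ [])
    (hl2 : ∀ a ∈ l, a < numElems (gad p.length κ T u))
    (h : mc ψ (gad p.length κ T u) l [] = true) : ∃ lab ℓ, Trace p lab ℓ ∧
      ∀ t < u.length, t ≤ ℓ → lab t = if u.getD t false then 1 else 0 := by
  rw [mc_iff_isRun hψ] at h
  obtain ⟨a, ha⟩ := List.exists_mem_of_ne_nil l hl
  have : Nonempty {a // a ∈ l} := ⟨⟨a, ha⟩⟩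
  have : Finite {a // a ∈ l} := l.finite_toSet
  obtain ⟨ℓ, lab, e, h1, h2, h3, h4⟩ := extract hκ hp h
  have hbit : ∀ j < 6 + p.length + κ, ∀ a b : {a // a ∈ l},
      bitOf (gad p.length κ T u) j a.1 b.1 = true → VB p.length T u a = true ∧
      relB p.length T u j a b = true := by
    intro j hj a b hab
    have ha := hl2 a a.2
    have hb := hl2 b b.2
    rw [numElems_gad] at ha hb
    unfold gad at hab
    rw [bitOf_codeOf _ hj ha hb] at hab
    refine ⟨?_, hab⟩
    unfold relB at hab
    simp only [Bool.and_eq_true] at hab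
    exact hab.1.1
  have e0 : dig (T + 1) 0 (e 0).1 = 0 := by
    have := (hbit 2 (by omega) _ _ h2).2
    unfold relB at this
    simp only [Bool.and_eq_true] at this
    simpa using this.2
  have e1 : ∀ a b : Fin (ℓ + 1), a.1 + 1 = b.1 →
      dig (T + 1) 0 (e a).1 + 1 = dig (T + 1) 0 (e b).1 := by
    intro a b hab
    have := (hbit 1 (by omega) _ _ (h3 a b hab)).2
    unfold relB at this
    simp only [Bool.and_eq_true] at this
    simpa using this.2
  have e2 : ∀ t (ht : t < ℓ + 1), dig (T + 1) 0 (e ⟨t, ht⟩).1 = t := by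
    intro t
    induction t with
    | zero => intro ht; exact e0
    | succ t ih =>
      intro ht
      rw [← e1 ⟨t, by omega⟩ ⟨t + 1, ht⟩ rfl, ih]
  have hlab : ∀ t ≤ ℓ, lab t < p.length + 3 := by
    intro t ht
    rcases Nat.lt_or_ge t ℓ with h5 | h5
    · have := h1.lt t h5; omega
    · obtain rfl : t = ℓ := by omega
      rw [h1.last]; omega
  refine ⟨lab, ℓ, h1, fun t ht htl => ?_⟩
  have h5 := hlab t htl
  have h6 := hbit (3 + lab t) (by omega) _ _ (h4 ⟨t, by omega⟩)
  have h7 := h6.2
  unfold relB at h7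
  rw [if_neg (by omega), if_neg (by omega), if_neg (by omega), if_pos (by omega),
    Nat.add_sub_cancel_left] at h7
  simp only [Bool.and_eq_true, decide_eq_true_eq] at h7
  have h8 := h6.1
  unfold VB at h8
  simp only [Bool.and_eq_true, decide_eq_true_eq, Bool.or_eq_true] at h8
  rw [e2 t (by omega), h7.2] at h8
  rcases h8.2 with h9 | h9
  · omega
  · exact h9

end

end HerCo
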