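import Pool.Agent.Lib.MP_a28c52_lc.Frame

/-! Families of strings computed by stack programs, in two modes: with a polynomial time bound, or
without any time bound. -/

namespace HerCo

open Function

/-- `poly`: polynomially bounded running time; `any`: no bound. -/
inductive Mode
  | poly
  | any

/-- Boundedness of a resource function in a mode (in terms of the length of the input `e d`). -/
def BD (m : Mode) {D : Type} (e : D → List Bool) (f : D → ℕ) : Prop :=
  match m with
  | .poly => ∃ k, ∀ d, f d ≤ ((e d).length + 2) ^ k
  | .any => True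

theorem pow_add_le {a : ℕ} (ha : 2 ≤ a) (d e : ℕ) : a ^ d + a ^ e ≤ a ^ (d + e + 1) := by
  have h1 : a ^ d ≤ a ^ (d + e) := Nat.pow_le_pow_right (by omega) (by omega)
  have h2 : a ^ e ≤ a ^ (d + e) := Nat.pow_le_pow_right (by omega) (by omega)
  calc a ^ d + a ^ e ≤ a ^ (d + e) * 2 := by omega
    _ ≤ a ^ (d + e) * a := Nat.mul_le_mul_left _ ha
    _ = a ^ (d + e + 1) := by rw [pow_succ]

theorem add_two_le_pow {a : ℕ} (ha : 2 ≤ a) (e : ℕ) : a ^ e + 2 ≤ a ^ (e + 2) := by
  have h1 : 1 ≤ a ^ e := Nat.one_le_pow _ _ (by omega)
  have h2 : a ^ (e + 2) = a ^ e * (a * a) := by ring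
  have h3 : 4 ≤ a * a := Nat.mul_le_mul ha ha
  rw [h2]
  calc a ^ e + 2 ≤ a ^ e * 4 := by omega
    _ ≤ a ^ e * (a * a) := Nat.mul_le_mul_left _ h3

variable {m : Mode} {D D' : Type} {e e' : D → List Bool}

theorem BD.const (c : ℕ) : BD m e (fun _ => c) := by
  cases m with
  | any => trivial
  | poly =>
    refine ⟨c, fun x => ?_⟩
    exact (Nat.lt_two_pow_self).le.trans (Nat.pow_le_pow_left (by omega) _)

theorem BD.len : BD m e (fun x => (e x).length) := by
  cases m with
  | any => trivial
  | poly => exact ⟨1, fun x => by simp⟩

theorem BD.mono {f g : D → ℕ} (hg : BD m e g) (h : ∀ x, f x ≤ g x) : BD m e f := by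
  cases m with
  | any => trivial
  | poly =>
    obtain ⟨d, hd⟩ := hg
    exact ⟨d, fun x => (h x).trans (hd x)⟩

theorem BD.add {f g : D → ℕ} (hf : BD m e f) (hg : BD m e g) :
    BD m e (fun x => f x + g x) := by
  cases m with
  | any => trivial
  | poly =>
    obtain ⟨d, hd⟩ := hf
    obtain ⟨e, he⟩ := hg
    exact ⟨d + e + 1, fun x => (Nat.add_le_add (hd x) (he x)).trans
      (pow_add_le (by omega) d e)⟩

theorem BD.mul {f g : D → ℕ} (hf : BD m e f) (hg : BD m e g) :
    BD m e (fun x => f x * g x) := by
  cases m with
  | any => trivial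
  | poly =>
    obtain ⟨d, hd⟩ := hf
    obtain ⟨e, he⟩ := hg
    exact ⟨d + e, fun x => (Nat.mul_le_mul (hd x) (he x)).trans (by rw [pow_add])⟩

theorem BD.comp {T : D → ℕ} (hT : BD m e' T)
    (hF : BD m e (fun x => (e' x).length)) : BD m e T := by
  cases m with
  | any => trivial
  | poly =>
    obtain ⟨d, hd⟩ := hT
    obtain ⟨k, he⟩ := hF
    refine ⟨(k + 2) * d, fun x => (hd _).trans ?_⟩
    rw [pow_mul]
    refine Nat.pow_le_pow_left ?_ _
    exact (Nat.add_le_add_right (he x) 2).trans (add_two_le_pow (by omega) k)

theorem BD.natPow {B : D → ℕ} (hB : BD m e B) (d : ℕ) :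
    BD m e (fun x => (B x + 2) ^ d) := by
  cases m with
  | any => trivial
  | poly =>
    obtain ⟨k, he⟩ := hB
    refine ⟨(k + 2) * d, fun x => ?_⟩
    rw [pow_mul]
    refine Nat.pow_le_pow_left ?_ _
    exact (Nat.add_le_add_right (he x) 2).trans (add_two_le_pow (by omega) k)

theorem BD.sum {N B : D → ℕ} {g : D → ℕ → ℕ} (hN : BD m e N) (hB : BD m e B)
    (hg : m = .poly → ∀ x i, i < N x → g x i ≤ B x) :
    BD m e (fun x => ∑ i ∈ Finset.range (N x), g x i) := by
  cases m with
  | any => trivial
  | poly =>
    refine (hN.mul hB).mono fun x => ?_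
    calc ∑ i ∈ Finset.range (N x), g x i ≤ ∑ _i ∈ Finset.range (N x), B x :=
          Finset.sum_le_sum fun i hi => hg rfl x i (Finset.mem_range.1 hi)
      _ = N x * B x := by simp

theorem BD.reindex {f : D → ℕ} (h : BD m e f) (φ : D' → D) :
    BD m (fun d => e (φ d)) (fun d => f (φ d)) := by
  cases m with
  | any => trivial
  | poly =>
    obtain ⟨k, hk⟩ := h
    exact ⟨k, fun d => hk (φ d)⟩

/-- The family of strings `e' d` can be computed from the family `e d` by a stack program in
mode `m`: the program at position `base` replaces the content `e d` of register `base` by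
`e' d`; the registers above `base` are empty before and after, the registers below are not
touched. -/
def Cp (m : Mode) {D : Type} (e e' : D → List Bool) : Prop :=
  ∃ (code : ℕ → Cmd) (T : D → ℕ), BD m e T ∧
    ∀ (base : ℕ) (s : Store) (d : D), (∀ j, base < j → s j = []) → s base = e d →
      Does (code base) s (update s base (e' d)) (T d)

theorem Cp.toAny (h : Cp m e e') : Cp .any e e' := by
  obtain ⟨code, T, _, hc⟩ := h
  exact ⟨code, T, trivial, hc⟩

theorem Cp.reindex (h : Cp m e e') (φ : D' → D) :
    Cp m (fun d => e (φ d)) (fun d => e' (φ d)) := by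
  obtain ⟨code, T, hT, hc⟩ := h
  exact ⟨code, fun d => T (φ d), hT.reindex φ, fun base s d hs hd => hc base s (φ d) hs hd⟩

/-- To establish `Cp` it suffices to consider frames. -/
theorem Cp.of_fr (code : ℕ → Cmd) (T : D → ℕ) (hT : BD m e T)
    (h : ∀ (base : ℕ) (s : Store) (d : D),
      Does (code base) (fr s base [e d]) (fr s base [e' d]) (T d)) : Cp m e e' := by
  refine ⟨code, T, hT, fun base s d hs hd => ?_⟩
  have := h base s d
  rwa [← hd, fr_self s base hs, fr_single s base hs] at this

/-- Running code on the last register of a frame. -/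
theorem cp_run {code : ℕ → Cmd} {T : D → ℕ}
    (h : ∀ (base : ℕ) (s : Store) (d : D), (∀ j, base < j → s j = []) → s base = e d →
      Does (code base) s (update s base (e' d)) (T d))
    (s : Store) (base : ℕ) (l : List (List Bool)) (d : D) :
    Does (code (base + l.length)) (fr s base (l ++ [e d])) (fr s base (l ++ [e' d])) (T d) := by
  have h2 : (fr s base (l ++ [e d])) (base + l.length) = e d := by
    rw [fr_get]; simp
  have h1 := h (base + l.length) (fr s base (l ++ [e d])) d
    (fun j hj => fr_above s base l _ j hj) h2
  refine h1.congr ?_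
  rw [fr_update _ _ _ _ _ (by simp)]
  simp

theorem Cp.size (h : Cp m e e') : BD m e (fun x => (e' x).length) := by
  obtain ⟨code, T, hT, hc⟩ := h
  refine (BD.len.add hT).mono fun x => ?_
  obtain ⟨t, ht, hr⟩ := hc 0 (update (fun _ => []) 0 (e x)) x (fun j hj => by
    rw [update_of_ne hj.ne']) (by simp)
  have := hr.length_le 0
  simp only [update_self] at this ht
  omega

theorem Cp.id : Cp m e e := by
  refine Cp.of_fr (fun _ => .skip) (fun _ => 1) (BD.const 1) fun base s x => ?_
  exact Does.skip _

theorem Cp.comp {e'' : D → List Bool} (hG : Cp m e' e'') (hF : Cp m e e') :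
    Cp m e e'' := by
  have hFs := hF.size
  obtain ⟨cF, TF, hTF, hcF⟩ := hF
  obtain ⟨cG, TG, hTG, hcG⟩ := hG
  refine Cp.of_fr (fun base => .seq (cF base) (cG base)) (fun x => TF x + TG x + 1)
    ((hTF.add (hTG.comp hFs)).add (BD.const 1)) fun base s x => ?_
  exact (cp_run hcF s base [] x).seq (cp_run hcG s base [] x)

theorem Cp.cons (b : Bool) : Cp m e (fun x => b :: e x) := by
  refine Cp.of_fr (fun base => .push base b) (fun _ => 1) (BD.const 1) fun base s x => ?_
  exact does_push (i := 0) [e x] b (by simp)

theorem Cp.tail : Cp m e (fun x => (e x).tail) := by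
  refine Cp.of_fr (fun base => .pop base) (fun _ => 1) (BD.const 1) fun base s x => ?_
  exact does_pop (i := 0) [e x] (by simp)

theorem Cp.const (c : List Bool) : Cp m e (fun _ => c) := by
  induction c with
  | nil =>
    refine Cp.of_fr (fun base => clear base) (fun x => 2 * (e x).length + 1)
      (((BD.const 2).mul BD.len).add (BD.const 1)) fun base s x => ?_
    exact does_clear (i := 0) [e x] (by simp)
  | cons b c ih => exact (Cp.cons b).comp ih

/-- Self-delimiting code of a string. -/
def dl : List Bool → List Bool
  | [] => [false]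
  | b :: l => true :: b :: dl l

/-- First component of a coded pair. -/
def fstS : List Bool → List Bool
  | true :: b :: l => b :: fstS l
  | _ => []

/-- Second component of a coded pair. -/
def sndS : List Bool → List Bool
  | true :: _ :: l => sndS l
  | false :: l => l
  | _ => []

@[simp] theorem fstS_dl (x y : List Bool) : fstS (dl x ++ y) = x := by
  induction x with
  | nil => simp [dl, fstS]
  | cons b x ih => simp [dl, fstS, ih]

@[simp] theorem sndS_dl (x y : List Bool) : sndS (dl x ++ y) = y := by
  induction x with
  | nil => simp [dl, sndS]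
  | cons b x ih => simp [dl, sndS, ih]

@[simp] theorem length_dl (x : List Bool) : (dl x).length = 2 * x.length + 1 := by
  induction x with
  | nil => rfl
  | cons b x ih => simp only [dl, List.length_cons, ih]; ring

theorem dl_inj {x x' y y' : List Bool} (h : dl x ++ y = dl x' ++ y') : x = x' ∧ y = y' := by
  have h1 := congrArg fstS h
  have h2 := congrArg sndS h
  simp only [fstS_dl, sndS_dl] at h1 h2
  exact ⟨h1, h2⟩

/-- `push base b` for every bit `b` popped from `a`, followed by `push base true`. -/
def dlLoop (a b : ℕ) : Cmd :=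
  .loop a (.ifte a .skip (.seq (.pop a) (.seq (.push b false) (.push b true)))
    (.seq (.pop a) (.seq (.push b true) (.push b true))))

theorem does_dlLoop_aux (a b : ℕ) (hab : a ≠ b) (l : List Bool) : ∀ (s : Store), s a = l →
    Does (dlLoop a b) s (update (update s a []) b
      ((l.foldl (fun acc x => true :: x :: acc) (s b)))) (7 * l.length + 1) := by
  induction l with
  | nil =>
    intro s hs
    refine (Does.loopE hs).congr ?_ |>.mono (by simp)
    have : update s a [] = s := by rw [← hs, update_eq_self]
    rw [this]
    simp
  | cons x l ih =>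
    intro s hs
    have hbody : Does (.ifte a .skip (.seq (.pop a) (.seq (.push b false) (.push b true)))
        (.seq (.pop a) (.seq (.push b true) (.push b true)))) s
        (update (update s a l) b (true :: x :: s b)) 6 := by
      have h1 : Does (.seq (.pop a) (.seq (.push b x) (.push b true))) s
          (update (update s a l) b (true :: x :: s b)) 5 := by
        refine ((Does.pop a s).seq ((Does.push b x _).seq (Does.push b true _))).congr ?_
        rw [hs, update_of_ne hab.symm]
        simp
      cases x with
      | false => exact Does.ifF hs h1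
      | true => exact Does.ifT hs h1
    have h2 := ih (update (update s a l) b (true :: x :: s b)) (by
      rw [update_of_ne hab, update_self])
    refine (Does.loopS hs hbody h2).congr ?_ |>.mono (by simp; omega)
    funext j
    by_cases hjb : j = b
    · subst hjb; simp
    · by_cases hja : j = a
      · subst hja; simp [update_of_ne hjb]
      · simp [update_of_ne hjb, update_of_ne hja]

theorem foldl_dl (x : List Bool) : ∀ acc : List Bool,
    (x.reverse.foldl (fun acc x => true :: x :: acc) (false :: acc)) = dl x ++ acc := by
  induction x with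
  | nil => intro acc; rfl
  | cons b x ih =>
    intro acc
    rw [List.reverse_cons, List.foldl_append, ih]
    rfl

theorem does_dlLoop {s : Store} {base i j : ℕ} (l : List (List Bool)) (hi : i < l.length)
    (hj : j < l.length) (hij : i ≠ j) :
    Does (dlLoop (base + i) (base + j)) (fr s base l)
      (fr s base ((l.set i []).set j
        ((l.getD i []).foldl (fun acc x => true :: x :: acc) (l.getD j []))))
      (7 * (l.getD i []).length + 1) := by
  have := does_dlLoop_aux (base + i) (base + j) (by omega) _ (fr s base l) rfl
  simp only [fr_get] at this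
  refine this.congr ?_
  rw [fr_update _ _ _ _ _ hi, fr_update _ _ _ _ _ (by simpa using hj)]

theorem fr_nil1 (s : Store) (base : ℕ) (a : List Bool) : fr s base [a, []] = fr s base [a] :=
  fr_snoc_nil s base [a]

theorem fr_nil2 (s : Store) (base : ℕ) (a b : List Bool) :
    fr s base [a, b, []] = fr s base [a, b] := fr_snoc_nil s base [a, b]

theorem fr_nil3 (s : Store) (base : ℕ) (a b c : List Bool) :
    fr s base [a, b, c, []] = fr s base [a, b, c] := fr_snoc_nil s base [a, b, c]

/-- Copy register 0 of a frame to register 1. -/
def dup (base : ℕ) : Cmd := .seq (moveRev (base + 0) (base + 2))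
  (copyRev (base + 2) (base + 0) (base + 1))

theorem does_dup (s : Store) (base : ℕ) (x : List Bool) :
    Does (dup base) (fr s base [x]) (fr s base [x, x]) (12 * x.length + 3) := by
  have e : fr s base [x] = fr s base [x, [], []] := by rw [fr_nil2, fr_nil1]
  rw [e]
  have h1 := does_moveRev (s := s) (base := base) (i := 0) (j := 2) [x, [], []] (by simp)
    (by simp) (by simp)
  have h2 := does_copyRev (s := s) (base := base) (i := 2) (j := 0) (k := 1)
    [[], [], x.reverse] (by simp) (by simp) (by simp) (by simp) (by simp) (by simp)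
  simp only [List.getD_cons_zero, List.set, List.getD_cons_succ, List.append_nil,
    List.length_reverse, List.reverse_reverse] at h1 h2
  refine ((h1.seq h2).congr ?_).mono (by omega)
  rw [fr_nil2]

/-- Move register 0 of a frame to register 2 (preserving order), register 1 stays. -/
def mv02 (base : ℕ) : Cmd := .seq (moveRev (base + 0) (base + 3)) (moveRev (base + 3) (base + 2))

theorem does_mv02 (s : Store) (base : ℕ) (x y : List Bool) :
    Does (mv02 base) (fr s base [x, y]) (fr s base [[], y, x]) (10 * x.length + 3) := by
  have e : fr s base [x, y] = fr s base [x, y, [], []] := by rw [fr_nil3, fr_nil2]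
  rw [e]
  have h1 := does_moveRev (s := s) (base := base) (i := 0) (j := 3) [x, y, [], []] (by simp)
    (by simp) (by simp)
  have h2 := does_moveRev (s := s) (base := base) (i := 3) (j := 2)
    [[], y, [], x.reverse] (by simp) (by simp) (by simp)
  simp only [List.getD_cons_zero, List.set, List.getD_cons_succ, List.append_nil,
    List.length_reverse, List.reverse_reverse] at h1 h2
  refine ((h1.seq h2).congr ?_).mono (by omega)
  rw [fr_nil3]

/-- Combine `[[], y, x]` to the coded pair of `x` and `y`. -/
def mkPair (base : ℕ) : Cmd :=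
  .seq (moveRev (base + 1) (base + 3)) (.seq (moveRev (base + 3) (base + 0))
    (.seq (.push (base + 0) false) (.seq (moveRev (base + 2) (base + 3))
      (dlLoop (base + 3) (base + 0)))))

theorem does_mkPair (s : Store) (base : ℕ) (x y : List Bool) :
    Does (mkPair base) (fr s base [[], y, x]) (fr s base [dl x ++ y])
      (12 * x.length + 10 * y.length + 9) := by
  have e : fr s base [[], y, x] = fr s base [[], y, x, []] := by rw [fr_nil3]
  rw [e]
  have h1 := does_moveRev (s := s) (base := base) (i := 1) (j := 3) [[], y, x, []] (by simp)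
    (by simp) (by simp)
  have h2 := does_moveRev (s := s) (base := base) (i := 3) (j := 0)
    [[], [], x, y.reverse] (by simp) (by simp) (by simp)
  have h3 := does_push (s := s) (base := base) (i := 0) [y, [], x, []] false (by simp)
  have h4 := does_moveRev (s := s) (base := base) (i := 2) (j := 3)
    [false :: y, [], x, []] (by simp) (by simp) (by simp)
  have h5 := does_dlLoop (s := s) (base := base) (i := 3) (j := 0)
    [false :: y, [], [], x.reverse] (by simp) (by simp) (by simp)
  simp only [List.getD_cons_zero, List.set, List.getD_cons_succ, List.append_nil,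
    List.length_reverse, List.reverse_reverse, foldl_dl] at h1 h2 h3 h4 h5
  refine ((h1.seq (h2.seq (h3.seq (h4.seq h5)))).congr ?_).mono (by omega)
  rw [fr_nil3, fr_nil2, fr_nil1]

theorem Cp.pair {e₁ e₂ : D → List Bool} (hF : Cp m e e₁) (hG : Cp m e e₂) :
    Cp m e (fun x => dl (e₁ x) ++ e₂ x) := by
  have hFs := hF.size
  have hGs := hG.size
  obtain ⟨cF, TF, hTF, hcF⟩ := hF
  obtain ⟨cG, TG, hTG, hcG⟩ := hG
  refine Cp.of_fr (fun base => .seq (dup base) (.seq (cG (base + 1)) (.seq (mv02 base)
    (.seq (cF (base + 2)) (mkPair base)))))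
    (fun x => 22 * (e x).length + TF x + TG x + 12 * (e₁ x).length + 10 * (e₂ x).length + 19)
    (((((((BD.const 22).mul BD.len).add hTF).add hTG).add ((BD.const 12).mul hFs)).add
      ((BD.const 10).mul hGs)).add (BD.const 19)) fun base s x => ?_
  have h1 := does_dup s base (e x)
  have h2 := cp_run hcG s base [e x] x
  have h3 := does_mv02 s base (e x) (e₂ x)
  have h4 := cp_run hcF s base [[], e₂ x] x
  have h5 := does_mkPair s base (e₁ x) (e₂ x)
  exact (h1.seq (h2.seq (h3.seq (h4.seq h5)))).mono (by omega)

/-- Body of the parsing loop. -/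
def parseBody (base : ℕ) : Cmd :=
  .ifte (base + 0) (.pop (base + 1)) (.seq (.pop (base + 0)) (.pop (base + 1)))
    (.seq (.pop (base + 0)) (.ifte (base + 0) (.pop (base + 1))
      (.seq (.pop (base + 0)) (.push (base + 2) false))
      (.seq (.pop (base + 0)) (.push (base + 2) true))))

theorem does_parse (s : Store) (base : ℕ) : ∀ (x acc : List Bool),
    Does (.loop (base + 1) (parseBody base)) (fr s base [x, [true], acc])
      (fr s base [sndS x, [], (fstS x).reverse ++ acc]) (8 * x.length + 8)
  | [], acc => by
    have h0 : fr s base [([] : List Bool), [true], acc] (base + 0) = [] := by rw [fr_get]; rfl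
    have hk : fr s base [([] : List Bool), [true], acc] (base + 1) = true :: [] := by
      rw [fr_get]; rfl
    have h1 := does_pop (s := s) (base := base) (i := 1) [[], [true], acc] (by simp)
    have h2 : Does (parseBody base) (fr s base [[], [true], acc]) (fr s base [[], [], acc]) 2 :=
      Does.ifE h0 h1
    have h3 : Does (.loop (base + 1) (parseBody base)) (fr s base [[], [], acc])
      (fr s base [[], [], acc]) 1 := Does.loopE (by rw [fr_get]; rfl)
    exact (Does.loopS hk h2 h3).mono (by simp)
  | false :: l, acc => by
    have h0 : fr s base [(false :: l : List Bool), [true], acc] (base + 0) = false :: l := by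
      rw [fr_get]; rfl
    have hk : fr s base [(false :: l : List Bool), [true], acc] (base + 1) = true :: [] := by
      rw [fr_get]; rfl
    have h1 := does_pop (s := s) (base := base) (i := 0) [false :: l, [true], acc] (by simp)
    have h1' := does_pop (s := s) (base := base) (i := 1) [l, [true], acc] (by simp)
    have h2 : Does (parseBody base) (fr s base [false :: l, [true], acc])
      (fr s base [l, [], acc]) 4 := Does.ifF h0 (h1.seq h1')
    have h3 : Does (.loop (base + 1) (parseBody base)) (fr s base [l, [], acc])
      (fr s base [l, [], acc]) 1 := Does.loopE (by rw [fr_get]; rfl)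
    exact (Does.loopS hk h2 h3).mono (by simp)
  | [true], acc => by
    have h0 : fr s base [([true] : List Bool), [true], acc] (base + 0) = true :: [] := by
      rw [fr_get]; rfl
    have hk : fr s base [([true] : List Bool), [true], acc] (base + 1) = true :: [] := by
      rw [fr_get]; rfl
    have h1 := does_pop (s := s) (base := base) (i := 0) [[true], [true], acc] (by simp)
    have h0' : fr s base [([] : List Bool), [true], acc] (base + 0) = [] := by rw [fr_get]; rfl
    have h1' := does_pop (s := s) (base := base) (i := 1) [[], [true], acc] (by simp)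
    have h2 : Does (parseBody base) (fr s base [[true], [true], acc])
      (fr s base [[], [], acc]) 5 := Does.ifT h0 (h1.seq (Does.ifE h0' h1'))
    have h3 : Does (.loop (base + 1) (parseBody base)) (fr s base [[], [], acc])
      (fr s base [[], [], acc]) 1 := Does.loopE (by rw [fr_get]; rfl)
    exact (Does.loopS hk h2 h3).mono (by simp)
  | true :: b :: l, acc => by
    have h0 : fr s base [(true :: b :: l : List Bool), [true], acc] (base + 0)
        = true :: b :: l := by
      rw [fr_get]; rfl
    have hk : fr s base [(true :: b :: l : List Bool), [true], acc] (base + 1) = true :: [] := by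
      rw [fr_get]; rfl
    have h1 := does_pop (s := s) (base := base) (i := 0) [true :: b :: l, [true], acc] (by simp)
    have h1' := does_pop (s := s) (base := base) (i := 0) [b :: l, [true], acc] (by simp)
    have h1'' := does_push (s := s) (base := base) (i := 2) [l, [true], acc] b (by simp)
    have h2 : Does (parseBody base) (fr s base [true :: b :: l, [true], acc])
      (fr s base [l, [true], b :: acc]) 7 := by
      have hb : fr s base [(b :: l : List Bool), [true], acc] (base + 0) = b :: l := by
        rw [fr_get]; rfl
      cases b with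
      | false => exact (Does.ifT h0 (h1.seq (Does.ifF hb (h1'.seq h1'')))).mono (by omega)
      | true => exact (Does.ifT h0 (h1.seq (Does.ifT hb (h1'.seq h1'')))).mono (by omega)
    have h3 := does_parse s base l (b :: acc)
    refine ((Does.loopS hk h2 h3).congr ?_).mono (by simp; omega)
    simp [fstS, sndS]

theorem length_sndS_le (x : List Bool) : (sndS x).length ≤ x.length := by
  induction x using sndS.induct with
  | case1 b l ih => simp [sndS]; omega
  | case2 l => simp [sndS]
  | case3 x h1 h2 => simp [sndS]

theorem length_fstS_le (x : List Bool) : (fstS x).length ≤ x.length := by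
  induction x using fstS.induct with
  | case1 b l ih => simp [fstS]; omega
  | case2 x h => simp [fstS]

theorem Cp.fstS : Cp m e (fun x => fstS (e x)) := by
  refine Cp.of_fr (fun base => .seq (.push (base + 1) true)
    (.seq (.loop (base + 1) (parseBody base)) (.seq (clear (base + 0))
      (moveRev (base + 2) (base + 0)))))
    (fun x => 8 * (e x).length + (2 * (HerCo.sndS (e x)).length)
      + (5 * (HerCo.fstS (e x)).length) + 20) ?_
    fun base s x => ?_
  · exact (((BD.const 15).mul BD.len).add (BD.const 20)).mono fun x => by
      have := length_sndS_le (e x); have := length_fstS_le (e x); omega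
  have e' : fr s base [e x] = fr s base [e x, [], []] := by rw [fr_nil2, fr_nil1]
  rw [e']
  have h1 := does_push (s := s) (base := base) (i := 1) [e x, [], []] true (by simp)
  have h2 := does_parse s base (e x) []
  have h3 := does_clear (s := s) (base := base) (i := 0)
    [HerCo.sndS (e x), [], (HerCo.fstS (e x)).reverse ++ []] (by simp)
  have h4 := does_moveRev (s := s) (base := base) (i := 2) (j := 0)
    [[], [], (HerCo.fstS (e x)).reverse] (by simp) (by simp) (by simp)
  simp only [List.getD_cons_zero, List.set, List.getD_cons_succ, List.append_nil,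
    List.length_reverse, List.reverse_reverse] at h1 h2 h3 h4
  refine ((h1.seq (h2.seq (h3.seq h4))).congr ?_).mono (by omega)
  rw [fr_nil2, fr_nil1]

theorem Cp.sndS : Cp m e (fun x => sndS (e x)) := by
  refine Cp.of_fr (fun base => .seq (.push (base + 1) true)
    (.seq (.loop (base + 1) (parseBody base)) (clear (base + 2))))
    (fun x => 8 * (e x).length + (2 * (HerCo.fstS (e x)).length) + 20) ?_
    fun base s x => ?_
  · exact (((BD.const 10).mul BD.len).add (BD.const 20)).mono fun x => by
      have := length_fstS_le (e x); omega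
  have e' : fr s base [e x] = fr s base [e x, [], []] := by rw [fr_nil2, fr_nil1]
  rw [e']
  have h1 := does_push (s := s) (base := base) (i := 1) [e x, [], []] true (by simp)
  have h2 := does_parse s base (e x) []
  have h3 := does_clear (s := s) (base := base) (i := 2)
    [HerCo.sndS (e x), [], (HerCo.fstS (e x)).reverse ++ []] (by simp)
  simp only [List.getD_cons_zero, List.set, List.getD_cons_succ, List.append_nil,
    List.length_reverse] at h1 h2 h3
  refine ((h1.seq (h2.seq h3)).congr ?_).mono (by omega)
  rw [fr_nil2, fr_nil1]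

/-- Extension of a function on a subtype by zero. -/
noncomputable def extT (P : D → Prop) (T : {d // P d} → ℕ) (d : D) : ℕ :=
  open Classical in if h : P d then T ⟨d, h⟩ else 0

theorem extT_pos {P : D → Prop} {T : {d // P d} → ℕ} {d : D} (h : P d) :
    extT P T d = T ⟨d, h⟩ := by
  unfold extT; rw [dif_pos h]

theorem BD.extT {P : D → Prop} {T : {d // P d} → ℕ} (hT : BD m (fun d : {d // P d} => e d.1) T) :
    BD m e (extT P T) := by
  cases m with
  | any => trivial
  | poly =>
    obtain ⟨k, hk⟩ := hT
    refine ⟨k, fun d => ?_⟩
    by_cases h : P d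
    · rw [extT_pos h]; exact hk ⟨d, h⟩
    · unfold HerCo.extT; rw [dif_neg h]; exact Nat.zero_le _

/-- Three-way branching on a test string `q`. -/
theorem Cp.branch {q r : D → List Bool} (hQ : Cp m e q)
    (hA : Cp m (fun d : {d // q d = []} => e d.1) (fun d => r d.1))
    (hB : Cp m (fun d : {d // ∃ l, q d = false :: l} => e d.1) (fun d => r d.1))
    (hC : Cp m (fun d : {d // ∃ l, q d = true :: l} => e d.1) (fun d => r d.1)) :
    Cp m e r := by
  have hQs := hQ.size
  obtain ⟨cQ, TQ, hTQ, hcQ⟩ := hQ
  obtain ⟨cA, TA, hTA, hcA⟩ := hA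
  obtain ⟨cB, TB, hTB, hcB⟩ := hB
  obtain ⟨cC, TC, hTC, hcC⟩ := hC
  refine Cp.of_fr (fun base => .seq (dup base) (.seq (cQ (base + 1))
    (.ifte (base + 1) (cA base) (.seq (clear (base + 1)) (cB base))
      (.seq (clear (base + 1)) (cC base)))))
    (fun x => 12 * (e x).length + TQ x
      + extT _ TA x + extT _ TB x + extT _ TC x + 2 * (q x).length + 10)
    (((((((BD.const 12).mul BD.len).add hTQ).add hTA.extT).add hTB.extT).add
      hTC.extT).add
      ((BD.const 2).mul hQs) |>.add (BD.const 10)) fun base s x => ?_
  have h1 := does_dup s base (e x)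
  have h2 := cp_run hcQ s base [e x] x
  have h3 := does_clear (s := s) (base := base) (i := 1) [e x, q x] (by simp)
  simp only [List.getD_cons_zero, List.set, List.getD_cons_succ, fr_nil1] at h3
  have hk : fr s base ([e x] ++ [q x]) (base + 1) = q x := by rw [fr_get]; rfl
  obtain hq | ⟨l, hq⟩ | ⟨l, hq⟩ :
      q x = [] ∨ (∃ l, q x = false :: l) ∨ (∃ l, q x = true :: l) := by
    rcases q x with _ | ⟨_ | _, l⟩ <;> simp
  · have hA1 := cp_run hcA s base [] ⟨x, hq⟩
    simp only [List.length_nil, Nat.add_zero, List.nil_append] at hA1
    have h4 : Does (cA base) (fr s base ([e x] ++ [q x])) (fr s base [r x]) (TA ⟨x, hq⟩) := by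
      rw [hq, fr_snoc_nil]; exact hA1
    rw [extT_pos (P := fun d => q d = []) (T := TA) hq]
    refine ((h1.seq (h2.seq (Does.ifE (hk.trans hq) h4)))).mono (by omega)
  · have hB1 := cp_run hcB s base [] ⟨x, ⟨l, hq⟩⟩
    simp only [List.length_nil, Nat.add_zero, List.nil_append] at hB1
    rw [extT_pos (T := TB) ⟨l, hq⟩]
    refine ((h1.seq (h2.seq (Does.ifF (hk.trans hq) (h3.seq hB1))))).mono (by omega)
  · have hC1 := cp_run hcC s base [] ⟨x, ⟨l, hq⟩⟩
    simp only [List.length_nil, Nat.add_zero, List.nil_append] at hC1
    rw [extT_pos (T := TC) ⟨l, hq⟩]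
    refine ((h1.seq (h2.seq (Does.ifT (hk.trans hq) (h3.seq hC1))))).mono (by omega)

/-- Extension by zero of the time function of a loop body. -/
noncomputable def extL {c : D → List Bool} (T : {p : D × ℕ // p.2 < (c p.1).length} → ℕ)
    (d : D) (j : ℕ) : ℕ :=
  if h : j < (c d).length then T ⟨(d, j), h⟩ else 0

theorem does_iterLoop {v : D → ℕ → List Bool} {c : D → List Bool} {code : ℕ → Cmd}
    {T : {p : D × ℕ // p.2 < (c p.1).length} → ℕ}
    (h : ∀ (base : ℕ) (s : Store) (p : {p : D × ℕ // p.2 < (c p.1).length}),
      (∀ j, base < j → s j = []) → s base = v p.1.1 p.1.2 →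
      Does (code base) s (update s base (v p.1.1 (p.1.2 + 1))) (T p))
    (s : Store) (base : ℕ) (d : D) (r : List Bool) : ∀ (i : ℕ)
      (_ : i + r.length = (c d).length),
    Does (.loop (base + 1) (.seq (.pop (base + 1)) (code (base + 2))))
      (fr s base [[], r, v d i]) (fr s base [[], [], v d (c d).length])
      (∑ j ∈ Finset.range r.length, (extL T d (i + j) + 3) + 1) := by
  induction r with
  | nil =>
    intro i hi
    have hi' : i = (c d).length := by simpa using hi
    rw [hi']
    exact (Does.loopE (by rw [fr_get]; rfl)).mono (by simp)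
  | cons b r ih =>
    intro i hi
    have hi' : i < (c d).length := by rw [← hi]; simp
    have hk : fr s base [[], b :: r, v d i] (base + 1) = b :: r := by rw [fr_get]; rfl
    have h1 := does_pop (s := s) (base := base) (i := 1) [[], b :: r, v d i] (by simp)
    have h2 := cp_run h s base [[], r] ⟨(d, i), hi'⟩
    have h3 := ih (i + 1) (by rw [← hi]; simp; omega)
    refine ((Does.loopS hk (h1.seq h2) h3)).mono ?_
    have e1 : T ⟨(d, i), hi'⟩ = extL T d i := by unfold extL; rw [dif_pos hi']
    have e2 : ∑ j ∈ Finset.range r.length, (extL T d (i + (j + 1)) + 3)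
        = ∑ j ∈ Finset.range r.length, (extL T d (i + 1 + j) + 3) :=
      Finset.sum_congr rfl fun j _ => by rw [show i + (j + 1) = i + 1 + j by omega]
    simp only [List.length_cons]
    rw [Finset.sum_range_succ', e1, e2]
    have e3 : extL T d (i + 0) = extL T d i := rfl
    omega

/-- Iteration: `v d i` is the string after `i` rounds, the number of rounds is `|c d|`. -/
theorem Cp.iter {v : D → ℕ → List Bool} {c : D → List Bool}
    (hF : Cp m (fun p : {p : D × ℕ // p.2 < (c p.1).length} => v p.1.1 p.1.2)
      (fun p => v p.1.1 (p.1.2 + 1)))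
    (hC : Cp m (fun d => v d 0) c)
    (hb : m = .poly → ∃ B, BD .poly (fun d => v d 0) B ∧
      ∀ d i, i ≤ (c d).length → (v d i).length ≤ B d) :
    Cp m (fun d => v d 0) (fun d => v d (c d).length) := by
  have hCs := hC.size
  obtain ⟨cF, TF, hTF, hcF⟩ := hF
  obtain ⟨cC, TC, hTC, hcC⟩ := hC
  have key : BD m (fun d => v d 0) (fun d => ∑ j ∈ Finset.range (c d).length,
        (extL TF d (0 + j) + 3)) ∧
      BD m (fun d => v d 0) (fun d => (v d (c d).length).length) := by
    cases m with
    | any => exact ⟨trivial, trivial⟩
    | poly =>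
      obtain ⟨B, hB, hBx⟩ := hb rfl
      obtain ⟨k, hk⟩ := hTF
      refine ⟨BD.sum hCs ((hB.natPow k).add (BD.const 3)) fun _ x i hi => ?_,
        hB.mono fun x => hBx x _ le_rfl⟩
      have h0 : 0 + i < (c x).length := by simpa using hi
      have h1 := hk ⟨(x, 0 + i), h0⟩
      have h2 : ((v x (0 + i)).length + 2) ^ k ≤ (B x + 2) ^ k :=
        Nat.pow_le_pow_left (Nat.add_le_add_right (hBx x (0 + i) h0.le) 2) _
      unfold extL
      rw [dif_pos h0]
      exact Nat.add_le_add_right (h1.trans h2) 3
  refine Cp.of_fr (fun base => .seq (dup base) (.seq (cC (base + 1)) (.seq (mv02 base)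
    (.seq (.loop (base + 1) (.seq (.pop (base + 1)) (cF (base + 2))))
      (.seq (moveRev (base + 2) (base + 1)) (moveRev (base + 1) (base + 0)))))))
    (fun d => 22 * (v d 0).length + TC d + (∑ j ∈ Finset.range (c d).length,
        (extL TF d (0 + j) + 3))
      + 10 * (v d (c d).length).length + 20)
    ((((((BD.const 22).mul BD.len).add hTC).add key.1).add
      ((BD.const 10).mul key.2)).add (BD.const 20)) fun base s x => ?_
  have h1 := does_dup s base (v x 0)
  have h2 := cp_run hcC s base [v x 0] x
  have h3 := does_mv02 s base (v x 0) (c x)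
  have h4 := does_iterLoop hcF s base x (c x) 0 (by simp)
  have h5 := does_moveRev (s := s) (base := base) (i := 2) (j := 1)
    [[], [], v x (c x).length] (by simp) (by simp) (by simp)
  have h6 := does_moveRev (s := s) (base := base) (i := 1) (j := 0)
    [[], (v x (c x).length).reverse, []] (by simp) (by simp) (by simp)
  simp only [List.getD_cons_zero, List.set, List.getD_cons_succ, List.append_nil,
    List.length_reverse, List.reverse_reverse, fr_nil2, fr_nil1] at h5 h6
  exact ((h1.seq (h2.seq (h3.seq (h4.seq (h5.seq h6)))))).mono (by omega)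

end HerCo
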