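import Pool.Agent.Lib.MP_a28c52_lc.Model

/-! Finite models of the sentence are exactly the accepting runs. -/

namespace HerCo

open Function FirstOrder FirstOrder.Language

variable {p : List Instr} {κ : ℕ}

theorem IsRun.of_equiv (hκ : 0 < κ) (hp : WF p κ) {A B : Type} {R : ℕ → A → A → Prop}
    {R' : ℕ → B → B → Prop} (e : A ≃ B)
    (h : ∀ i < 6 + p.length + κ, ∀ a b, R i a b ↔ R' i (e a) (e b)) (hR : IsRun p κ A R) :
    IsRun p κ B R' := by
  obtain ⟨ψ, hψ⟩ := exists_sentence (m := 6 + p.length + κ) rfl hκ hp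
  rw [← hψ] at hR ⊢
  let _ : (binLang (6 + p.length + κ)).Structure A := mkStr fun j a b => R j a b
  let _ : (binLang (6 + p.length + κ)).Structure B := mkStr fun j a b => R' j a b
  let E : A ≃[binLang (6 + p.length + κ)] B := {
    e with
    map_fun' := fun f => nomatch f
    map_rel' := by
      intro n r x
      cases r with
      | rel j => exact (h j j.2 _ _).symm }
  exact (StrongHomClass.realize_sentence E ψ).1 hR

/-- The relations agree with the trace given by the labels. -/
structure Agree (p : List Instr) (κ ℓ : ℕ) (lab : ℕ → ℕ)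
    (R : ℕ → Fin (ℓ + 1) → Fin (ℓ + 1) → Prop) : Prop where
  hlab : ∀ t : Fin (ℓ + 1), ∀ c < p.length + 3, (R (3 + c) t t ↔ c = lab t)
  hptr : ∀ k < κ, ∀ t d : Fin (ℓ + 1),
    (R (PTR p k) t d ↔ (psN p lab t k).head? = some d.1)

theorem Agree.symP {ℓ : ℕ} {lab : ℕ → ℕ} {R : ℕ → Fin (ℓ + 1) → Fin (ℓ + 1) → Prop}
    (h : Agree p κ ℓ lab R) (hl : ∀ t : Fin (ℓ + 1), lab t < p.length + 3) (s : Bool)
    (d : Fin (ℓ + 1)) : SymP p _ R s d ↔ (pushOf p (lab d)).map Prod.snd = some s := by
  constructor
  · rintro ⟨c, hc, h1, h2⟩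
    rw [h.hlab d c hc] at h2
    rw [← h2]; exact h1
  · intro h1
    exact ⟨lab d, hl d, h1, (h.hlab d _ (hl d)).2 rfl⟩

theorem Agree.topP {ℓ : ℕ} {lab : ℕ → ℕ} {R : ℕ → Fin (ℓ + 1) → Fin (ℓ + 1) → Prop}
    (h : Agree p κ ℓ lab R) (hl : ∀ t : Fin (ℓ + 1), lab t < p.length + 3) {k : ℕ} (hk : k < κ)
    (o : Option Bool) (t : Fin (ℓ + 1)) :
    TopP p _ R k o t ↔ (stN p lab t k).head? = o := by
  unfold stN
  cases hs : psN p lab t k with
  | nil =>
    cases o with
    | none =>
      refine ⟨fun _ => rfl, fun _ d hd => ?_⟩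
      rw [h.hptr k hk, hs] at hd
      cases hd
    | some s =>
      constructor
      · rintro ⟨d, hd, _⟩
        rw [h.hptr k hk, hs] at hd
        cases hd
      · intro h1; cases h1
  | cons z r =>
    obtain ⟨hz, _, b, hb⟩ := psN_cons p lab k t z r hs
    have hz' : z < ℓ + 1 := by have := t.2; omega
    have h1 : R (PTR p k) t ⟨z, hz'⟩ := by rw [h.hptr k hk, hs]; rfl
    have hsym : symOf p (lab z) = b := by simp [symOf, hb]
    simp only [List.map_cons, List.head?_cons, hsym]
    cases o with
    | none =>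
      constructor
      · intro h2; exact absurd h1 (h2 _)
      · intro h2; cases h2
    | some s =>
      constructor
      · rintro ⟨d, hd, hd2⟩
        rw [h.hptr k hk, hs] at hd
        rw [h.symP hl] at hd2
        have : z = d.1 := by simpa using hd
        rw [← this, hb] at hd2
        simpa using hd2
      · intro h2
        refine ⟨⟨z, hz'⟩, h1, ?_⟩
        rw [h.symP hl]
        simp only [hb]
        simpa using h2

/-- The canonical relations. -/
def RC (p : List Instr) (lab : ℕ → ℕ) (i a b : ℕ) : Prop :=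
  if i = 0 then a < b else if i = 1 then a + 1 = b else if i = 2 then a = 0
  else if i < 6 + p.length then lab a = i - 3
  else (psN p lab a (i - (6 + p.length))).head? = some b

theorem RC_lab (p : List Instr) (lab : ℕ → ℕ) {c : ℕ} (hc : c < p.length + 3) (a b : ℕ) :
    RC p lab (3 + c) a b ↔ c = lab a := by
  unfold RC
  rw [if_neg (by omega), if_neg (by omega), if_neg (by omega), if_pos (by omega),
    Nat.add_sub_cancel_left]
  exact eq_comm

theorem RC_ptr (p : List Instr) (lab : ℕ → ℕ) (k a b : ℕ) :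
    RC p lab (PTR p k) a b ↔ (psN p lab a k).head? = some b := by
  unfold RC PTR
  rw [if_neg (by omega), if_neg (by omega), if_neg (by omega), if_neg (by omega),
    Nat.add_sub_cancel_left]

/-- Updates of the pointers agree with the symbolic registers. -/
theorem agree_upd {ℓ : ℕ} {lab : ℕ → ℕ} {R : ℕ → Fin (ℓ + 1) → Fin (ℓ + 1) → Prop}
    {k : ℕ} {a b : Fin (ℓ + 1)} (hab : a.1 + 1 = b.1)
    (h : ∀ t d : Fin (ℓ + 1), t ≤ a → (R (PTR p k) t d ↔ (psN p lab t k).head? = some d.1)) :
    UpdP p _ R (lab a) k a b ↔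
      ∀ d : Fin (ℓ + 1), (R (PTR p k) b d ↔ (psN p lab b k).head? = some d.1) := by
  have hps : psN p lab b k = if (pushOf p (lab a)).map Prod.fst = some k then
      a.1 :: psN p lab a k
      else if popOf p (lab a) = some k then (psN p lab a k).tail else psN p lab a k := by
    rw [← hab]; rfl
  unfold UpdP
  by_cases h1 : (pushOf p (lab a)).map Prod.fst = some k
  · rw [if_pos h1] at hps
    simp only [h1, ne_eq, not_true_eq_false, false_imp_iff, and_true, true_imp_iff]
    refine forall_congr' fun d => ?_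
    rw [hps]
    have : ((a.1 :: psN p lab a k).head? = some d.1) ↔ d = a := by
      simp only [List.head?_cons, Option.some.injEq]
      exact ⟨fun h => Fin.ext h.symm, fun h => by rw [h]⟩
    rw [this]
  · rw [if_neg h1] at hps
    simp only [h1, ne_eq, not_false_eq_true, true_imp_iff, false_imp_iff, true_and]
    by_cases h2 : popOf p (lab a) = some k
    · rw [if_pos h2] at hps
      simp only [h2, not_true_eq_false, false_imp_iff, and_true, true_imp_iff]
      refine forall_congr' fun d => ?_
      have : (∃ e, R (PTR p k) a e ∧ R (PTR p k) e d) ↔ (psN p lab b k).head? = some d.1 := by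
        rw [hps]
        cases hs : psN p lab a k with
        | nil =>
          simp only [List.tail_nil, List.head?_nil, reduceCtorEq, iff_false, not_exists,
            not_and]
          intro e he
          rw [h a e le_rfl, hs] at he
          cases he
        | cons z r =>
          obtain ⟨hz, hz2, _⟩ := psN_cons p lab k a z r hs
          have hz' : z < ℓ + 1 := by have := a.2; omega
          simp only [List.tail_cons]
          constructor
          · rintro ⟨e, he, he2⟩
            rw [h a e le_rfl, hs] at he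
            have h3 : z = e.1 := by simpa using he
            rw [h e d (by rw [Fin.le_def]; omega), ← h3, hz2] at he2
            exact he2
          · intro h3
            refine ⟨⟨z, hz'⟩, (h a _ le_rfl).2 (by rw [hs]; rfl), ?_⟩
            rw [h _ d (by rw [Fin.le_def]; exact hz.le), hz2]
            exact h3
      rw [this]
    · rw [if_neg h2] at hps
      simp only [h2, not_false_eq_true, true_imp_iff, false_imp_iff, true_and]
      refine forall_congr' fun d => ?_
      rw [hps, h a d le_rfl]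

theorem canon_isRun (hκ : 0 < κ) (hp : WF p κ) {lab : ℕ → ℕ} {ℓ : ℕ} (h : Trace p lab ℓ) :
    IsRun p κ (Fin (ℓ + 1)) (fun i a b => RC p lab i a b) := by
  have hl : ∀ t : Fin (ℓ + 1), lab t < p.length + 3 := by
    intro t
    rcases Nat.lt_or_ge t.1 ℓ with h1 | h1
    · have := h.lt t h1; omega
    · have h2 : t.1 = ℓ := by have := t.2; omega
      rw [h2, h.last]; omega
  have hA : Agree p κ ℓ lab (fun i a b => RC p lab i a b) :=
    ⟨fun t c hc => RC_lab p lab hc _ _, fun k hk t d => RC_ptr p lab k _ _⟩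
  refine ⟨?_, ?_, ?_, ?_, ?_, ?_, ?_, ?_, ?_, ?_⟩
  · intro a h1
    simp [RC] at h1
  · intro a b c h1 h2
    simp only [RC, if_true] at h1 h2 ⊢
    omega
  · intro a b
    simp only [RC, if_true]
    rcases lt_trichotomy a b with h1 | h1 | h1
    · exact .inl h1
    · exact .inr (.inl h1)
    · exact .inr (.inr h1)
  · intro a b
    simp only [RC, if_true, one_ne_zero, if_false]
    constructor
    · intro h1
      exact ⟨by omega, fun c hc => by omega⟩
    · rintro ⟨h1, h2⟩
      by_contra h3
      exact h2 ⟨a.1 + 1, by have := b.2; omega⟩ ⟨by simp, by simp; omega⟩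
  · intro a
    simp only [RC]
    constructor
    · intro h1 b hb
      simp at h1 hb
      have : a.1 = 0 := by simpa using congrArg Fin.val h1
      omega
    · intro h1
      have h2 := h1 ⟨0, by omega⟩
      simp at h2
      simpa using h2
  · intro a ha
    have h0 : a.1 = 0 := by simpa [RC] using ha
    refine ⟨⟨lab 0, h.start, ?_⟩, fun k hk b hb => ?_⟩
    · show RC p lab (3 + lab 0) a a
      rw [RC_lab p lab (by have := h.start; omega), h0]
    · have : RC p lab (PTR p k) a b := hb
      rw [RC_ptr, h0] at this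
      cases this
  · intro a
    exact ⟨lab a, hl a, (hA.hlab a _ (hl a)).2 rfl⟩
  · intro a c hc c' hc' h1 h2
    rw [(hA.hlab a c hc).1 h1, (hA.hlab a c' hc').1 h2]
  · intro a b hab c hc hac
    have hab' : a.1 + 1 = b.1 := by simpa [RC] using hab
    have hc2 : c = lab a := (hA.hlab a c hc).1 hac
    subst hc2
    have haℓ : a.1 < ℓ := by have := b.2; omega
    refine ⟨by have := h.lt a haℓ; omega, fun h1 => ?_, fun h1 => ?_, fun k hk => ?_⟩
    · have h2 := h.guess a haℓ h1
      refine ⟨lab (a.1 + 1), h2, ?_⟩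
      exact (hA.hlab b _ (by omega)).2 (by rw [hab'])
    · have h2 := h.comp a haℓ h1.1
      have key : ∀ o, TopP p _ (fun i (a b : Fin (ℓ + 1)) => RC p lab i a b)
          (regOf p (lab a)) o a → RC p lab (3 + nxt p (lab a) o) b b := by
        intro o ho
        rw [hA.topP hl (regOf_lt hκ hp _)] at ho
        rw [ho, hab'] at h2
        have h3 := (nxt_bounds hp h1.1 h1.2 o).2
        rw [RC_lab p lab (by omega)]
        exact h2.symm
      exact ⟨key _, key _, key _⟩
    · rw [agree_upd hab' (fun t d _ => hA.hptr k hk t d)]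
      exact fun d => hA.hptr k hk b d
  · intro a ha
    have h0 : a.1 = ℓ := by
      by_contra h1
      have := a.2
      exact ha ⟨ℓ, by omega⟩ (by simp [RC]; omega)
    refine ⟨(hA.hlab a _ (by omega)).2 (by rw [h0, h.last]), ?_⟩
    rw [hA.topP hl hκ, h0]
    exact h.acc

theorem extract_fin (hκ : 0 < κ) (hp : WF p κ) {ℓ : ℕ}
    {R : ℕ → Fin (ℓ + 1) → Fin (ℓ + 1) → Prop} (h : IsRun p κ _ R)
    (h0 : ∀ a b, R 0 a b ↔ a < b) : ∃ lab, Trace p lab ℓ ∧ R 2 0 0 ∧
      (∀ a b : Fin (ℓ + 1), a.1 + 1 = b.1 → R 1 a b) ∧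
      ∀ a : Fin (ℓ + 1), R (3 + lab a.1) a a := by
  classical
  have hlab : ∀ a : Fin (ℓ + 1), ∃ c < p.length + 3, R (3 + c) a a := h.lab
  choose f hf1 hf2 using hlab
  let lab : ℕ → ℕ := fun t => if ht : t < ℓ + 1 then f ⟨t, ht⟩ else 0
  have hfl : ∀ a : Fin (ℓ + 1), lab a = f a := fun a => by
    simp only [lab, dif_pos a.2]
  have hl : ∀ t : Fin (ℓ + 1), lab t < p.length + 3 := fun t => by rw [hfl]; exact hf1 t
  have hlab : ∀ t : Fin (ℓ + 1), ∀ c < p.length + 3, (R (3 + c) t t ↔ c = lab t) := by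
    intro t c hc
    constructor
    · intro h1
      exact h.uniq t c hc _ (hl t) h1 (by rw [hfl]; exact hf2 t)
    · rintro rfl
      rw [hfl]; exact hf2 t
  have hsucc : ∀ a b : Fin (ℓ + 1), a.1 + 1 = b.1 → R 1 a b := by
    intro a b hab
    rw [h.suc, h0]
    refine ⟨by rw [Fin.lt_def]; omega, fun c hc => ?_⟩
    rw [h0, h0, Fin.lt_def, Fin.lt_def] at hc
    omega
  have hfst : R 2 0 0 := by
    rw [h.fst]
    intro b hb
    rw [h0] at hb
    exact absurd hb (Fin.not_lt_zero b)
  have hstart := h.start 0 hfst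
  have hstep : ∀ a b : Fin (ℓ + 1), a.1 + 1 = b.1 → TrnP p κ _ R (lab a) a b := fun a b hab =>
    h.step a b (hsucc a b hab) (lab a) (hl a) ((hlab a _ (hl a)).2 rfl)
  have hptr : ∀ k < κ, ∀ t : ℕ, ∀ a : Fin (ℓ + 1), a.1 = t → ∀ d : Fin (ℓ + 1),
      (R (PTR p k) a d ↔ (psN p lab a k).head? = some d.1) := by
    intro k hk t
    induction t using Nat.strong_induction_on with
    | _ t ih =>
      intro a hat
      cases t with
      | zero =>
        intro d
        have ha0 : a = 0 := Fin.ext hat
        subst ha0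
        exact ⟨fun h1 => absurd h1 (hstart.2 k hk d), fun h1 => by cases h1⟩
      | succ t =>
        have htl : t < ℓ + 1 := by have := a.2; omega
        have hab : (⟨t, htl⟩ : Fin (ℓ + 1)).1 + 1 = a.1 := by simp [hat]
        have h1 := (hstep _ a hab).2.2.2 k hk
        rw [agree_upd hab (fun t' d ht' => ih t'.1 (by
          rw [Fin.le_def] at ht'
          have : (⟨t, htl⟩ : Fin (ℓ + 1)).1 = t := rfl
          omega) t' rfl d)] at h1
        exact h1
  have hA : Agree p κ ℓ lab R := ⟨hlab, fun k hk t d => hptr k hk t.1 t rfl d⟩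
  have hlast := h.last (Fin.last ℓ) (by
    intro b hb
    rw [h0] at hb
    exact absurd hb (Fin.le_last b).not_gt)
  refine ⟨lab, ⟨?_, ?_, ?_, ?_, ?_, ?_⟩, hfst, hsucc, fun a => (hlab a _ (hl a)).2 rfl⟩
  · obtain ⟨c, hc, h1⟩ := hstart.1
    have := (hlab 0 c (by omega)).1 h1
    rw [show ((0 : Fin (ℓ + 1)) : ℕ) = 0 from rfl] at this
    omega
  · intro t ht
    have h1 := hstep ⟨t, by omega⟩ ⟨t + 1, by omega⟩ rfl
    have h2 := hl ⟨t, by omega⟩
    have h3 := h1.1
    simp only at h2 h3
    omega
  · intro t ht h1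
    have h2 := hstep ⟨t, by omega⟩ ⟨t + 1, by omega⟩ rfl
    obtain ⟨c, hc, h3⟩ := h2.2.1 h1
    have := (hlab _ c (by omega)).1 h3
    simp only at this
    omega
  · intro t ht h1
    have h2 := hstep ⟨t, by omega⟩ ⟨t + 1, by omega⟩ rfl
    have h4 : lab t < p.length + 2 := by
      have h5 := hl ⟨t, by omega⟩
      have h6 := h2.1
      simp only at h5 h6
      omega
    have h3 := h2.2.2.1 ⟨h1, h4⟩
    have key : ∀ o, (stN p lab t (regOf p (lab t))).head? = o →
        R (3 + nxt p (lab t) o) ⟨t + 1, by omega⟩ ⟨t + 1, by omega⟩ := by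
      intro o ho
      have h5 := (hA.topP hl (regOf_lt hκ hp (lab t)) o ⟨t, by omega⟩).2 ho
      rcases o with _ | _ | _
      · exact h3.1 h5
      · exact h3.2.1 h5
      · exact h3.2.2 h5
    have h5 := key _ rfl
    have h6 := (nxt_bounds hp h1 h4 (stN p lab t (regOf p (lab t))).head?).2
    exact ((hlab _ _ (by omega)).1 h5).symm
  · have := (hlab _ _ (by omega)).1 hlast.1
    exact this.symm
  · exact (hA.topP hl hκ (some true) (Fin.last ℓ)).1 hlast.2

/-- Extraction of a trace from a finite model. -/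
theorem extract (hκ : 0 < κ) (hp : WF p κ) {A : Type} [Finite A] [Nonempty A]
    {R : ℕ → A → A → Prop} (h : IsRun p κ A R) : ∃ (ℓ : ℕ) (lab : ℕ → ℕ)
      (e : Fin (ℓ + 1) ≃ A), Trace p lab ℓ ∧ R 2 (e 0) (e 0) ∧
      (∀ a b : Fin (ℓ + 1), a.1 + 1 = b.1 → R 1 (e a) (e b)) ∧
      ∀ a : Fin (ℓ + 1), R (3 + lab a.1) (e a) (e a) := by
  classical
  let _ := Fintype.ofFinite A
  let _ : LinearOrder A := {
    le := fun a b => R 0 a b ∨ a = b
    le_refl := fun a => .inr rfl
    le_trans := fun a b c h1 h2 => by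
      rcases h1 with h1 | h1
      · rcases h2 with h2 | h2
        · exact .inl (h.tr a b c h1 h2)
        · exact .inl (h2 ▸ h1)
      · rw [h1]; exact h2
    le_antisymm := fun a b h1 h2 => by
      rcases h1 with h1 | h1
      · rcases h2 with h2 | h2
        · exact absurd (h.tr a b a h1 h2) (h.irr a)
        · exact h2.symm
      · exact h1
    le_total := fun a b => by
      rcases h.tot a b with h1 | h1 | h1
      · exact .inl (.inl h1)
      · exact .inl (.inr h1)
      · exact .inr (.inl h1)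
    toDecidableLE := Classical.decRel _ }
  have hlt : ∀ a b : A, a < b ↔ R 0 a b := by
    intro a b
    rw [lt_iff_le_not_ge]
    constructor
    · rintro ⟨h1 | h1, h2⟩
      · exact h1
      · exact absurd (Or.inr h1.symm) h2
    · intro h1
      refine ⟨.inl h1, ?_⟩
      rintro (h2 | h2)
      · exact h.irr a (h.tr a b a h1 h2)
      · rw [h2] at h1; exact h.irr _ h1
  obtain ⟨ℓ, hℓ⟩ : ∃ ℓ, Fintype.card A = ℓ + 1 :=
    ⟨Fintype.card A - 1, by have := Fintype.card_pos (α := A); omega⟩
  let e : Fin (ℓ + 1) ≃o A := monoEquivOfFin A hℓ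
  have h1 : IsRun p κ (Fin (ℓ + 1)) (fun i a b => R i (e a) (e b)) :=
    h.of_equiv hκ hp e.toEquiv.symm fun i _ a b => by
      rw [show e (e.toEquiv.symm a) = a from e.toEquiv.apply_symm_apply a,
        show e (e.toEquiv.symm b) = b from e.toEquiv.apply_symm_apply b]
  obtain ⟨lab, h2, h3, h4, h5⟩ := extract_fin hκ hp h1 (fun a b => by
    rw [← hlt, e.lt_iff_lt])
  exact ⟨ℓ, lab, e.toEquiv, h2, h3, h4, h5⟩

end HerCo
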