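import Mathlib.Data.List.Basic
import Mathlib.Data.Nat.Basic
import Mathlib.Logic.Function.Basic
import Mathlib.Logic.Function.Iterate
import Mathlib.Tactic

/-! A small structured language over stacks of bits, with a big-step semantics that counts steps. -/

namespace HerCo

/-- A store: register `k` holds a stack of bits (head of the list = top of the stack). -/
abbrev Store := ℕ → List Bool

/-- Structured stack programs. -/
inductive Cmd
  | skip
  | push (k : ℕ) (b : Bool)
  | pop (k : ℕ)
  | seq (c d : Cmd)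
  | ifte (k : ℕ) (cE cF cT : Cmd)
  | loop (k : ℕ) (c : Cmd)
  deriving DecidableEq

open Function

/-- Small steps on (continuation, store). -/
def stepC : List Cmd × Store → List Cmd × Store
  | ([], s) => ([], s)
  | (.skip :: K, s) => (K, s)
  | (.push k b :: K, s) => (K, update s k (b :: s k))
  | (.pop k :: K, s) => (K, update s k (s k).tail)
  | (.seq c d :: K, s) => (c :: d :: K, s)
  | (.ifte k e f t :: K, s) =>
    ((match s k with
      | [] => e
      | false :: _ => f
      | true :: _ => t) :: K, s)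
  | (.loop k c :: K, s) =>
    ((match s k with
      | [] => K
      | _ :: _ => c :: .loop k c :: K), s)

/-- Big-step semantics with the exact number of small steps. -/
inductive Runs : Cmd → Store → Store → ℕ → Prop
  | skip (s : Store) : Runs .skip s s 1
  | push (k : ℕ) (b : Bool) (s : Store) : Runs (.push k b) s (update s k (b :: s k)) 1
  | pop (k : ℕ) (s : Store) : Runs (.pop k) s (update s k (s k).tail) 1
  | seq {c d : Cmd} {s s' s'' : Store} {t t' : ℕ} (h : Runs c s s' t) (h' : Runs d s' s'' t') :
      Runs (.seq c d) s s'' (t + t' + 1)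
  | ifE {k : ℕ} {e f g : Cmd} {s s' : Store} {t : ℕ} (hk : s k = []) (h : Runs e s s' t) :
      Runs (.ifte k e f g) s s' (t + 1)
  | ifF {k : ℕ} {e f g : Cmd} {s s' : Store} {t : ℕ} {l : List Bool} (hk : s k = false :: l)
      (h : Runs f s s' t) : Runs (.ifte k e f g) s s' (t + 1)
  | ifT {k : ℕ} {e f g : Cmd} {s s' : Store} {t : ℕ} {l : List Bool} (hk : s k = true :: l)
      (h : Runs g s s' t) : Runs (.ifte k e f g) s s' (t + 1)
  | loopE {k : ℕ} {c : Cmd} {s : Store} (hk : s k = []) : Runs (.loop k c) s s 1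
  | loopS {k : ℕ} {c : Cmd} {s s' s'' : Store} {t t' : ℕ} {b : Bool} {l : List Bool}
      (hk : s k = b :: l) (h : Runs c s s' t)
      (h' : Runs (.loop k c) s' s'' t') : Runs (.loop k c) s s'' (t + t' + 1)

theorem Runs.steps {c : Cmd} {s s' : Store} {t : ℕ} (h : Runs c s s' t) :
    ∀ K, stepC^[t] (c :: K, s) = (K, s') := by
  induction h with
  | skip s => intro K; rfl
  | push k b s => intro K; rfl
  | pop k s => intro K; rfl
  | seq h h' ih ih' =>
    intro K
    rename_i c d s s' s'' t t'
    have e : t + t' + 1 = t' + (t + 1) := by omega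
    rw [e, iterate_add_apply, iterate_succ_apply]
    show stepC^[t'] (stepC^[t] (c :: d :: K, s)) = _
    rw [ih, ih']
  | ifE hk h ih =>
    intro K
    rw [iterate_succ_apply]
    simp only [stepC, hk, ih]
  | ifF hk h ih =>
    intro K
    rw [iterate_succ_apply]
    simp only [stepC, hk, ih]
  | ifT hk h ih =>
    intro K
    rw [iterate_succ_apply]
    simp only [stepC, hk, ih]
  | loopE hk =>
    intro K
    simp only [iterate_one, stepC, hk]
  | loopS hk h h' ih ih' =>
    intro K
    rename_i k c s s' s'' t t' b l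
    have e : t + t' + 1 = t' + (t + 1) := by omega
    rw [e, iterate_add_apply, iterate_succ_apply]
    have : stepC (.loop k c :: K, s) = (c :: .loop k c :: K, s) := by
      simp only [stepC, hk]
    rw [this, ih, ih']

theorem Runs.length_le {c : Cmd} {s s' : Store} {t : ℕ} (h : Runs c s s' t) :
    ∀ k, (s' k).length ≤ (s k).length + t := by
  induction h with
  | skip s => intro k; omega
  | push k b s =>
    intro j
    by_cases hj : j = k
    · subst hj; simp
    · simp [update_of_ne hj]
  | pop k s =>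
    intro j
    by_cases hj : j = k
    · subst hj; simp; omega
    · simp [update_of_ne hj]
  | seq h h' ih ih' => intro k; have := ih k; have := ih' k; omega
  | ifE hk h ih => intro k; have := ih k; omega
  | ifF hk h ih => intro k; have := ih k; omega
  | ifT hk h ih => intro k; have := ih k; omega
  | loopE hk => intro k; omega
  | loopS hk h h' ih ih' => intro k; have := ih k; have := ih' k; omega

/-- `c` takes `s` to `s'` within `T` steps. -/
def Does (c : Cmd) (s s' : Store) (T : ℕ) : Prop := ∃ t, t ≤ T ∧ Runs c s s' t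

theorem Does.mono {c : Cmd} {s s' : Store} {T T' : ℕ} (h : Does c s s' T) (hT : T ≤ T') :
    Does c s s' T' := by
  obtain ⟨t, ht, hr⟩ := h
  exact ⟨t, ht.trans hT, hr⟩

theorem Does.skip (s : Store) : Does .skip s s 1 := ⟨1, le_rfl, .skip s⟩

theorem Does.push (k : ℕ) (b : Bool) (s : Store) :
    Does (.push k b) s (update s k (b :: s k)) 1 := ⟨1, le_rfl, .push k b s⟩

theorem Does.pop (k : ℕ) (s : Store) :
    Does (.pop k) s (update s k (s k).tail) 1 := ⟨1, le_rfl, .pop k s⟩

theorem Does.seq {c d : Cmd} {s s' s'' : Store} {T T' : ℕ} (h : Does c s s' T)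
    (h' : Does d s' s'' T') : Does (.seq c d) s s'' (T + T' + 1) := by
  obtain ⟨t, ht, hr⟩ := h
  obtain ⟨t', ht', hr'⟩ := h'
  exact ⟨t + t' + 1, by omega, .seq hr hr'⟩

theorem Does.ifE {k : ℕ} {e f g : Cmd} {s s' : Store} {T : ℕ} (hk : s k = [])
    (h : Does e s s' T) : Does (.ifte k e f g) s s' (T + 1) := by
  obtain ⟨t, ht, hr⟩ := h
  exact ⟨t + 1, by omega, .ifE hk hr⟩

theorem Does.ifF {k : ℕ} {e f g : Cmd} {s s' : Store} {T : ℕ} {l : List Bool}
    (hk : s k = false :: l)
    (h : Does f s s' T) : Does (.ifte k e f g) s s' (T + 1) := by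
  obtain ⟨t, ht, hr⟩ := h
  exact ⟨t + 1, by omega, .ifF hk hr⟩

theorem Does.ifT {k : ℕ} {e f g : Cmd} {s s' : Store} {T : ℕ} {l : List Bool}
    (hk : s k = true :: l)
    (h : Does g s s' T) : Does (.ifte k e f g) s s' (T + 1) := by
  obtain ⟨t, ht, hr⟩ := h
  exact ⟨t + 1, by omega, .ifT hk hr⟩

theorem Does.loopE {k : ℕ} {c : Cmd} {s : Store} (hk : s k = []) : Does (.loop k c) s s 1 :=
  ⟨1, le_rfl, .loopE hk⟩

theorem Does.loopS {k : ℕ} {c : Cmd} {s s' s'' : Store} {T T' : ℕ} {b : Bool} {l : List Bool}
    (hk : s k = b :: l) (h : Does c s s' T)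
    (h' : Does (.loop k c) s' s'' T') : Does (.loop k c) s s'' (T + T' + 1) := by
  obtain ⟨t, ht, hr⟩ := h
  obtain ⟨t', ht', hr'⟩ := h'
  exact ⟨t + t' + 1, by omega, .loopS hk hr hr'⟩

end HerCo
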