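import Mathlib.ModelTheory.Semantics
import Mathlib.ModelTheory.Substructures
import Pool.Prelude.Def_F_458e953d

/-! Definitions for hereditary first-order model checking over signatures with finitely many
binary relation symbols. -/

namespace HerCo

open FirstOrder FirstOrder.Language

/-- The relation symbols: `m` binary ones. -/
inductive BinRel (m : ℕ) : ℕ → Type
  | rel (i : Fin m) : BinRel m 2

/-- The relational signature with `m` binary relation symbols and no function symbols. -/
abbrev binLang (m : ℕ) : FirstOrder.Language := ⟨fun _ => Empty, BinRel m⟩

/-- The structure with domain `A` in which the symbol `i` is interpreted by `R i`. -/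
@[reducible] def mkStr {m : ℕ} {A : Type} (R : Fin m → A → A → Prop) :
    (binLang m).Structure A where
  funMap := fun f => nomatch f
  RelMap := fun r x => match r with
    | .rel i => R i (x 0) (x 1)

/-- Number of elements of the structure coded by the string `s`: the number of leading `true`. -/
def numElems (s : List Bool) : ℕ := (s.takeWhile id).length

/-- The bit of the string `s` which tells whether the relation `j` holds for `(a, b)`: the code of
a structure with domain `{0, ..., n - 1}` is `true` (`n` times), `false`, and the `m` adjacency
matrices, row by row. -/
def bitOf (s : List Bool) (j a b : ℕ) : Bool :=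
  s.getD (numElems s + 1 + j * (numElems s * numElems s) + a * numElems s + b) false

/-- `s` is the code of a (nonempty) finite structure with `m` binary relations. -/
def IsCode (m : ℕ) (s : List Bool) : Prop :=
  0 < numElems s ∧ s.length = numElems s + 1 + m * (numElems s * numElems s)

/-- The structure coded by a string. -/
@[reducible] def strOf (m : ℕ) (s : List Bool) : (binLang m).Structure (Fin (numElems s)) :=
  mkStr fun j a b => bitOf s j a b = true

/-- The finite structure coded by `s` hereditarily satisfies `φ`: every (induced) substructure
with nonempty domain satisfies `φ`. -/
def Hereditarily {m : ℕ} (φ : (binLang m).Sentence) (s : List Bool) : Prop :=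
  letI := strOf m s
  ∀ B : (binLang m).Substructure (Fin (numElems s)), Nonempty B → B ⊨ φ

open Classical in
/-- The decision problem `HER(φ)`. -/
noncomputable def HER {m : ℕ} (φ : (binLang m).Sentence) : N68a2faeb.DecisionProblem :=
  fun s => decide (IsCode m s ∧ Hereditarily φ s)

/-- `L` is coNP-intermediate: in coNP, not in P, not complete for coNP under polynomial-time
many-one reductions. -/
def CoNPIntermediate (L : N68a2faeb.DecisionProblem) : Prop :=
  L ∈ N68a2faeb.coNP ∧ L ∉ N68a2faeb.P ∧ ¬ N793a5b8e.IsCompleteFor N68a2faeb.coNP L

end HerCo
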