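import Pool.Agent.Lib.MP_a28c52_lc.Defs

/-! First-order definability in structures with binary relations, closure properties. -/

namespace HerCo

open FirstOrder FirstOrder.Language

/-- `Q` is a first-order definable property of `n` elements in structures with `m` binary
relations. -/
def Df (m n : ℕ) (Q : ∀ (A : Type), (ℕ → A → A → Prop) → (Fin n → A) → Prop) : Prop :=
  ∃ φ : (binLang m).BoundedFormula Empty n,
    ∀ (A : Type) (R : ℕ → A → A → Prop) (v : Empty → A) (x : Fin n → A),
      @BoundedFormula.Realize (binLang m) A (mkStr fun j a b => R j a b) _ _ φ v x ↔ Q A R x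

variable {m n : ℕ} {Q Q' : ∀ (A : Type), (ℕ → A → A → Prop) → (Fin n → A) → Prop}

theorem Df.congr (h : Df m n Q) (h' : ∀ A R x, Q A R x ↔ Q' A R x) : Df m n Q' := by
  obtain ⟨φ, hφ⟩ := h
  exact ⟨φ, fun A R v x => (hφ A R v x).trans (h' A R x)⟩

theorem Df.ff : Df m n (fun _ _ _ => False) :=
  ⟨.falsum, fun _ _ _ _ => Iff.rfl⟩

theorem Df.eq (i j : Fin n) : Df m n (fun _ _ x => x i = x j) :=
  ⟨.equal (.var (.inr i)) (.var (.inr j)), fun _ _ _ _ => Iff.rfl⟩

theorem Df.rel {k : ℕ} (hk : k < m) (i j : Fin n) : Df m n (fun _ R x => R k (x i) (x j)) :=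
  ⟨.rel (BinRel.rel ⟨k, hk⟩) ![.var (.inr i), .var (.inr j)], fun _ _ _ _ => Iff.rfl⟩

theorem Df.imp (h : Df m n Q) (h' : Df m n Q') :
    Df m n (fun A R x => Q A R x → Q' A R x) := by
  obtain ⟨φ, hφ⟩ := h
  obtain ⟨φ', hφ'⟩ := h'
  exact ⟨.imp φ φ', fun A R v x => imp_congr (hφ A R v x) (hφ' A R v x)⟩

theorem Df.not (h : Df m n Q) : Df m n (fun A R x => ¬ Q A R x) := h.imp Df.ff

theorem Df.or (h : Df m n Q) (h' : Df m n Q') :
    Df m n (fun A R x => Q A R x ∨ Q' A R x) :=
  (h.not.imp h').congr fun A R x => by tauto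

theorem Df.and (h : Df m n Q) (h' : Df m n Q') :
    Df m n (fun A R x => Q A R x ∧ Q' A R x) :=
  ((h.imp h'.not).not).congr fun A R x => by tauto

theorem Df.iff (h : Df m n Q) (h' : Df m n Q') :
    Df m n (fun A R x => (Q A R x ↔ Q' A R x)) :=
  ((h.imp h').and (h'.imp h)).congr fun A R x => by tauto

theorem Df.tt : Df m n (fun _ _ _ => True) :=
  (Df.ff.not).congr fun _ _ _ => by tauto

theorem Df.const (p : Prop) : Df m n (fun _ _ _ => p) := by
  by_cases hp : p
  · exact Df.tt.congr fun _ _ _ => by tauto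
  · exact Df.ff.congr fun _ _ _ => by tauto

theorem Df.all {Q : ∀ (A : Type), (ℕ → A → A → Prop) → (Fin (n + 1) → A) → Prop}
    (h : Df m (n + 1) Q) : Df m n (fun A R x => ∀ a : A, Q A R (Fin.snoc x a)) := by
  obtain ⟨φ, hφ⟩ := h
  exact ⟨.all φ, fun A R v x => forall_congr' fun a => hφ A R v (Fin.snoc x a)⟩

theorem Df.ex {Q : ∀ (A : Type), (ℕ → A → A → Prop) → (Fin (n + 1) → A) → Prop}
    (h : Df m (n + 1) Q) : Df m n (fun A R x => ∃ a : A, Q A R (Fin.snoc x a)) :=
  ((h.not.all).not).congr fun A R x => by push Not; rfl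

/-- Bounded quantification over natural numbers. -/
theorem Df.ballLt {Q : ℕ → ∀ (A : Type), (ℕ → A → A → Prop) → (Fin n → A) → Prop} (N : ℕ)
    (h : ∀ k < N, Df m n (Q k)) : Df m n (fun A R x => ∀ k < N, Q k A R x) := by
  induction N with
  | zero => exact Df.tt.congr fun _ _ _ => by simp
  | succ N ih =>
    refine ((ih fun k hk => h k (by omega)).and (h N (by omega))).congr fun A R x => ?_
    constructor
    · rintro ⟨h1, h2⟩ k hk
      rcases Nat.lt_succ_iff_lt_or_eq.1 hk with hk | rfl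
      · exact h1 k hk
      · exact h2
    · intro h1
      exact ⟨fun k hk => h1 k (by omega), h1 N (by omega)⟩

theorem Df.bexLt {Q : ℕ → ∀ (A : Type), (ℕ → A → A → Prop) → (Fin n → A) → Prop} (N : ℕ)
    (h : ∀ k < N, Df m n (Q k)) : Df m n (fun A R x => ∃ k < N, Q k A R x) :=
  ((Df.ballLt N fun k hk => (h k hk).not).not).congr fun A R x => by push Not; rfl

/-- Implication from a condition not depending on the structure. -/
theorem Df.impC {p : Prop} (h : p → Df m n Q) : Df m n (fun A R x => p → Q A R x) := by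
  by_cases hp : p
  · exact (h hp).congr fun _ _ _ => by tauto
  · exact Df.tt.congr fun _ _ _ => by tauto

end HerCo
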