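import Pool.Agent.Lib.MP_a28c52_lc.Codes

/-! Delayed diagonalisation. -/

namespace HerCo

open Function

variable {α β γ δ σ : Type} [Enc α] [Enc β] [Enc γ] [Enc δ] [Enc σ] {md : Mode}

/-- All lists of length at most `b` over an alphabet. -/
def words {β : Type} (A : List β) : ℕ → List (List β)
  | 0 => [([] : List β)]
  | b + 1 => [] :: (words A b).flatMap fun l => A.map fun a => a :: l

theorem mem_words {β : Type} (A : List β) : ∀ (b : ℕ) (l : List β),
    l ∈ words A b ↔ l.length ≤ b ∧ ∀ a ∈ l, a ∈ A := by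
  intro b
  induction b with
  | zero =>
    intro l
    simp only [words, List.mem_singleton, Nat.le_zero, List.length_eq_zero_iff]
    exact ⟨fun h => ⟨h, by simp [h]⟩, fun h => h.1⟩
  | succ b ih =>
    intro l
    simp only [words, List.mem_cons, List.mem_flatMap, List.mem_map]
    constructor
    · rintro (rfl | ⟨l', hl', a, ha, rfl⟩)
      · simp
      · have := (ih l').1 hl'
        refine ⟨by simp; omega, ?_⟩
        intro c hc
        rcases List.mem_cons.1 hc with rfl | hc
        · exact ha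
        · exact this.2 c hc
    · rintro ⟨h1, h2⟩
      cases l with
      | nil => exact .inl rfl
      | cons a l =>
        refine .inr ⟨l, (ih l).2 ⟨by simpa using h1, fun c hc => h2 c (List.mem_cons_of_mem _ hc)⟩,
          a, h2 a (List.mem_cons_self ..), rfl⟩

/-- One step of the construction of `words`. -/
def wordsStep {β : Type} (A : List β) (t : List (List β)) : List (List β) :=
  [] :: t.flatMap fun l => A.map fun a => a :: l

theorem words_eq_iterate {β : Type} (A : List β) (b : ℕ) :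
    words A b = (wordsStep A)^[b] [([] : List β)] := by
  induction b with
  | zero => rfl
  | succ b ih => rw [iterate_succ_apply', ← ih]; rfl

@[fun_prop]
theorem FP.words {A : α → List β} {b : α → ℕ} (hA : FP .any A) (hb : FP .any b) :
    FP .any (fun a => words (A a) (b a)) := by
  simp only [words_eq_iterate]
  refine FP.nat_iterateAny (init := fun _ => [([] : List β)])
    (h := fun a t => wordsStep (A a) t) (by fun_prop) ?_ hb
  unfold wordsStep
  fun_prop

/-- All sublists. -/
def subl {β : Type} (l : List β) : List (List β) :=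
  l.foldl (fun acc a => acc ++ acc.map fun s => a :: s) [([] : List β)]

theorem exists_mem_subl {β : Type} (l : List β) (P : β → Bool) :
    ∃ F ∈ subl l, ∀ a, a ∈ F ↔ a ∈ l ∧ P a = true := by
  have h : ∀ (l l₀ : List β) (acc : List (List β)),
      (∃ F ∈ acc, ∀ a, a ∈ F ↔ a ∈ l₀ ∧ P a = true) →
      ∃ F ∈ l.foldl (fun acc a => acc ++ acc.map fun s => a :: s) acc,
        ∀ a, a ∈ F ↔ (a ∈ l₀ ∨ a ∈ l) ∧ P a = true := by
    intro l
    induction l with
    | nil =>
      rintro l₀ acc ⟨F, hF, h1⟩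
      exact ⟨F, hF, fun a => by rw [h1]; simp⟩
    | cons b l ih =>
      rintro l₀ acc ⟨F, hF, h1⟩
      rw [List.foldl_cons]
      obtain ⟨F', hF', h2⟩ := ih (b :: l₀) (acc ++ acc.map fun s => b :: s) (by
        by_cases hb : P b = true
        · refine ⟨b :: F, List.mem_append_right _ (List.mem_map.2 ⟨F, hF, rfl⟩), fun a => ?_⟩
          rw [List.mem_cons, List.mem_cons, h1]
          constructor
          · rintro (rfl | h3)
            · exact ⟨.inl rfl, hb⟩
            · exact ⟨.inr h3.1, h3.2⟩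
          · rintro ⟨rfl | h3, h4⟩
            · exact .inl rfl
            · exact .inr ⟨h3, h4⟩
        · refine ⟨F, List.mem_append_left _ hF, fun a => ?_⟩
          rw [List.mem_cons, h1]
          constructor
          · rintro ⟨h3, h4⟩
            exact ⟨.inr h3, h4⟩
          · rintro ⟨rfl | h3, h4⟩
            · exact absurd h4 hb
            · exact ⟨h3, h4⟩)
      refine ⟨F', hF', fun a => ?_⟩
      rw [h2, List.mem_cons, List.mem_cons]
      tauto
  obtain ⟨F, hF, h1⟩ := h l [] [[]] ⟨[], by simp, by simp⟩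
  exact ⟨F, hF, fun a => by rw [h1]; simp⟩

@[fun_prop]
theorem FP.subl {l : α → List β} (hl : FP .any l) : FP .any (fun a => subl (l a)) :=
  FP.foldlAny (g := fun _ => [([] : List β)]) (h := fun _ acc b => acc ++ acc.map fun s => b :: s)
    hl (by fun_prop) (by fun_prop)

/-- Strings of length at most `b`. -/
def strs (b : ℕ) : List (List Bool) := words [false, true] b

theorem mem_strs (b : ℕ) (s : List Bool) : s ∈ strs b ↔ s.length ≤ b := by
  unfold strs
  rw [mem_words]
  refine ⟨fun h => h.1, fun h => ⟨h, fun a _ => ?_⟩⟩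
  cases a <;> simp

@[fun_prop]
theorem FP.strs {b : α → ℕ} (hb : FP .any b) : FP .any (fun a => strs (b a)) := by
  unfold HerCo.strs
  fun_prop

/-- Instructions with entries at most `n`. -/
def instrs (n : ℕ) : List Instr :=
  (List.range (n + 1)).flatMap fun a => (List.range (n + 1)).flatMap fun b =>
    (List.range (n + 1)).flatMap fun c => (List.range (n + 1)).flatMap fun d =>
      (List.range (n + 1)).map fun e => (a, b, c, d, e)

theorem mem_instrs (n : ℕ) (i : Instr) : i ∈ instrs n ↔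
    i.1 ≤ n ∧ i.2.1 ≤ n ∧ i.2.2.1 ≤ n ∧ i.2.2.2.1 ≤ n ∧ i.2.2.2.2 ≤ n := by
  obtain ⟨a, b, c, d, e⟩ := i
  unfold instrs
  simp only [List.mem_flatMap, List.mem_range, List.mem_map, Prod.mk.injEq, Nat.lt_succ_iff]
  constructor
  · rintro ⟨a', ha, b', hb, c', hc, d', hd, e', he, rfl, rfl, rfl, rfl, rfl⟩
    exact ⟨ha, hb, hc, hd, he⟩
  · rintro ⟨ha, hb, hc, hd, he⟩
    exact ⟨a, ha, b, hb, c, hc, d, hd, e, he, rfl, rfl, rfl, rfl, rfl⟩

@[fun_prop]
theorem FP.instrs {n : α → ℕ} (hn : FP md n) : FP md (fun a => instrs (n a)) := by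
  unfold HerCo.instrs
  fun_prop

/-- Programs of size at most `n`. -/
def progs (n : ℕ) : List (List Instr) := words (instrs n) n

@[fun_prop]
theorem FP.progs {n : α → ℕ} (hn : FP .any n) : FP .any (fun a => progs (n a)) := by
  unfold HerCo.progs
  fun_prop

theorem exists_mem_progs (p : List Instr) : ∃ N, ∀ n ≥ N, p ∈ progs n := by
  refine ⟨p.length + (p.map fun i => i.1 + i.2.1 + i.2.2.1 + i.2.2.2.1 + i.2.2.2.2).sum,
    fun n hn => ?_⟩
  unfold progs
  rw [mem_words]
  refine ⟨by omega, fun i hi => ?_⟩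
  have := List.single_le_sum (by simp) _ (List.mem_map.2 ⟨i, hi, rfl⟩ :
    i.1 + i.2.1 + i.2.2.1 + i.2.2.2.1 + i.2.2.2.2 ∈
      p.map fun i => i.1 + i.2.1 + i.2.2.1 + i.2.2.2.1 + i.2.2.2.2)
  rw [mem_instrs]
  omega

/-- The requirements considered at stage `n`. -/
def tasks (n : ℕ) : List (List Instr × ℕ × ℕ × List (List Bool)) :=
  (progs n).flatMap fun p => (List.range n).flatMap fun d => (List.range n).flatMap fun m =>
    (subl (strs ((n + 2) ^ n))).map fun F => (p, d, m, F)

theorem mem_tasks {n : ℕ} {p : List Instr} {d m : ℕ} {F : List (List Bool)} :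
    (p, d, m, F) ∈ tasks n ↔ p ∈ progs n ∧ d < n ∧ m < n ∧ F ∈ subl (strs ((n + 2) ^ n)) := by
  unfold tasks
  simp only [List.mem_flatMap, List.mem_range, List.mem_map, Prod.mk.injEq]
  constructor
  · rintro ⟨p', hp, d', hd, m', hm, F', hF, rfl, rfl, rfl, rfl⟩
    exact ⟨hp, hd, hm, hF⟩
  · rintro ⟨hp, hd, hm, hF⟩
    exact ⟨p, hp, d, hd, m, hm, F, hF, rfl, rfl, rfl, rfl⟩

theorem FP.tasks {n : α → ℕ} (hn : FP .any n) : FP .any (fun a => tasks (n a)) := by
  unfold HerCo.tasks
  fun_prop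

/-- The string computed by the program `p` from `x` with time bound `(|x| + 2) ^ d`. -/
def outD (p : List Instr) (d : ℕ) (x : List Bool) : List Bool :=
  (outL p ((x.length + 2) ^ d) x).getD []

theorem FP.outD_any {p : α → List Instr} {d : α → ℕ} {x : α → List Bool} (hp : FP .any p)
    (hd : FP .any d) (hx : FP .any x) : FP .any (fun a => outD (p a) (d a) (x a)) := by
  unfold outD
  have := FP.outL_any (p := p) (t := fun a => ((x a).length + 2) ^ (d a)) (x := x) hp
    (by fun_prop) hx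
  fun_prop

theorem FP.outD_poly (p : List Instr) (d : ℕ) {x : α → List Bool}
    (hx : FP .poly x) : FP .poly (fun a => outD p d (x a)) := by
  unfold outD
  have := FP.outL_poly p (t := fun a => ((x a).length + 2) ^ d) (x := x) (by fun_prop) hx
  fun_prop

/-- The string `x` is a witness for a task. -/
def test (L : List Bool → Bool) (n ℓ : ℕ) (q : List Instr × ℕ × ℕ × List (List Bool))
    (x : List Bool) : Bool :=
  decide (n ≤ x.length) && decide ((outD q.1 q.2.1 x).length ≤ ℓ) &&
    !(L x == UPf q.2.2.1 ((n + 2) ^ n) q.2.2.2 (outD q.1 q.2.1 x))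

/-- All tasks of the stage `n` have witnesses of size at most `ℓ`. -/
def D₀ (L : List Bool → Bool) (n ℓ : ℕ) : Bool :=
  (tasks n).all fun q => (strs ℓ).any fun x => test L n ℓ q x

theorem FP.D₀ {L : List Bool → Bool} (hL : FP .any L) :
    FP .any (fun q : ℕ × ℕ => D₀ L q.1 q.2) := by
  unfold HerCo.D₀
  have ht : FP .any (fun q : ℕ × ℕ => HerCo.tasks q.1) := FP.tasks (by fun_prop)
  refine FP.all (g := fun (a : ℕ × ℕ) q => (HerCo.strs a.2).any fun x => test L a.1 a.2 q x)
    ht ?_
  refine FP.anyB (l := fun b : (ℕ × ℕ) × (List Instr × ℕ × ℕ × List (List Bool)) =>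
    HerCo.strs b.1.2) (g := fun b x => test L b.1.1 b.1.2 b.2 x) (by fun_prop) ?_
  unfold test
  have h1 : FP .any (fun c : ((ℕ × ℕ) × (List Instr × ℕ × ℕ × List (List Bool))) × List Bool =>
    outD c.1.2.1 c.1.2.2.1 c.2) := FP.outD_any (by fun_prop) (by fun_prop) (by fun_prop)
  have h2 : FP .any (fun c : ((ℕ × ℕ) × (List Instr × ℕ × ℕ × List (List Bool))) × List Bool =>
    L c.2) := hL.comp (by fun_prop)
  fun_prop

theorem exists_uniform {β : Type} (l : List β) (P : β → ℕ → Prop)
    (hm : ∀ a n n', n ≤ n' → P a n → P a n') (h : ∀ a ∈ l, ∃ n, P a n) :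
    ∃ n, ∀ a ∈ l, P a n := by
  induction l with
  | nil => exact ⟨0, by simp⟩
  | cons b l ih =>
    obtain ⟨n, hn⟩ := ih fun a ha => h a (List.mem_cons_of_mem _ ha)
    obtain ⟨n', hn'⟩ := h b (List.mem_cons_self ..)
    refine ⟨max n n', fun a ha => ?_⟩
    rcases List.mem_cons.1 ha with rfl | ha
    · exact hm _ _ _ (le_max_right _ _) hn'
    · exact hm _ _ _ (le_max_left _ _) (hn a ha)

/-- Finite modifications of functions computable in polynomial time. -/
theorem FP.patch {L g : List Bool → Bool} (hg : FP .poly g) (n : ℕ)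
    (h : ∀ x, n ≤ x.length → L x = g x) : FP .poly L := by
  have h1 : FP .poly (fun x : List Bool => if n ≤ x.length then g x else
      HerCo.memB x ((HerCo.strs n).filter fun x => L x)) := by fun_prop
  refine h1.congr fun x => ?_
  split_ifs with h2
  · exact (h x h2).symm
  · rw [Bool.eq_iff_iff, memB_iff, List.mem_filter, mem_strs]
    exact ⟨fun h => h.2, fun h => ⟨by omega, h⟩⟩

theorem exists_D₀ {L : List Bool → Bool} (hL : ¬ FP .poly L) (n : ℕ) : ∃ ℓ, D₀ L n ℓ = true := by
  have h1 : ∀ q ∈ tasks n, ∃ ℓ, ∃ x : List Bool, x.length ≤ ℓ ∧ test L n ℓ q x = true := by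
    rintro ⟨p, d, m, F⟩ _
    by_contra hne
    push Not at hne
    apply hL
    have h2 : FP .poly (fun x : List Bool => UPf m ((n + 2) ^ n) F (outD p d x)) :=
      FP.UPfC (FP.outD_poly p d FP.id) _ _ _
    refine FP.patch h2 n fun x hx => ?_
    have h3 := hne (max x.length (outD p d x).length) x (le_max_left _ _)
    unfold test at h3
    simp only [Bool.and_eq_true, decide_eq_true_eq, not_and, Bool.not_eq_true', ne_eq,
      Bool.not_eq_false, beq_iff_eq] at h3
    exact h3 ⟨hx, le_max_right _ _⟩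
  obtain ⟨ℓ, hℓ⟩ := exists_uniform (tasks n)
    (fun q ℓ => ∃ x : List Bool, x.length ≤ ℓ ∧ test L n ℓ q x = true) (by
      rintro q ℓ ℓ' hℓ ⟨x, hx, h2⟩
      refine ⟨x, hx.trans hℓ, ?_⟩
      unfold test at h2 ⊢
      simp only [Bool.and_eq_true, decide_eq_true_eq] at h2 ⊢
      exact ⟨⟨h2.1.1, h2.1.2.trans hℓ⟩, h2.2⟩) h1
  refine ⟨ℓ, ?_⟩
  unfold D₀
  rw [List.all_eq_true]
  intro q hq
  obtain ⟨x, hx, h2⟩ := hℓ q hq
  rw [List.any_eq_true]
  exact ⟨x, (mem_strs _ _).2 hx, h2⟩

theorem outL_mono {p : List Instr} {t t' : ℕ} {x y : List Bool} (h : outL p t x = some y)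
    (ht : t ≤ t') : outL p t' x = some y := by
  obtain ⟨r, rfl⟩ := Nat.exists_eq_add_of_le ht
  unfold outL at h
  split_ifs at h with h1
  have h2 : stepL p ((stepL p)^[t] (0, [x])) = (stepL p)^[t] (0, [x]) := by
    generalize (stepL p)^[t] (0, [x]) = c at h1 ⊢
    unfold stepL
    rw [Option.not_isSome_iff_eq_none] at h1
    rw [h1]; rfl
  have h3 : (stepL p)^[t + r] (0, [x]) = (stepL p)^[t] (0, [x]) := by
    rw [Nat.add_comm, iterate_add_apply]
    exact iterate_fixed h2 r
  unfold outL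
  rw [h3, if_neg h1, h]

/-- A slow clock for the diagonalisation. -/
theorem exists_clock {L : List Bool → Bool} (hL : FP .any L) (hL' : ¬ FP .poly L) :
    ∃ D : ℕ → ℕ → Bool, FP .poly (fun q : ℕ × ℕ => D q.1 q.2) ∧
      (∀ k n, D k n = true → ∃ ℓ < k, D₀ L n ℓ = true) ∧ ∀ n, ∃ k > n, D k n = true := by
  obtain ⟨p, κ, Tm, hκ, hp, _, hrun⟩ := Cp.machine (FP.D₀ hL)
  have henc : ∀ n ℓ : ℕ, (enc (n, ℓ) : List Bool) =
      dl (List.replicate n true) ++ List.replicate ℓ true := fun n ℓ => rfl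
  let D : ℕ → ℕ → Bool := fun k n => (List.range k).any fun ℓ =>
    (outL p k (dl (List.replicate n true) ++ List.replicate ℓ true)).elim false
      fun y => decide (y = [true])
  have hrun' : ∀ n ℓ, ∃ t, outL p t (dl (List.replicate n true) ++ List.replicate ℓ true) =
      some [D₀ L n ℓ] := by
    intro n ℓ
    obtain ⟨t, _, ht⟩ := hrun (n, ℓ)
    refine ⟨t, ?_⟩
    rw [← henc]
    exact outL_of_halt ht rfl le_rfl
  refine ⟨D, ?_, ?_, ?_⟩
  · refine FP.anyB (l := fun q : ℕ × ℕ => List.range q.1) (g := fun (q : ℕ × ℕ) ℓ =>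
      (outL p q.1 (dl (List.replicate q.2 true) ++ List.replicate ℓ true)).elim false
      fun y => decide (y = [true])) (by fun_prop) ?_
    have h1 : FP .poly (fun b : (ℕ × ℕ) × ℕ => outL p b.1.1
        (dl (List.replicate b.1.2 true) ++ List.replicate b.2 true)) :=
      FP.outL_poly p (by fun_prop) (by fun_prop)
    fun_prop
  · intro k n h
    simp only [D, List.any_eq_true, List.mem_range] at h
    obtain ⟨ℓ, hℓ, h1⟩ := h
    refine ⟨ℓ, hℓ, ?_⟩
    cases h2 : outL p k (dl (List.replicate n true) ++ List.replicate ℓ true) with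
    | none => rw [h2] at h1; cases h1
    | some y =>
      rw [h2] at h1
      simp only [Option.elim_some, decide_eq_true_eq] at h1
      subst h1
      obtain ⟨t, ht⟩ := hrun' n ℓ
      have h3 := outL_mono h2 (le_max_left k t)
      rw [outL_mono ht (le_max_right k t)] at h3
      simpa using h3
  · intro n
    obtain ⟨ℓ, hℓ⟩ := exists_D₀ hL' n
    obtain ⟨t, ht⟩ := hrun' n ℓ
    refine ⟨max t (max (n + 1) (ℓ + 1)), by omega, ?_⟩
    simp only [D, List.any_eq_true, List.mem_range]
    refine ⟨ℓ, by omega, ?_⟩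
    rw [outL_mono ht (le_max_left _ _), hℓ]
    simp

/-- The last toggle and the parity of the number of toggles. -/
def tog (D : ℕ → ℕ → Bool) : ℕ → ℕ × Bool
  | 0 => (0, false)
  | k + 1 => if D (k + 1) (tog D k).1 then (k + 1, !(tog D k).2) else tog D k

theorem tog_le (D : ℕ → ℕ → Bool) (k : ℕ) : (tog D k).1 ≤ k := by
  induction k with
  | zero => exact le_rfl
  | succ k ih =>
    unfold tog
    split_ifs
    · exact le_rfl
    · omega

theorem FP.tog {D : ℕ → ℕ → Bool} (hD : FP .poly (fun q : ℕ × ℕ => D q.1 q.2)) :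
    FP .poly (fun k : ℕ => tog D k) := by
  have e : ∀ k, (fun s : ℕ × ℕ × Bool => (s.1 + 1, if D (s.1 + 1) s.2.1 then
      (s.1 + 1, !s.2.2) else s.2))^[k] (0, 0, false) = (k, HerCo.tog D k) := by
    intro k
    induction k with
    | zero => rfl
    | succ k ih => rw [iterate_succ_apply', ih]; rfl
  have h1 : FP .poly (fun k : ℕ => (fun s : ℕ × ℕ × Bool => (s.1 + 1, if D (s.1 + 1) s.2.1 then
      (s.1 + 1, !s.2.2) else s.2))^[k] (0, 0, false)) := by
    refine FP.nat_iterate (init := fun _ => (0, 0, false)) (h := fun (_ : ℕ)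
      (s : ℕ × ℕ × Bool) => (s.1 + 1, if D (s.1 + 1) s.2.1 then (s.1 + 1, !s.2.2) else s.2))
      (by fun_prop) ?_ FP.id fun _ => ?_
    · have h2 : FP .poly (fun p : ℕ × ℕ × ℕ × Bool => D (p.2.1 + 1) p.2.2.1) :=
        hD.comp (f := fun p : ℕ × ℕ × ℕ × Bool => (p.2.1 + 1, p.2.2.1)) (by fun_prop)
      fun_prop
    · refine ⟨fun k => 2 * k + 1 + (2 * k + 1 + 1), ?_, fun k i hi => ?_⟩
      · have h2 : Bd .poly (fun k : ℕ => k) := by
          have := (FP.id (α := ℕ) (m := .poly)).bd
          simpa only [sz_nat] using this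
        exact (((Bd.const 2).mul h2).add (Bd.const 1)).add ((((Bd.const 2).mul h2).add
          (Bd.const 1)).add (Bd.const 1))
      · rw [e]
        have h3 := tog_le D i
        generalize HerCo.tog D i = c at h3
        obtain ⟨c1, c2⟩ := c
        simp only [sz_prod, sz_nat, sz_bool]
        simp only at h3
        omega
  exact h1.snd.congr fun k => by rw [e]

theorem tog_phase {D : ℕ → ℕ → Bool} (hD : ∀ n, ∃ k > n, D k n = true) {n : ℕ} {b : Bool}
    (h : tog D n = (n, b)) : ∃ k > n, (∀ j, n ≤ j → j < k → tog D j = (n, b)) ∧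
      D k n = true ∧ tog D k = (k, !b) := by
  classical
  let k := Nat.find (hD n)
  have hk : k > n ∧ D k n = true := Nat.find_spec (hD n)
  have hmin : ∀ j < k, ¬ (j > n ∧ D j n = true) := fun j hj => Nat.find_min (hD n) hj
  have h1 : ∀ j, n ≤ j → j < k → tog D j = (n, b) := by
    intro j
    induction j with
    | zero =>
      intro hj _
      have : n = 0 := by omega
      rw [this] at h ⊢
      exact h
    | succ j ih =>
      intro hj hjk
      rcases Nat.lt_or_ge j n with h2 | h2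
      · have : n = j + 1 := by omega
        rw [this] at h ⊢
        exact h
      · have h3 := ih h2 (by omega)
        have h4 := hmin (j + 1) hjk
        unfold tog
        rw [h3, if_neg]
        exact fun h5 => h4 ⟨by omega, h5⟩
  refine ⟨k, hk.1, h1, hk.2, ?_⟩
  obtain ⟨j, hj⟩ : ∃ j, k = j + 1 := ⟨k - 1, by omega⟩
  have h2 := h1 j (by omega) (by omega)
  rw [hj]
  unfold tog
  rw [h2, if_pos (by rw [← hj]; exact hk.2)]

theorem exists_phase {D : ℕ → ℕ → Bool} (hD : ∀ n, ∃ k > n, D k n = true) (N : ℕ) (b : Bool) :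
    ∃ n ≥ N, tog D n = (n, b) := by
  have h1 : ∀ N, ∃ n ≥ N, ∃ b, tog D n = (n, b) := by
    intro N
    induction N with
    | zero => exact ⟨0, le_rfl, false, rfl⟩
    | succ N ih =>
      obtain ⟨n, hn, b, hb⟩ := ih
      obtain ⟨k, hk, _, _, h2⟩ := tog_phase hD hb
      exact ⟨k, by omega, _, h2⟩
  obtain ⟨n, hn, b', hb⟩ := h1 N
  by_cases hbb : b' = b
  · subst hbb; exact ⟨n, hn, hb⟩
  · obtain ⟨k, hk, _, _, h2⟩ := tog_phase hD hb
    refine ⟨k, by omega, ?_⟩
    rw [h2]
    cases b <;> cases b' <;> simp_all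

/-- The gap set. -/
theorem exists_gap {L : List Bool → Bool} (hL : FP .any L) (hL' : ¬ FP .poly L) :
    ∃ K : ℕ → Bool, FP .poly K ∧ ∀ (b : Bool) (f : List Bool → List Bool), FP .poly f →
      ∀ m N : ℕ, ∃ n ≥ N, ∃ k, (∀ j, n ≤ j → j < k → K j = b) ∧ ∀ P : List Bool → Bool,
        ∃ F : List (List Bool), (∀ s, s ∈ F ↔ s.length ≤ (n + 2) ^ n ∧ P s = true) ∧
        ∃ x : List Bool, n ≤ x.length ∧ x.length < k ∧ (f x).length < k ∧
          L x ≠ UPf m ((n + 2) ^ n) F (f x) := by
  obtain ⟨D, hD1, hD2, hD3⟩ := exists_clock hL hL'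
  refine ⟨fun k => (tog D k).2, (FP.tog hD1).snd, ?_⟩
  intro b f hf m N
  obtain ⟨p, κ, Tm, hκ, hp, ⟨d, hd⟩, hrun⟩ := Cp.machine
    (Cp.of_FP (e := fun x : List Bool => x) hf)
  have hout : ∀ x, outD p d x = f x := by
    intro x
    obtain ⟨t, ht, h1⟩ := hrun x
    unfold outD
    rw [outL_of_halt h1 (y := f x) (by simp [ini]) (ht.trans (hd x))]
    rfl
  obtain ⟨N₁, hN₁⟩ := exists_mem_progs p
  obtain ⟨n, hn, hnb⟩ := exists_phase hD3 (N + N₁ + d + m + 1) b
  obtain ⟨k, hk, hk1, hk2, _⟩ := tog_phase hD3 hnb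
  refine ⟨n, by omega, k, fun j hj hjk => congrArg Prod.snd (hk1 j hj hjk), fun P => ?_⟩
  obtain ⟨F, hF, hF2⟩ := exists_mem_subl (strs ((n + 2) ^ n)) P
  refine ⟨F, fun s => by rw [hF2, mem_strs], ?_⟩
  obtain ⟨ℓ, hℓ, h1⟩ := hD2 k n hk2
  unfold D₀ at h1
  rw [List.all_eq_true] at h1
  have h2 := h1 (p, d, m, F) (mem_tasks.2 ⟨hN₁ n (by omega), by omega, by omega, hF⟩)
  rw [List.any_eq_true] at h2
  obtain ⟨x, hx, h3⟩ := h2
  rw [mem_strs] at hx
  unfold test at h3
  simp only [Bool.and_eq_true, decide_eq_true_eq, Bool.not_eq_true', beq_eq_false_iff_ne, ne_eq,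
    hout] at h3
  exact ⟨x, h3.1.1, by omega, by omega, h3.2⟩

end HerCo
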