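import Pool.Agent.Lib.MP_a28c52_lc.Psi
import Pool.Agent.Lib.MP_a28c52_lc.Gap

/-! Assembly: coNP-intermediate hereditary model checking. -/

namespace HerCo

open Function FirstOrder FirstOrder.Language N68a2faeb N793a5b8e

theorem compl_apply (L : DecisionProblem) (x : List Bool) : Lᶜ x = !(L x) := rfl

theorem P_subset_NP : N68a2faeb.P ⊆ N68a2faeb.NP := by
  intro L hL
  have h1 : FP .poly L := (isPolyTime_bool L).1 hL
  refine ⟨0, fun q => L q.1, (isPolyTime_pair _).2 (h1.comp (by fun_prop)), fun x => ?_⟩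
  constructor
  · intro h; exact ⟨[], by simp, h⟩
  · rintro ⟨w, _, h⟩; exact h

/-- The verifier. -/
def Vf (K : ℕ → Bool) (q : Polynomial ℕ) (R : List Bool × List Bool → Bool) (u : List Bool) :
    Bool :=
  decide (dl (fstS u) ++ sndS u = u) && K (fstS u).length &&
    decide ((sndS u).length ≤ q.eval (fstS u).length) && R (fstS u, sndS u)

theorem FP.Vf {K : ℕ → Bool} {q : Polynomial ℕ} {R : List Bool × List Bool → Bool}
    (hK : FP .poly K) (hR : FP .poly R) : FP .poly (fun u => Vf K q R u) := by
  have h1 : FP .poly (fun u : List Bool => K (HerCo.fstS u).length) := hK.comp (by fun_prop)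
  have h2 : FP .poly (fun u : List Bool => R (HerCo.fstS u, HerCo.sndS u)) := hR.comp (by fun_prop)
  unfold HerCo.Vf
  fun_prop

theorem Vf_iff {K : ℕ → Bool} {q : Polynomial ℕ} {R : List Bool × List Bool → Bool}
    (u : List Bool) : Vf K q R u = true ↔ ∃ x w, u = dl x ++ w ∧ K x.length = true ∧
      w.length ≤ q.eval x.length ∧ R (x, w) = true := by
  unfold Vf
  simp only [Bool.and_eq_true, decide_eq_true_eq]
  constructor
  · rintro ⟨⟨⟨h1, h2⟩, h3⟩, h4⟩
    exact ⟨_, _, h1.symm, h2, h3, h4⟩
  · rintro ⟨x, w, rfl, h2, h3, h4⟩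
    rw [fstS_dl, sndS_dl]
    exact ⟨⟨⟨rfl, h2⟩, h3⟩, h4⟩

theorem mc_not {m : ℕ} (ψ : (binLang m).Sentence) (y : List Bool) (l : List ℕ) :
    mc (Formula.not ψ) y l [] = !(mc ψ y l []) := by
  show mc (BoundedFormula.imp ψ BoundedFormula.falsum) y l [] = _
  simp only [mc, Bool.or_false]

theorem her_not {m : ℕ} (ψ : (binLang m).Sentence) (y : List Bool) :
    Hereditarily (Formula.not ψ) y ↔ ¬ UPs ψ y := by
  rw [hereditarily_iff]
  unfold UPs
  push Not
  refine forall_congr' fun l => forall_congr' fun _ => forall_congr' fun _ => ?_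
  rw [mc_not]
  simp

theorem HER_eq_false {m : ℕ} (ψ : (binLang m).Sentence) (y : List Bool) :
    HER (Formula.not ψ) y = false ↔ (IsCode m y → UPs ψ y) := by
  unfold HER
  rw [decide_eq_false_iff_not, her_not]
  tauto

theorem numElems_le (y : List Bool) : numElems y ≤ y.length :=
  (List.takeWhile_sublist _).length_le

/-- Membership in coNP. -/
theorem HER_mem_coNP {m : ℕ} (ψ : (binLang m).Sentence) :
    HER (Formula.not ψ) ∈ N68a2faeb.coNP := by
  let lw : List Bool × List Bool → List ℕ := fun q =>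
    (List.range (numElems q.1)).filter fun i => q.2.getD i false
  have hlw : FP .poly lw := by
    refine FP.filter (l := fun q : List Bool × List Bool => List.range (numElems q.1))
      (g := fun q i => q.2.getD i false) (by fun_prop) (by fun_prop)
  refine ⟨Polynomial.X, fun q => !(validB m q.1) || (!(lw q).isEmpty && mc ψ q.1 (lw q) []),
    (isPolyTime_pair _).2 ?_, fun y => ?_⟩
  · have h1 : FP .poly (fun q : List Bool × List Bool => mc ψ q.1 (lw q) []) :=
      FP.mc ψ (by fun_prop) hlw (by fun_prop)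
    fun_prop
  · rw [compl_apply, Polynomial.eval_X]
    simp only [Bool.or_eq_true, Bool.not_eq_true', Bool.and_eq_true, HER_eq_false,
      List.isEmpty_eq_false_iff]
    rw [← validB_iff]
    constructor
    · intro h
      by_cases h0 : validB m y = true
      · obtain ⟨l, hl1, hl2, hl3⟩ := h h0
        have hmem : ∀ a, a ∈ l ↔ a ∈ lw (y, (List.range (numElems y)).map
            fun i => decide (i ∈ l)) := by
          intro a
          simp only [lw, List.mem_filter, List.mem_range]
          constructor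
          · intro ha
            refine ⟨hl2 a ha, ?_⟩
            rw [List.getD_eq_getElem?_getD, List.getElem?_map, List.getElem?_range (hl2 a ha)]
            simpa using ha
          · rintro ⟨ha, h1⟩
            rw [List.getD_eq_getElem?_getD, List.getElem?_map, List.getElem?_range ha] at h1
            simpa using h1
        refine ⟨(List.range (numElems y)).map fun i => decide (i ∈ l), ?_, .inr ⟨?_, ?_⟩⟩
        · rw [List.length_map, List.length_range]
          exact numElems_le y
        · obtain ⟨a, ha⟩ := List.exists_mem_of_ne_nil l hl1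
          intro h1
          have := (hmem a).1 ha
          rw [h1] at this
          simp at this
        · rw [← mc_congr ψ y l _ hmem]
          exact hl3
      · exact ⟨[], by simp, .inl (by simpa using h0)⟩
    · rintro ⟨w, hw, h1 | ⟨h1, h2⟩⟩ h0
      · rw [h1] at h0; cases h0
      · refine ⟨lw (y, w), h1, fun a ha => ?_, h2⟩
        simp only [lw, List.mem_filter, List.mem_range] at ha
        exact ha.1

theorem length_le_of_nodup {l : List ℕ} {N : ℕ} (hl : l.Nodup) (h : ∀ a ∈ l, a < N) :
    l.length ≤ N := by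
  have h1 : l.toFinset ⊆ Finset.range N := fun a ha => by
    rw [List.mem_toFinset] at ha
    exact Finset.mem_range.2 (h a ha)
  have h2 := Finset.card_le_card h1
  rwa [List.toFinset_card_of_nodup hl, Finset.card_range] at h2

theorem size_bound (e c m : ℕ) : ∃ E, ∀ n ≥ E, ∀ l : ℕ,
    l ≤ ((2 * n + 1 + (n + 2) ^ e) + 2) ^ c → l + 1 + m * (l * l) ≤ (n + 2) ^ n := by
  let h := (e + 3) * c
  refine ⟨3 * h + m + 2, fun n hn l hl => ?_⟩
  have ha : 2 ≤ n + 2 := by omega
  have h1 : 2 * n + 1 + (n + 2) ^ e + 2 ≤ (n + 2) ^ (e + 3) := by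
    have h2 := pow_add_le ha 2 e
    have h3 : 2 * n + 3 ≤ (n + 2) ^ 2 := by nlinarith
    have h4 : 2 + e + 1 = e + 3 := by omega
    rw [h4] at h2
    omega
  have h2 : l ≤ (n + 2) ^ h := by
    refine hl.trans ((Nat.pow_le_pow_left h1 c).trans ?_)
    rw [← pow_mul]
  have h3 : m ≤ (n + 2) ^ m := (Nat.lt_two_pow_self).le.trans (Nat.pow_le_pow_left ha _)
  have h4 : m * (l * l) ≤ (n + 2) ^ (m + 2 * h) := by
    have h5 : m * (l * l) ≤ (n + 2) ^ m * ((n + 2) ^ h * (n + 2) ^ h) :=
      Nat.mul_le_mul h3 (Nat.mul_le_mul h2 h2)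
    refine h5.trans (le_of_eq ?_)
    rw [pow_add, two_mul, pow_add]
  have h5 := pow_add_le ha h 0
  have h6 := pow_add_le ha (h + 0 + 1) (m + 2 * h)
  have h7 : (n + 2) ^ (h + 0 + 1 + (m + 2 * h) + 1) ≤ (n + 2) ^ n :=
    Nat.pow_le_pow_right (by omega) (by omega)
  rw [pow_zero] at h5
  omega

theorem main (hPNP : N68a2faeb.P ≠ N68a2faeb.NP) :
    ∃ (m : ℕ) (φ : (binLang m).Sentence), CoNPIntermediate (HER φ) := by
  obtain ⟨L, hLNP, hLP⟩ : ∃ L ∈ N68a2faeb.NP, L ∉ N68a2faeb.P := by
    by_contra hne
    push Not at hne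
    exact hPNP (Set.Subset.antisymm P_subset_NP hne)
  have hLP' : ¬ FP .poly L := fun h => hLP ((isPolyTime_bool L).2 h)
  have hLc : Lᶜ ∈ N68a2faeb.coNP := by
    show Lᶜᶜ ∈ N68a2faeb.NP
    rw [compl_compl]
    exact hLNP
  obtain ⟨q, R, hR, hLR⟩ := hLNP
  rw [isPolyTime_pair] at hR
  have hLany : FP .any L := by
    have h1 : FP .any (fun x : List Bool => (HerCo.strs (q.eval x.length)).any
        fun w => R (x, w)) := by
      have h2 := hR.toAny
      refine FP.anyB (l := fun x : List Bool => HerCo.strs (q.eval x.length))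
        (g := fun x w => R (x, w)) (by fun_prop) ?_
      exact h2.comp (by fun_prop)
    refine h1.congr fun x => ?_
    rw [Bool.eq_iff_iff, hLR, List.any_eq_true]
    exact exists_congr fun w => and_congr_left' (mem_strs _ _)
  obtain ⟨K, hK, hgap⟩ := exists_gap hLany hLP'
  obtain ⟨m, ψ, c, G, hG, hGcode, hψ1, hψ2, hψ3⟩ := exists_psi (FP.Vf (q := q) hK hR)
  refine ⟨m, Formula.not ψ, HER_mem_coNP ψ, fun hP => ?_, fun hcomp => ?_⟩
  · -- not in P
    have hP' : FP .poly (HER (Formula.not ψ)) := (isPolyTime_bool _).1 hP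
    let T : List Bool → ℕ := fun x => (2 * x.length + 1 + q.eval x.length + 2) ^ c
    have hT : FP .poly T := by
      show FP .poly (fun x : List Bool => (2 * x.length + 1 + q.eval x.length + 2) ^ c)
      fun_prop
    let LK : List Bool → Bool := fun x => !(HER (Formula.not ψ) (G (T x) (dl x)))
    have hLK : FP .poly LK := by
      have h1 : FP .poly (fun x => G (T x) (dl x)) :=
        hG.comp (f := fun x : List Bool => (T x, dl x)) (hT.pair (FP.dl FP.id))
      exact FP.not (hP'.comp h1)
    have hLK2 : ∀ x, LK x = true ↔ K x.length = true ∧ L x = true := by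
      intro x
      simp only [LK, Bool.not_eq_true']
      rw [HER_eq_false]
      constructor
      · intro h
        obtain ⟨w, hw⟩ := hψ2 _ _ (h (hGcode _ _))
        rw [Vf_iff] at hw
        obtain ⟨x', w', h1, h2, h3, h4⟩ := hw
        obtain ⟨rfl, rfl⟩ := dl_inj h1
        exact ⟨h2, (hLR x).2 ⟨w, h3, h4⟩⟩
      · rintro ⟨h1, h2⟩ _
        obtain ⟨w, h3, h4⟩ := (hLR x).1 h2
        refine hψ3 _ _ w ((Vf_iff _).2 ⟨x, w, rfl, h1, h3, h4⟩) ?_
        refine Nat.pow_le_pow_left ?_ c
        rw [List.length_append, length_dl]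
        omega
    obtain ⟨n, _, k, hk, h1⟩ := hgap true (fun x => if LK x then [] else [true, false])
      (FP.ite hLK (FP.const _) (FP.const _)) 0 0
    obtain ⟨F, hF, x, hx1, hx2, hx3, hx4⟩ := h1 (fun _ => false)
    apply hx4
    have hKx : K x.length = true := hk _ hx1 hx2
    have hLL : LK x = L x := by
      rw [Bool.eq_iff_iff, hLK2, hKx]
      simp
    rw [← hLL]
    cases h : LK x with
    | true =>
      symm
      simp only [if_true]
      rw [UPf_iff]
      intro h2
      exact absurd h2.1 (by simp [numElems])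
    | false =>
      symm
      simp only [Bool.false_eq_true, if_false]
      rw [← Bool.not_eq_true, UPf_iff]
      intro h2
      obtain ⟨l, _, _, _, _, h3⟩ := h2 ⟨by simp [numElems], by simp [numElems]⟩
      rw [hF] at h3
      simp at h3
  · -- not complete
    obtain ⟨f, hf, hfx⟩ := hcomp.2 _ hLc
    rw [isPolyTime_list] at hf
    obtain ⟨e, he⟩ := poly_bound q
    obtain ⟨E, hE⟩ := size_bound e c m
    obtain ⟨n, hn, k, hk, h1⟩ := hgap false f hf m E
    obtain ⟨F, hF, x, hx1, hx2, hx3, hx4⟩ := h1 (fun s => sat ψ s)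
    apply hx4
    have h2 : L x = !(HER (Formula.not ψ) (f x)) := by
      rw [← hfx, compl_apply, Bool.not_not]
    rw [h2, Bool.eq_iff_iff, UPf_iff, Bool.not_eq_true', HER_eq_false]
    refine imp_congr_right fun hcode => ?_
    constructor
    · rintro ⟨l, hl1, hl2, hl3⟩
      have hmem : ∀ a, a ∈ l ↔ a ∈ l.dedup := fun a => List.mem_dedup.symm
      have hl1' : l.dedup ≠ [] := by
        obtain ⟨a, ha⟩ := List.exists_mem_of_ne_nil l hl1
        intro h3
        have := (hmem a).1 ha
        rw [h3] at this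
        simp at this
      have hl3' : mc ψ (f x) l.dedup [] = true := by
        rw [← mc_congr ψ (f x) l _ hmem]; exact hl3
      have hl2' : ∀ a ∈ l.dedup, a < numElems (f x) := fun a ha => hl2 a ((hmem a).2 ha)
      obtain ⟨u, hu1, hu2, hu3⟩ := hψ1 _ _ hl1' l.nodup_dedup hl3'
      rw [Vf_iff] at hu1
      obtain ⟨x', w', hu4, hu5, hu6, _⟩ := hu1
      have h4 := length_le_of_nodup l.nodup_dedup hl2'
      have h5 := numElems_le (f x)
      have hul : u.length = 2 * x'.length + 1 + w'.length := by
        rw [hu4, List.length_append, length_dl]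
      have h6 : x'.length < n := by
        by_contra h7
        have := hk x'.length (by omega) (by omega)
        rw [this] at hu5
        cases hu5
      have h7 : w'.length ≤ (n + 2) ^ e :=
        hu6.trans ((he _).trans (Nat.pow_le_pow_left (by omega) _))
      have h8 : l.dedup.length ≤ (2 * n + 1 + (n + 2) ^ e + 2) ^ c :=
        hu3.trans (Nat.pow_le_pow_left (by omega) _)
      have h9 := hE n hn _ h8
      refine ⟨l.dedup, hl1', l.nodup_dedup, hl2', by omega, ?_⟩
      rw [hF]
      refine ⟨?_, ?_⟩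
      · unfold induced
        rw [length_codeOf]
        omega
      · rw [← mc_induced ψ _ _ l.nodup_dedup]
        exact hl3'
    · rintro ⟨l, hl1, hl2, hl3, _, hl4⟩
      rw [hF, ← mc_induced ψ _ _ hl2] at hl4
      exact ⟨l, hl1, hl3, hl4.2⟩

end HerCo
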