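import Pool.Agent.Lib.MP_a28c52_lc.Cmd

/-! Frames of registers, basic routines. -/

namespace HerCo

open Function

/-- The store which agrees with `s` below `base` and holds the stacks of `l` from `base` on. -/
def fr (s : Store) (base : ℕ) (l : List (List Bool)) : Store :=
  fun j => if j < base then s j else l.getD (j - base) []

theorem fr_get (s : Store) (base : ℕ) (l : List (List Bool)) (i : ℕ) :
    fr s base l (base + i) = l.getD i [] := by
  simp [fr]

theorem fr_update (s : Store) (base : ℕ) (l : List (List Bool)) (i : ℕ) (v : List Bool)
    (hi : i < l.length) : update (fr s base l) (base + i) v = fr s base (l.set i v) := by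
  funext j
  by_cases hj : j = base + i
  · subst hj
    rw [update_self, fr_get, List.getD_eq_getElem?_getD, List.getElem?_set_self hi]
    rfl
  · rw [update_of_ne hj]
    unfold fr
    by_cases hb : j < base
    · simp [hb]
    · simp only [hb, if_false]
      rw [List.getD_eq_getElem?_getD, List.getD_eq_getElem?_getD, List.getElem?_set_ne]
      omega

theorem fr_snoc_nil (s : Store) (base : ℕ) (l : List (List Bool)) :
    fr s base (l ++ [[]]) = fr s base l := by
  funext j
  unfold fr
  by_cases hb : j < base
  · simp [hb]
  · simp only [hb, if_false]
    rw [List.getD_eq_getElem?_getD, List.getD_eq_getElem?_getD]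
    rcases lt_trichotomy (j - base) l.length with h | h | h
    · rw [List.getElem?_append_left h]
    · rw [h]; simp
    · rw [List.getElem?_eq_none (by simp; omega), List.getElem?_eq_none (by omega)]

theorem fr_single (s : Store) (base : ℕ) (hs : ∀ j, base < j → s j = []) (v : List Bool) :
    fr s base [v] = update s base v := by
  funext j
  unfold fr
  rcases lt_trichotomy j base with h | h | h
  · simp [h, update_of_ne h.ne]
  · subst h; simp
  · rw [if_neg (by omega), update_of_ne h.ne', hs j h]
    rw [List.getD_eq_getElem?_getD, List.getElem?_eq_none (by simp; omega)]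
    rfl

theorem fr_self (s : Store) (base : ℕ) (hs : ∀ j, base < j → s j = []) :
    fr s base [s base] = s := by
  rw [fr_single s base hs, update_eq_self]

theorem fr_above (s : Store) (base : ℕ) (l : List (List Bool)) (v : List Bool) (j : ℕ)
    (hj : base + l.length < j) : fr s base (l ++ [v]) j = [] := by
  unfold fr
  rw [if_neg (by omega), List.getD_eq_getElem?_getD, List.getElem?_eq_none (by simp; omega)]
  rfl

theorem Does.congr {c : Cmd} {s s' s'' : Store} {T : ℕ} (h : Does c s s' T) (e : s' = s'') :
    Does c s s'' T := e ▸ h

/-- Move the stack `a` onto the stack `b`, reversing it. -/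
def moveRev (a b : ℕ) : Cmd :=
  .loop a (.ifte a .skip (.seq (.pop a) (.push b false)) (.seq (.pop a) (.push b true)))

theorem does_moveRev_aux (a b : ℕ) (hab : a ≠ b) (l : List Bool) : ∀ (s : Store), s a = l →
    Does (moveRev a b) s (update (update s a []) b (l.reverse ++ s b)) (5 * l.length + 1) := by
  induction l with
  | nil =>
    intro s hs
    refine (Does.loopE hs).congr ?_ |>.mono (by simp)
    have : update s a [] = s := by rw [← hs, update_eq_self]
    rw [this]
    simp
  | cons x l ih =>
    intro s hs
    have hbody : Does (.ifte a .skip (.seq (.pop a) (.push b false))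
        (.seq (.pop a) (.push b true))) s (update (update s a l) b (x :: s b)) 4 := by
      have h1 : Does (.seq (.pop a) (.push b x)) s (update (update s a l) b (x :: s b)) 3 := by
        refine ((Does.pop a s).seq (Does.push b x _)).congr ?_
        rw [hs, update_of_ne hab.symm]
        rfl
      cases x with
      | false => exact Does.ifF hs h1
      | true => exact Does.ifT hs h1
    have h2 := ih (update (update s a l) b (x :: s b)) (by
      rw [update_of_ne hab, update_self])
    refine (Does.loopS hs hbody h2).congr ?_ |>.mono (by simp; omega)
    funext j
    by_cases hjb : j = b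
    · subst hjb; simp
    · by_cases hja : j = a
      · subst hja; simp [update_of_ne hjb]
      · simp [update_of_ne hjb, update_of_ne hja]

theorem does_moveRev {s : Store} {base i j : ℕ} (l : List (List Bool)) (hi : i < l.length)
    (hj : j < l.length) (hij : i ≠ j) :
    Does (moveRev (base + i) (base + j)) (fr s base l)
      (fr s base ((l.set i []).set j ((l.getD i []).reverse ++ l.getD j [])))
      (5 * (l.getD i []).length + 1) := by
  have := does_moveRev_aux (base + i) (base + j) (by omega) _ (fr s base l) rfl
  rw [fr_get] at this
  refine this.congr ?_
  rw [fr_update _ _ _ _ _ hi, fr_update _ _ _ _ _ (by simpa using hj), fr_get]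

/-- Move the stack `c` onto both stacks `a` and `b`, reversing it. -/
def copyRev (c a b : ℕ) : Cmd :=
  .loop c (.ifte c .skip (.seq (.pop c) (.seq (.push a false) (.push b false)))
    (.seq (.pop c) (.seq (.push a true) (.push b true))))

theorem does_copyRev_aux (c a b : ℕ) (hca : c ≠ a) (hcb : c ≠ b) (hab : a ≠ b) (l : List Bool) :
    ∀ (s : Store), s c = l →
    Does (copyRev c a b) s (update (update (update s c []) a (l.reverse ++ s a)) b
      (l.reverse ++ s b)) (7 * l.length + 1) := by
  induction l with
  | nil =>
    intro s hs
    refine (Does.loopE hs).congr ?_ |>.mono (by simp)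
    have : update s c [] = s := by rw [← hs, update_eq_self]
    rw [this]
    simp
  | cons x l ih =>
    intro s hs
    have hbody : Does (.ifte c .skip (.seq (.pop c) (.seq (.push a false) (.push b false)))
        (.seq (.pop c) (.seq (.push a true) (.push b true)))) s
        (update (update (update s c l) a (x :: s a)) b (x :: s b)) 6 := by
      have h1 : Does (.seq (.pop c) (.seq (.push a x) (.push b x))) s
          (update (update (update s c l) a (x :: s a)) b (x :: s b)) 5 := by
        refine ((Does.pop c s).seq ((Does.push a x _).seq (Does.push b x _))).congr ?_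
        rw [hs, update_of_ne hab.symm, update_of_ne hca.symm, update_of_ne hcb.symm]
        rfl
      cases x with
      | false => exact Does.ifF hs h1
      | true => exact Does.ifT hs h1
    have h2 := ih (update (update (update s c l) a (x :: s a)) b (x :: s b)) (by
      rw [update_of_ne hcb, update_of_ne hca, update_self])
    refine (Does.loopS hs hbody h2).congr ?_ |>.mono (by simp; omega)
    funext j
    by_cases hjb : j = b
    · subst hjb; simp
    · by_cases hja : j = a
      · subst hja; simp [update_of_ne hjb]
      · by_cases hjc : j = c
        · subst hjc; simp [update_of_ne hjb, update_of_ne hja]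
        · simp [update_of_ne hjb, update_of_ne hja, update_of_ne hjc]

theorem does_copyRev {s : Store} {base i j k : ℕ} (l : List (List Bool)) (hi : i < l.length)
    (hj : j < l.length) (hk : k < l.length) (hij : i ≠ j) (hik : i ≠ k) (hjk : j ≠ k) :
    Does (copyRev (base + i) (base + j) (base + k)) (fr s base l)
      (fr s base (((l.set i []).set j ((l.getD i []).reverse ++ l.getD j [])).set k
        ((l.getD i []).reverse ++ l.getD k [])))
      (7 * (l.getD i []).length + 1) := by
  have := does_copyRev_aux (base + i) (base + j) (base + k) (by omega) (by omega) (by omega)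
    _ (fr s base l) rfl
  rw [fr_get] at this
  refine this.congr ?_
  rw [fr_update _ _ _ _ _ hi, fr_update _ _ _ _ _ (by simpa using hj),
    fr_update _ _ _ _ _ (by simpa using hk), fr_get, fr_get]

/-- Empty a stack. -/
def clear (a : ℕ) : Cmd := .loop a (.pop a)

theorem does_clear_aux (a : ℕ) (l : List Bool) : ∀ (s : Store), s a = l →
    Does (clear a) s (update s a []) (2 * l.length + 1) := by
  induction l with
  | nil =>
    intro s hs
    refine (Does.loopE hs).congr ?_ |>.mono (by simp)
    rw [← hs, update_eq_self]
  | cons x l ih =>
    intro s hs
    have h1 : Does (.pop a) s (update s a l) 1 := (Does.pop a s).congr (by rw [hs]; rfl)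
    refine (Does.loopS hs h1 (ih _ (by simp))).congr (by simp) |>.mono (by simp; omega)

theorem does_clear {s : Store} {base i : ℕ} (l : List (List Bool)) (hi : i < l.length) :
    Does (clear (base + i)) (fr s base l) (fr s base (l.set i []))
      (2 * (l.getD i []).length + 1) := by
  have := does_clear_aux (base + i) _ (fr s base l) rfl
  rw [fr_get] at this
  refine this.congr ?_
  rw [fr_update _ _ _ _ _ hi]

theorem does_push {s : Store} {base i : ℕ} (l : List (List Bool)) (b : Bool)
    (hi : i < l.length) :
    Does (.push (base + i) b) (fr s base l) (fr s base (l.set i (b :: l.getD i []))) 1 := by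
  refine (Does.push _ _ _).congr ?_
  rw [fr_update _ _ _ _ _ hi, fr_get]

theorem does_pop {s : Store} {base i : ℕ} (l : List (List Bool))
    (hi : i < l.length) :
    Does (.pop (base + i)) (fr s base l) (fr s base (l.set i (l.getD i []).tail)) 1 := by
  refine (Does.pop _ _).congr ?_
  rw [fr_update _ _ _ _ _ hi, fr_get]

end HerCo
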