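import Pool.Agent.Lib.MP_a28c52_lc.ToTM

/-! Functions computed by polynomial-time `FinTM2` machines are computable in our sense. -/

namespace HerCo

open Function Turing StateTransition

variable {α β γ δ σ : Type} [Enc α] [Enc β] [Enc γ] [Enc δ] [Enc σ] {m : Mode}

@[fun_prop]
theorem FP.set [Inhabited β] {l : α → List β} {k : α → ℕ} {v : α → β} (hl : FP m l)
    (hk : FP m k) (hv : FP m v) : FP m (fun a => (l a).set (k a) (v a)) := by
  have h1 : FP m (fun a => (List.range (l a).length).map (fun j =>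
      if j = k a then v a else (l a).getD j default)) := by fun_prop
  refine h1.congr fun a => ?_
  apply List.ext_getElem?
  intro i
  rw [List.getElem?_map]
  by_cases hi : i < (l a).length
  · rw [List.getElem?_range hi]
    by_cases hik : i = k a
    · subst hik
      simp [List.getElem?_set_self hi]
    · rw [List.getElem?_set_ne (Ne.symm hik)]
      simp [hik, List.getD_eq_getElem?_getD, List.getElem?_eq_getElem hi]
  · rw [List.getElem?_eq_none (by simp; omega), List.getElem?_eq_none (by simp; omega)]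
    rfl

theorem sz_set_le [Inhabited β] (l : List β) (k : ℕ) (v : β) :
    sz (l.set k v) + 2 * sz (l.getD k default) ≤ sz l + 2 * sz v + 2 * sz (default : β) := by
  induction l generalizing k with
  | nil => simp
  | cons b l ih =>
    cases k with
    | zero => simp; omega
    | succ k =>
      have := ih k
      simp only [List.set_cons_succ, sz_cons, List.getD_cons_succ]
      omega

section Sim

variable (tm : FinTM2) (syms : List (Σ k, tm.Γ k))

noncomputable def cK (k : tm.K) : ℕ :=
  letI := tm.kFin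
  (Fintype.equivFin tm.K k).1

noncomputable def nK : ℕ := letI := tm.kFin; Fintype.card tm.K

noncomputable def cV (v : tm.σ) : ℕ :=
  letI := tm.σFin
  (Fintype.equivFin tm.σ v).1

noncomputable def nV : ℕ := letI := tm.σFin; Fintype.card tm.σ

noncomputable def cL (l : tm.Λ) : ℕ :=
  letI := tm.ΛFin
  (Fintype.equivFin tm.Λ l).1

noncomputable def nL : ℕ := letI := tm.ΛFin; Fintype.card tm.Λ

theorem cK_lt (k : tm.K) : cK tm k < nK tm := by
  unfold cK nK; exact Fin.isLt _

theorem cV_lt (k : tm.σ) : cV tm k < nV tm := by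
  unfold cV nV; exact Fin.isLt _

theorem cL_lt (k : tm.Λ) : cL tm k < nL tm := by
  unfold cL nL; exact Fin.isLt _

theorem cL_inj {k k' : tm.Λ} (h : cL tm k = cL tm k') : k = k' := by
  let _ := tm.ΛFin
  exact (Fintype.equivFin tm.Λ).injective (Fin.ext h)

/-- Table of a function on stacks. -/
noncomputable def tabK {δ : Type} (f : tm.K → δ) : List δ :=
  letI := tm.kFin
  List.ofFn (fun i => f ((Fintype.equivFin tm.K).symm i))

theorem length_tabK {δ : Type} (f : tm.K → δ) : (tabK tm f).length = nK tm := by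
  unfold tabK nK; simp

theorem tabK_get {δ : Type} (f : tm.K → δ) (k : tm.K) : (tabK tm f)[cK tm k]? = some (f k) := by
  let _ := tm.kFin
  unfold tabK cK
  rw [List.getElem?_ofFn]
  simp

theorem tabK_update {δ : Type} (f : tm.K → δ) (k : tm.K) (v : δ) :
    tabK tm (@update _ (fun _ => δ) tm.kDecidableEq f k v) = (tabK tm f).set (cK tm k) v := by
  let _ := tm.kFin
  apply List.ext_getElem?
  intro i
  by_cases hi : i < nK tm
  · have h1 : ∃ k', cK tm k' = i := ⟨(Fintype.equivFin tm.K).symm ⟨i, hi⟩, by simp [cK]⟩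
    obtain ⟨k', rfl⟩ := h1
    rw [tabK_get]
    by_cases hk : k' = k
    · subst hk
      rw [List.getElem?_set_self (by rw [length_tabK]; exact hi), update_self]
    · have h2 : cK tm k ≠ cK tm k' := fun h => hk
        ((Fintype.equivFin tm.K).injective (Fin.ext h)).symm
      rw [List.getElem?_set_ne h2, tabK_get, update_of_ne hk]
  · rw [List.getElem?_eq_none (by rw [length_tabK]; omega),
      List.getElem?_eq_none (by rw [List.length_set, length_tabK]; omega)]

/-- Table of a function on internal states. -/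
noncomputable def tabV {δ : Type} (f : tm.σ → δ) : List δ :=
  letI := tm.σFin
  List.ofFn (fun i => f ((Fintype.equivFin tm.σ).symm i))

theorem tabV_get {δ : Type} (f : tm.σ → δ) (v : tm.σ) (d : δ) :
    (tabV tm f).getD (cV tm v) d = f v := by
  let _ := tm.σFin
  unfold tabV cV
  rw [List.getD_eq_getElem?_getD, List.getElem?_ofFn]
  simp

theorem mem_tabV {δ : Type} (f : tm.σ → δ) {d : δ} (h : d ∈ tabV tm f) : ∃ v, d = f v := by
  unfold tabV at h
  obtain ⟨i, hi⟩ := (List.mem_ofFn' _ _).1 h
  exact ⟨_, hi.symm⟩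

/-- Code of a symbol. -/
noncomputable def cS (x : Σ k, tm.Γ k) : ℕ :=
  open Classical in syms.idxOf x

theorem cS_get {x : Σ k, tm.Γ k} (h : x ∈ syms) : syms[cS tm syms x]? = some x := by
  classical
  unfold cS
  have h1 := List.idxOf_lt_length_iff.2 h
  rw [List.getElem?_eq_getElem h1, List.getElem_idxOf h1]

/-- Code of the stacks. -/
noncomputable def codeStk (S : ∀ k, List (tm.Γ k)) : List (List ℕ) :=
  tabK tm (fun k => (S k).map (fun a => cS tm syms ⟨k, a⟩))

theorem codeStk_get (S : ∀ k, List (tm.Γ k)) (k : tm.K) :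
    (codeStk tm syms S).getD (cK tm k) [] = (S k).map (fun a => cS tm syms ⟨k, a⟩) := by
  unfold codeStk
  rw [List.getD_eq_getElem?_getD, tabK_get]
  rfl

theorem codeStk_update (S : ∀ k, List (tm.Γ k)) (k : tm.K) (v : List (tm.Γ k)) :
    codeStk tm syms (update S k v)
      = (codeStk tm syms S).set (cK tm k) (v.map (fun a => cS tm syms ⟨k, a⟩)) := by
  unfold codeStk
  rw [← tabK_update]
  congr 1
  funext k'
  by_cases hk : k' = k
  · subst hk; simp
  · rw [update_of_ne hk, update_of_ne hk]

/-- Decoding of the top of a stack: `0` for an empty stack, `j + 1` for symbol `j`. -/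
noncomputable def dTop (k : tm.K) (j : ℕ) : Option (tm.Γ k) :=
  match j with
  | 0 => none
  | j + 1 => open Classical in
    (syms[j]?).bind fun x => if h : x.1 = k then some (h ▸ x.2) else none

/-- Code of the top of a coded stack. -/
def topCode (l : List ℕ) : ℕ := l.head?.elim 0 (· + 1)

theorem dTop_topCode (k : tm.K) (l : List (tm.Γ k)) (h : ∀ a ∈ l, (⟨k, a⟩ : Σ k, tm.Γ k) ∈ syms) :
    dTop tm syms k (topCode (l.map (fun a => cS tm syms ⟨k, a⟩))) = l.head? := by
  cases l with
  | nil => rfl
  | cons a l =>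
    simp only [topCode, List.map_cons, List.head?_cons, Option.elim_some, dTop]
    rw [cS_get tm syms (h a (List.mem_cons_self ..))]
    simp

/-- Simulation of statements. -/
noncomputable def sim : TM2.Stmt tm.Γ tm.Λ tm.σ → ℕ × List (List ℕ) → ℕ × ℕ × List (List ℕ)
  | .push k f q => fun c => sim q (c.1, c.2.set (cK tm k)
      ((tabV tm (fun v => cS tm syms ⟨k, f v⟩)).getD c.1 0 :: c.2.getD (cK tm k) []))
  | .peek k f q => fun c => sim q (((tabV tm (fun v => (List.range (syms.length + 2)).map
      (fun j => cV tm (f v (dTop tm syms k j))))).getD c.1 []).getD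
      (topCode (c.2.getD (cK tm k) [])) 0, c.2)
  | .pop k f q => fun c => sim q (((tabV tm (fun v => (List.range (syms.length + 2)).map
      (fun j => cV tm (f v (dTop tm syms k j))))).getD c.1 []).getD
      (topCode (c.2.getD (cK tm k) [])) 0, c.2.set (cK tm k) (c.2.getD (cK tm k) []).tail)
  | .load f q => fun c => sim q ((tabV tm (fun v => cV tm (f v))).getD c.1 0, c.2)
  | .branch f q₁ q₂ => fun c =>
      if (tabV tm f).getD c.1 false then sim q₁ c else sim q₂ c
  | .goto f => fun c => ((tabV tm (fun v => cL tm (f v))).getD c.1 0 + 1, c.1, c.2)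
  | .halt => fun c => (0, c.1, c.2)

@[fun_prop]
theorem FP.topCode {l : α → List ℕ} (hl : FP m l) : FP m (fun a => topCode (l a)) := by
  unfold HerCo.topCode
  fun_prop

theorem FP.sim (q : TM2.Stmt tm.Γ tm.Λ tm.σ) : FP m (sim tm syms q) := by
  induction q with
  | push k f q ih =>
    exact FP.comp (f := fun c : ℕ × List (List ℕ) => (c.1, c.2.set (cK tm k)
      ((tabV tm (fun v => cS tm syms ⟨k, f v⟩)).getD c.1 0 :: c.2.getD (cK tm k) []))) ih
      (by fun_prop)
  | peek k f q ih =>
    exact FP.comp (f := fun c : ℕ × List (List ℕ) =>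
      (((tabV tm (fun v => (List.range (syms.length + 2)).map
      (fun j => cV tm (f v (dTop tm syms k j))))).getD c.1 []).getD
      (HerCo.topCode (c.2.getD (cK tm k) [])) 0, c.2)) ih (by fun_prop)
  | pop k f q ih =>
    exact FP.comp (f := fun c : ℕ × List (List ℕ) =>
      (((tabV tm (fun v => (List.range (syms.length + 2)).map
      (fun j => cV tm (f v (dTop tm syms k j))))).getD c.1 []).getD
      (HerCo.topCode (c.2.getD (cK tm k) [])) 0,
        c.2.set (cK tm k) (c.2.getD (cK tm k) []).tail)) ih (by fun_prop)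
  | load f q ih =>
    exact FP.comp (f := fun c : ℕ × List (List ℕ) =>
      ((tabV tm (fun v => cV tm (f v))).getD c.1 0, c.2)) ih (by fun_prop)
  | branch f q₁ q₂ ih₁ ih₂ =>
    exact FP.ite (c := fun c : ℕ × List (List ℕ) => (tabV tm f).getD c.1 false) (by fun_prop)
      ih₁ ih₂
  | goto f =>
    have : FP m (fun c : ℕ × List (List ℕ) =>
      ((tabV tm (fun v => cL tm (f v))).getD c.1 0 + 1, c.1, c.2)) := by fun_prop
    exact this
  | halt =>
    have : FP m (fun c : ℕ × List (List ℕ) => (0, c.1, c.2)) := by fun_prop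
    exact this

/-- Symbols that a statement can push. -/
def pushes : TM2.Stmt tm.Γ tm.Λ tm.σ → Set (Σ k, tm.Γ k)
  | .push k f q => Set.range (fun v => (⟨k, f v⟩ : Σ k, tm.Γ k)) ∪ pushes q
  | .peek _ _ q => pushes q
  | .pop _ _ q => pushes q
  | .load _ q => pushes q
  | .branch _ q₁ q₂ => pushes q₁ ∪ pushes q₂
  | .goto _ => ∅
  | .halt => ∅

theorem finite_pushes (q : TM2.Stmt tm.Γ tm.Λ tm.σ) : (pushes tm q).Finite := by
  let _ := tm.σFin
  induction q with
  | push k f q ih => exact (Set.finite_range _).union ih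
  | peek k f q ih => exact ih
  | pop k f q ih => exact ih
  | load f q ih => exact ih
  | branch f q₁ q₂ ih₁ ih₂ => exact ih₁.union ih₂
  | goto f => exact Set.finite_empty
  | halt => exact Set.finite_empty

/-- All symbols on the stacks occur in `syms`. -/
def Good (S : ∀ k, List (tm.Γ k)) : Prop := ∀ k, ∀ a ∈ S k, (⟨k, a⟩ : Σ k, tm.Γ k) ∈ syms

/-- Code of a configuration. -/
noncomputable def codeCfg (c : tm.Cfg) : ℕ × ℕ × List (List ℕ) :=
  (c.l.elim 0 (fun l => cL tm l + 1), cV tm c.var, codeStk tm syms c.stk)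

theorem topCode_le (k : tm.K) (l : List (tm.Γ k))
    (h : ∀ a ∈ l, (⟨k, a⟩ : Σ k, tm.Γ k) ∈ syms) :
    topCode (l.map (fun a => cS tm syms ⟨k, a⟩)) < syms.length + 2 := by
  cases l with
  | nil => simp [topCode]
  | cons a l =>
    classical
    have h1 := h a (List.mem_cons_self ..)
    have h2 := List.idxOf_lt_length_iff.2 h1
    simp only [topCode, List.map_cons, List.head?_cons, Option.elim_some, cS]
    omega

theorem tab2_get (k : tm.K) (f : tm.σ → Option (tm.Γ k) → tm.σ) (v : tm.σ)
    (l : List (tm.Γ k)) (h : ∀ a ∈ l, (⟨k, a⟩ : Σ k, tm.Γ k) ∈ syms) :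
    ((tabV tm (fun v => (List.range (syms.length + 2)).map
      (fun j => cV tm (f v (dTop tm syms k j))))).getD (cV tm v) []).getD
      (topCode (l.map (fun a => cS tm syms ⟨k, a⟩))) 0 = cV tm (f v l.head?) := by
  rw [tabV_get, List.getD_eq_getElem?_getD, List.getElem?_map,
    List.getElem?_range (topCode_le tm syms k l h)]
  simp [dTop_topCode tm syms k l h]

theorem sim_correct (q : TM2.Stmt tm.Γ tm.Λ tm.σ) (hq : pushes tm q ⊆ {x | x ∈ syms}) :
    ∀ (v : tm.σ) (S : ∀ k, List (tm.Γ k)), Good tm syms S →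
      sim tm syms q (cV tm v, codeStk tm syms S) = codeCfg tm syms (TM2.stepAux q v S) ∧
        Good tm syms (TM2.stepAux q v S).stk := by
  induction q with
  | push k f q ih =>
    intro v S hS
    simp only [sim, TM2.stepAux]
    rw [tabV_get, codeStk_get, ← List.map_cons (f := fun a => cS tm syms ⟨k, a⟩) (a := f v),
      ← codeStk_update]
    refine ih (fun x hx => hq (Set.mem_union_right _ hx)) v _ ?_
    intro k' a ha
    by_cases hk : k' = k
    · subst hk
      rw [update_self] at ha
      rcases List.mem_cons.1 ha with rfl | ha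
      · exact hq (Set.mem_union_left _ ⟨v, rfl⟩)
      · exact hS _ _ ha
    · rw [update_of_ne hk] at ha
      exact hS _ _ ha
  | peek k f q ih =>
    intro v S hS
    simp only [sim, TM2.stepAux]
    rw [codeStk_get, tab2_get tm syms k f v (S k) (hS k)]
    exact ih hq _ _ hS
  | pop k f q ih =>
    intro v S hS
    simp only [sim, TM2.stepAux]
    rw [codeStk_get, tab2_get tm syms k f v (S k) (hS k), ← List.map_tail, ← codeStk_update]
    refine ih hq _ _ ?_
    intro k' a ha
    by_cases hk : k' = k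
    · subst hk
      rw [update_self] at ha
      exact hS _ _ (List.mem_of_mem_tail ha)
    · rw [update_of_ne hk] at ha
      exact hS _ _ ha
  | load f q ih =>
    intro v S hS
    simp only [sim, TM2.stepAux]
    rw [tabV_get]
    exact ih hq _ _ hS
  | branch f q₁ q₂ ih₁ ih₂ =>
    intro v S hS
    simp only [sim, TM2.stepAux]
    rw [tabV_get]
    cases h : f v with
    | false =>
      simpa using ih₂ (fun x hx => hq (Set.mem_union_right _ hx)) v S hS
    | true =>
      simpa using ih₁ (fun x hx => hq (Set.mem_union_left _ hx)) v S hS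
  | goto f =>
    intro v S hS
    simp only [sim, TM2.stepAux]
    rw [tabV_get]
    exact ⟨rfl, hS⟩
  | halt =>
    intro v S hS
    exact ⟨rfl, hS⟩

/-- Simulation of one step; halted configurations stay. -/
noncomputable def simAll : List tm.Λ → ℕ × ℕ × List (List ℕ) → ℕ × ℕ × List (List ℕ)
  | [] => fun c => c
  | l :: r => fun c => if c.1 = cL tm l + 1 then sim tm syms (tm.m l) c.2 else simAll r c

theorem FP.simAll (r : List tm.Λ) : FP m (simAll tm syms r) := by
  induction r with
  | nil => exact FP.id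
  | cons l r ih =>
    refine FP.iteP (p := fun c : ℕ × ℕ × List (List ℕ) => c.1 = cL tm l + 1) (by fun_prop)
      ?_ ih
    exact (FP.sim tm syms (tm.m l)).comp (by fun_prop)

/-- The one-step simulation. -/
noncomputable def simStep : ℕ × ℕ × List (List ℕ) → ℕ × ℕ × List (List ℕ) :=
  letI := tm.ΛFin
  simAll tm syms Finset.univ.toList

theorem simAll_halt (r : List tm.Λ) (c : ℕ × List (List ℕ)) :
    simAll tm syms r (0, c) = (0, c) := by
  induction r with
  | nil => rfl
  | cons l r ih => simp [simAll, ih]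

theorem simAll_label (r : List tm.Λ) (l : tm.Λ) (hl : l ∈ r) (c : ℕ × List (List ℕ)) :
    simAll tm syms r (cL tm l + 1, c) = sim tm syms (tm.m l) c := by
  induction r with
  | nil => cases hl
  | cons l' r ih =>
    by_cases h : l = l'
    · subst h; simp [simAll]
    · have h1 : l ∈ r := by
        rcases List.mem_cons.1 hl with h2 | h2
        · exact absurd h2 h
        · exact h2
      have h2 : ¬ (cL tm l + 1 = cL tm l' + 1) := fun h3 => h (cL_inj tm (by omega))
      simp only [simAll, if_neg h2]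
      exact ih h1

theorem simStep_correct (hsy : ∀ l, pushes tm (tm.m l) ⊆ {x | x ∈ syms}) (c c' : tm.Cfg)
    (hc : Good tm syms c.stk) (h : tm.step c = some c') :
    simStep tm syms (codeCfg tm syms c) = codeCfg tm syms c' ∧ Good tm syms c'.stk := by
  let _ := tm.ΛFin
  obtain ⟨l, v, S⟩ := c
  cases l with
  | none => simp at h
  | some l =>
    have h1 : TM2.stepAux (tm.m l) v S = c' := Option.some.inj h
    subst h1
    have h2 := sim_correct tm syms (tm.m l) (hsy l) v S hc
    refine ⟨?_, h2.2⟩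
    rw [← h2.1]
    exact simAll_label tm syms _ l (by simp) _

theorem simStep_halt (c : tm.Cfg) (h : c.l = none) :
    simStep tm syms (codeCfg tm syms c) = codeCfg tm syms c := by
  let _ := tm.ΛFin
  unfold codeCfg
  rw [h]
  exact simAll_halt tm syms _ _

theorem simStep_iter (hsy : ∀ l, pushes tm (tm.m l) ⊆ {x | x ∈ syms}) (t : ℕ) :
    ∀ (c c' : tm.Cfg), Good tm syms c.stk → (flip bind tm.step)^[t] (some c) = some c' →
      (simStep tm syms)^[t] (codeCfg tm syms c) = codeCfg tm syms c' ∧
        Good tm syms c'.stk := by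
  induction t with
  | zero =>
    intro c c' hc h
    have : c = c' := by simpa using h
    subst this
    exact ⟨rfl, hc⟩
  | succ t ih =>
    intro c c' hc h
    rw [iterate_succ_apply'] at h
    cases hm : (flip bind tm.step)^[t] (some c) with
    | none => rw [hm] at h; cases h
    | some c₁ =>
      rw [hm] at h
      have h1 : tm.step c₁ = some c' := h
      obtain ⟨h2, h3⟩ := ih c c₁ hc hm
      rw [iterate_succ_apply', h2]
      exact simStep_correct tm syms hsy c₁ c' h3 h1

/-! Size bounds. -/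

theorem getD_le_of_forall (l : List ℕ) (B n : ℕ) (h : ∀ a ∈ l, a ≤ B) : l.getD n 0 ≤ B := by
  rw [List.getD_eq_getElem?_getD]
  by_cases hn : n < l.length
  · rw [List.getElem?_eq_getElem hn]; exact h _ (List.getElem_mem hn)
  · rw [List.getElem?_eq_none (by omega)]; exact Nat.zero_le _

theorem tabV_getD_le (f : tm.σ → ℕ) (B n : ℕ) (h : ∀ v, f v ≤ B) :
    (tabV tm f).getD n 0 ≤ B :=
  getD_le_of_forall _ _ _ fun a ha => by
    obtain ⟨v, rfl⟩ := mem_tabV tm f ha
    exact h v

theorem tab2_getD_le (k : tm.K) (f : tm.σ → Option (tm.Γ k) → tm.σ) (n n' : ℕ) :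
    ((tabV tm (fun v => (List.range (syms.length + 2)).map
      (fun j => cV tm (f v (dTop tm syms k j))))).getD n []).getD n' 0 ≤ nV tm := by
  apply getD_le_of_forall
  intro a ha
  rw [List.getD_eq_getElem?_getD] at ha
  by_cases hn : n < (tabV tm (fun v => (List.range (syms.length + 2)).map
      (fun j => cV tm (f v (dTop tm syms k j))))).length
  · rw [List.getElem?_eq_getElem hn] at ha
    obtain ⟨v, hv⟩ := mem_tabV tm _ (List.getElem_mem hn)
    rw [Option.getD_some, hv] at ha
    obtain ⟨j, _, rfl⟩ := List.mem_map.1 ha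
    exact (cV_lt tm _).le
  · rw [List.getElem?_eq_none (by omega)] at ha
    simp at ha

theorem sim_size (q : TM2.Stmt tm.Γ tm.Λ tm.σ) : ∃ C, ∀ c : ℕ × List (List ℕ),
    c.1 ≤ nV tm → (sim tm syms q c).1 ≤ nL tm + 1 ∧ (sim tm syms q c).2.1 ≤ nV tm ∧
      sz (sim tm syms q c).2.2 ≤ sz c.2 + C := by
  induction q with
  | push k f q ih =>
    obtain ⟨C, hC⟩ := ih
    refine ⟨C + (2 * (2 * syms.length + 1)), fun c hc => ?_⟩
    have h1 := hC (c.1, c.2.set (cK tm k)
      ((tabV tm (fun v => cS tm syms ⟨k, f v⟩)).getD c.1 0 :: c.2.getD (cK tm k) [])) hc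
    refine ⟨h1.1, h1.2.1, h1.2.2.trans ?_⟩
    have h2 := sz_set_le c.2 (cK tm k)
      ((tabV tm (fun v => cS tm syms ⟨k, f v⟩)).getD c.1 0 :: c.2.getD (cK tm k) [])
    have h3 : (tabV tm (fun v => cS tm syms ⟨k, f v⟩)).getD c.1 0 ≤ syms.length :=
      tabV_getD_le tm _ _ _ fun v => by classical exact List.idxOf_le_length
    have h4 : (default : List ℕ) = [] := rfl
    rw [h4, sz_nil, sz_cons, sz_nat] at h2
    simp only
    omega
  | peek k f q ih =>
    obtain ⟨C, hC⟩ := ih
    refine ⟨C, fun c hc => ?_⟩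
    exact hC (_, c.2) (tab2_getD_le tm syms k f _ _)
  | pop k f q ih =>
    obtain ⟨C, hC⟩ := ih
    refine ⟨C, fun c hc => ?_⟩
    have h1 := hC (_, c.2.set (cK tm k) (c.2.getD (cK tm k) []).tail)
      (tab2_getD_le tm syms k f c.1 (topCode (c.2.getD (cK tm k) [])))
    refine ⟨h1.1, h1.2.1, h1.2.2.trans ?_⟩
    have h2 := sz_set_le c.2 (cK tm k) (c.2.getD (cK tm k) []).tail
    have h3 : sz (c.2.getD (cK tm k) []).tail ≤ sz (c.2.getD (cK tm k) []) := by
      cases c.2.getD (cK tm k) [] <;> simp
    have h4 : (default : List ℕ) = [] := rfl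
    rw [h4, sz_nil] at h2
    simp only
    omega
  | load f q ih =>
    obtain ⟨C, hC⟩ := ih
    refine ⟨C, fun c hc => ?_⟩
    exact hC (_, c.2) (tabV_getD_le tm _ _ _ fun v => (cV_lt tm _).le)
  | branch f q₁ q₂ ih₁ ih₂ =>
    obtain ⟨C₁, hC₁⟩ := ih₁
    obtain ⟨C₂, hC₂⟩ := ih₂
    refine ⟨C₁ + C₂, fun c hc => ?_⟩
    simp only [sim]
    split_ifs
    · have := hC₁ c hc; exact ⟨this.1, this.2.1, by omega⟩
    · have := hC₂ c hc; exact ⟨this.1, this.2.1, by omega⟩
  | goto f =>
    refine ⟨0, fun c hc => ⟨?_, hc, le_rfl⟩⟩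
    exact Nat.succ_le_succ (tabV_getD_le tm _ _ _ fun v => (cL_lt tm _).le)
  | halt => exact ⟨0, fun c hc => ⟨Nat.zero_le _, hc, le_rfl⟩⟩

theorem simAll_size (r : List tm.Λ) : ∃ C, ∀ c : ℕ × ℕ × List (List ℕ),
    c.1 ≤ nL tm + 1 → c.2.1 ≤ nV tm → (simAll tm syms r c).1 ≤ nL tm + 1 ∧
      (simAll tm syms r c).2.1 ≤ nV tm ∧ sz (simAll tm syms r c).2.2 ≤ sz c.2.2 + C := by
  induction r with
  | nil => exact ⟨0, fun c h1 h2 => ⟨h1, h2, le_rfl⟩⟩
  | cons l r ih =>
    obtain ⟨C, hC⟩ := ih
    obtain ⟨C', hC'⟩ := sim_size tm syms (tm.m l)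
    refine ⟨C + C', fun c h1 h2 => ?_⟩
    simp only [simAll]
    split_ifs
    · have := hC' c.2 h2; exact ⟨this.1, this.2.1, by omega⟩
    · have := hC c h1 h2; exact ⟨this.1, this.2.1, by omega⟩

end Sim

end HerCo
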