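import Pool.Agent.Lib.MP_a28c52_lc.Defs
import Pool.Agent.Lib.MP_a28c52_lc.Clock

/-! Model checking of a fixed sentence is computable in polynomial time. -/

namespace HerCo

open Function FirstOrder FirstOrder.Language

variable {α β γ δ σ : Type} [Enc α] [Enc β] [Enc γ] [Enc δ] [Enc σ] {md : Mode}

/-- One step of the counting of the leading `true`. -/
def neStep (c : Bool × ℕ) (b : Bool) : Bool × ℕ :=
  if c.1 && b then (true, c.2 + 1) else (false, c.2)

theorem numElems_eq (s : List Bool) : numElems s = (s.foldl neStep (true, 0)).2 := by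
  have h0 : ∀ (s : List Bool) (n : ℕ), (s.foldl neStep (false, n)) = (false, n) := by
    intro s
    induction s with
    | nil => intro n; rfl
    | cons b s ih => intro n; exact ih n
  have h1 : ∀ (s : List Bool) (n : ℕ), (s.foldl neStep (true, n)).2
      = n + (s.takeWhile id).length := by
    intro s
    induction s with
    | nil => intro n; simp
    | cons b s ih =>
      intro n
      rw [List.foldl_cons]
      cases b with
      | false =>
        have : neStep (true, n) false = (false, n) := rfl
        rw [this, h0]; simp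
      | true =>
        have : neStep (true, n) true = (true, n + 1) := rfl
        rw [this, ih]; simp; omega
  rw [h1, Nat.zero_add]
  rfl

@[fun_prop]
theorem FP.numElems {s : α → List Bool} (hs : FP md s) : FP md (fun a => numElems (s a)) := by
  have h1 : FP md (fun a => (s a).foldl neStep (true, 0)) := by
    refine FP.foldl (h := fun _ (c : Bool × ℕ) b => neStep c b) hs (by fun_prop)
      (by unfold neStep; fun_prop) fun hm => ?_
    subst hm
    refine ⟨fun a => 3 + sz (s a), (Bd.const 3).add hs.bd, fun a l' hl' => ?_⟩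
    have h2 : ∀ (l : List Bool) (c : Bool × ℕ), sz (l.foldl neStep c) ≤ sz c + l.length := by
      intro l
      induction l with
      | nil => intro c; simp
      | cons b l ih =>
        intro c
        rw [List.foldl_cons]
        refine (ih _).trans ?_
        obtain ⟨c1, c2⟩ := c
        unfold neStep
        split_ifs <;> simp <;> omega
    have h3 := h2 l' (true, 0)
    have h4 := hl'.length_le.trans (length_le_sz _)
    have h5 : sz ((true, 0) : Bool × ℕ) = 3 := by simp
    rw [h5] at h3
    beta_reduce
    exact h3.trans (by omega)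
  exact h1.snd.congr fun a => (numElems_eq (s a)).symm

@[fun_prop]
theorem FP.bitOf {s : α → List Bool} {j a b : α → ℕ} (hs : FP md s) (hj : FP md j)
    (ha : FP md a) (hb : FP md b) : FP md (fun x => bitOf (s x) (j x) (a x) (b x)) := by
  unfold HerCo.bitOf
  fun_prop

/-- Index of a variable. -/
def tIdx {m n : ℕ} : (binLang m).Term (Empty ⊕ Fin n) → ℕ
  | .var (Sum.inr i) => i
  | .var (Sum.inl e) => nomatch e
  | .func f _ => nomatch f

/-- Model checking: the elements range over the list `l`, the variables have the values `v`. -/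
def mc {m : ℕ} : ∀ {n : ℕ}, (binLang m).BoundedFormula Empty n →
    List Bool → List ℕ → List ℕ → Bool
  | _, .falsum, _, _, _ => false
  | _, .equal t₁ t₂, _, _, v => decide (v.getD (tIdx t₁) 0 = v.getD (tIdx t₂) 0)
  | _, .rel (BinRel.rel j) ts, y, _, v =>
    bitOf y j (v.getD (tIdx (ts 0)) 0) (v.getD (tIdx (ts 1)) 0)
  | _, .imp f g, y, l, v => !(mc f y l v) || mc g y l v
  | _, .all f, y, l, v => l.all (fun a => mc f y l (v ++ [a]))

theorem FP.mc_aux {m n : ℕ} (φ : (binLang m).BoundedFormula Empty n) :
    FP md (fun q : List Bool × List ℕ × List ℕ => mc φ q.1 q.2.1 q.2.2) := by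
  induction φ with
  | falsum => simp only [mc]; fun_prop
  | equal t₁ t₂ => simp only [mc]; fun_prop
  | rel R ts =>
    cases R with
    | rel j => simp only [mc]; fun_prop
  | imp f g ihf ihg => simp only [mc]; fun_prop
  | all f ih =>
    simp only [mc]
    refine FP.all (l := fun q : List Bool × List ℕ × List ℕ => q.2.1)
      (g := fun q a => mc f q.1 q.2.1 (q.2.2 ++ [a])) (by fun_prop) ?_
    exact FP.comp (f := fun p : (List Bool × List ℕ × List ℕ) × ℕ =>
      (p.1.1, p.1.2.1, p.1.2.2 ++ [p.2])) ih (by fun_prop)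

theorem FP.mc {m n : ℕ} (φ : (binLang m).BoundedFormula Empty n) {y : α → List Bool}
    {l v : α → List ℕ} (hy : FP md y) (hl : FP md l) (hv : FP md v) :
    FP md (fun a => mc φ (y a) (l a) (v a)) :=
  (FP.mc_aux φ).comp (hy.pair (hl.pair hv))

/-- The structure on the elements of a list. -/
@[reducible] def strOn (m : ℕ) (y : List Bool) (l : List ℕ) : (binLang m).Structure {a // a ∈ l} :=
  mkStr fun j a b => bitOf y j a.1 b.1 = true

theorem tIdx_realize {m n : ℕ} {A : Type} (S : (binLang m).Structure A)
    (t : (binLang m).Term (Empty ⊕ Fin n)) (v : Empty → A) (x : Fin n → A) :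
    ∃ h : tIdx t < n, t.realize (Sum.elim v x) = x ⟨tIdx t, h⟩ := by
  cases t with
  | var i =>
    cases i with
    | inl e => exact nomatch e
    | inr i => exact ⟨i.2, rfl⟩
  | func f _ => exact nomatch f

theorem getD_ofFn {n : ℕ} {δ : Type} (x : Fin n → δ) (i : ℕ) (h : i < n) (d : δ) :
    (List.ofFn x).getD i d = x ⟨i, h⟩ := by
  rw [List.getD_eq_getElem?_getD, List.getElem?_ofFn]
  simp [h]

theorem mc_correct {m n : ℕ} (φ : (binLang m).BoundedFormula Empty n) (y : List Bool)
    (l : List ℕ) : ∀ (v : Empty → {a // a ∈ l}) (x : Fin n → {a // a ∈ l}),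
    mc φ y l (List.ofFn fun i => (x i).1) = true ↔
      @BoundedFormula.Realize _ _ (strOn m y l) _ _ φ v x := by
  let _ := strOn m y l
  induction φ with
  | falsum => intro v x; simp [mc, BoundedFormula.Realize]
  | equal t₁ t₂ =>
    intro v x
    obtain ⟨h1, e1⟩ := tIdx_realize (strOn m y l) t₁ v x
    obtain ⟨h2, e2⟩ := tIdx_realize (strOn m y l) t₂ v x
    simp only [mc, BoundedFormula.Realize, decide_eq_true_eq]
    rw [e1, e2, getD_ofFn _ _ h1, getD_ofFn _ _ h2]
    exact Subtype.ext_iff.symm
  | rel R ts =>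
    intro v x
    cases R with
    | rel j =>
      obtain ⟨h1, e1⟩ := tIdx_realize (strOn m y l) (ts 0) v x
      obtain ⟨h2, e2⟩ := tIdx_realize (strOn m y l) (ts 1) v x
      simp only [mc]
      rw [getD_ofFn _ _ h1, getD_ofFn _ _ h2]
      show _ ↔ bitOf y j ((ts 0).realize (Sum.elim v x)).1 ((ts 1).realize (Sum.elim v x)).1 = true
      rw [e1, e2]
  | imp f g ihf ihg =>
    intro v x
    simp only [mc, BoundedFormula.Realize]
    rw [← ihf v x, ← ihg v x]
    cases mc f y l (List.ofFn fun i => (x i).1) <;> simp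
  | all f ih =>
    intro v x
    simp only [mc, BoundedFormula.Realize, List.all_eq_true]
    constructor
    · intro h a
      rw [← ih v (Fin.snoc x a)]
      have h1 := h a.1 a.2
      rw [List.ofFn_succ']
      simpa using h1
    · intro h a ha
      have h1 := h ⟨a, ha⟩
      rw [← ih v (Fin.snoc x ⟨a, ha⟩), List.ofFn_succ'] at h1
      simpa using h1

theorem mc_sentence {m : ℕ} (φ : (binLang m).Sentence) (y : List Bool) (l : List ℕ) :
    mc φ y l [] = true ↔ @Sentence.Realize _ {a // a ∈ l} (strOn m y l) φ := by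
  have h := mc_correct φ y l default default
  rw [List.ofFn_zero] at h
  exact h

theorem mc_congr {m n : ℕ} (φ : (binLang m).BoundedFormula Empty n) (y : List Bool)
    (l l' : List ℕ) (hl : ∀ a, a ∈ l ↔ a ∈ l') : ∀ v, mc φ y l v = mc φ y l' v := by
  induction φ with
  | falsum => intro v; rfl
  | equal t₁ t₂ => intro v; rfl
  | rel R ts => intro v; cases R; rfl
  | imp f g ihf ihg => intro v; simp only [mc, ihf, ihg]
  | all f ih =>
    intro v
    simp only [mc, ih]
    rw [Bool.eq_iff_iff, List.all_eq_true, List.all_eq_true]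
    exact ⟨fun h a ha => h a ((hl a).2 ha), fun h a ha => h a ((hl a).1 ha)⟩

/-- Transport of model checking along an injective renaming. -/
theorem mc_map {m n : ℕ} (φ : (binLang m).BoundedFormula Empty n) (y y' : List Bool)
    (l : List ℕ) (g : ℕ → ℕ) (hg : ∀ a ∈ l, ∀ b ∈ l, g a = g b → a = b)
    (hb : ∀ j < m, ∀ a ∈ l, ∀ b ∈ l, bitOf y j a b = bitOf y' j (g a) (g b)) :
    ∀ v : List ℕ, v.length = n → (∀ a ∈ v, a ∈ l) →
      mc φ y l v = mc φ y' (l.map g) (v.map g) := by
  have hget : ∀ (v : List ℕ) (i : ℕ), i < v.length → (v.map g).getD i 0 = g (v.getD i 0) := by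
    intro v i hi
    rw [List.getD_eq_getElem?_getD, List.getElem?_map, List.getD_eq_getElem?_getD,
      List.getElem?_eq_getElem hi]
    rfl
  have hmem : ∀ (v : List ℕ) (i : ℕ), i < v.length → v.getD i 0 ∈ v := by
    intro v i hi
    rw [List.getD_eq_getElem?_getD, List.getElem?_eq_getElem hi]
    exact List.getElem_mem hi
  have hidx : ∀ {n : ℕ} (t : (binLang m).Term (Empty ⊕ Fin n)), tIdx t < n := by
    intro n t
    cases t with
    | var i =>
      cases i with
      | inl e => exact nomatch e
      | inr i => exact i.2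
    | func f _ => exact nomatch f
  induction φ with
  | falsum => intro v _ _; rfl
  | equal t₁ t₂ =>
    intro v hv hvl
    simp only [mc]
    rw [hget v _ (hv ▸ hidx t₁), hget v _ (hv ▸ hidx t₂)]
    have h1 := hvl _ (hmem v (tIdx t₁) (hv ▸ hidx t₁))
    have h2 := hvl _ (hmem v (tIdx t₂) (hv ▸ hidx t₂))
    congr 1
    exact propext ⟨fun h => by rw [h], fun h => hg _ h1 _ h2 h⟩
  | rel R ts =>
    intro v hv hvl
    cases R with
    | rel j =>
      simp only [mc]
      rw [hget v _ (hv ▸ hidx (ts 0)), hget v _ (hv ▸ hidx (ts 1))]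
      have h1 := hvl _ (hmem v (tIdx (ts 0)) (hv ▸ hidx (ts 0)))
      have h2 := hvl _ (hmem v (tIdx (ts 1)) (hv ▸ hidx (ts 1)))
      exact hb j j.2 _ h1 _ h2
  | imp f g ihf ihg =>
    intro v hv hvl
    simp only [mc]
    rw [ihf v hv hvl, ihg v hv hvl]
  | all f ih =>
    intro v hv hvl
    simp only [mc]
    rw [List.all_map, Bool.eq_iff_iff, List.all_eq_true, List.all_eq_true]
    refine forall_congr' fun a => forall_congr' fun ha => ?_
    rw [ih (v ++ [a]) (by simp [hv]) (by
      intro b hb
      rcases List.mem_append.1 hb with h | h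
      · exact hvl b h
      · rw [List.mem_singleton.1 h]; exact ha)]
    simp

end HerCo
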