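import Pool.Agent.Lib.MP_a28c52_lc.Run
import Pool.Agent.Lib.MP_a28c52_lc.Df

/-! The first-order sentence whose finite models are the accepting runs. -/

namespace HerCo

open Function FirstOrder FirstOrder.Language

/-- Index of the relation for the top of the register `k`. -/
def PTR (p : List Instr) (k : ℕ) : ℕ := 6 + p.length + k

/-- The label of `d` pushes the symbol `s`. -/
def SymP (p : List Instr) (A : Type) (R : ℕ → A → A → Prop) (s : Bool) (d : A) : Prop :=
  ∃ c < p.length + 3, (pushOf p c).map Prod.snd = some s ∧ R (3 + c) d d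

/-- The register `k` has the top `o` at time `a`. -/
def TopP (p : List Instr) (A : Type) (R : ℕ → A → A → Prop) (k : ℕ) (o : Option Bool) (a : A) :
    Prop :=
  match o with
  | none => ∀ d, ¬ R (PTR p k) a d
  | some s => ∃ d, R (PTR p k) a d ∧ SymP p A R s d

/-- Update of the pointer of the register `k` from `a` to `b` by an action with label `c`. -/
def UpdP (p : List Instr) (A : Type) (R : ℕ → A → A → Prop) (c k : ℕ) (a b : A) : Prop :=
  ((pushOf p c).map Prod.fst = some k → ∀ d, R (PTR p k) b d ↔ d = a) ∧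
  ((pushOf p c).map Prod.fst ≠ some k → popOf p c = some k →
    ∀ d, R (PTR p k) b d ↔ ∃ e, R (PTR p k) a e ∧ R (PTR p k) e d) ∧
  ((pushOf p c).map Prod.fst ≠ some k → popOf p c ≠ some k →
    ∀ d, R (PTR p k) b d ↔ R (PTR p k) a d)

/-- The transition from `a` to `b` if `a` has the label `c`. -/
def TrnP (p : List Instr) (κ : ℕ) (A : Type) (R : ℕ → A → A → Prop) (c : ℕ) (a b : A) : Prop :=
  c ≠ p.length + 2 ∧ (c < 2 → ∃ c' < 3, R (3 + c') b b) ∧
  (2 ≤ c ∧ c < p.length + 2 → (TopP p A R (regOf p c) none a → R (3 + nxt p c none) b b) ∧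
    (TopP p A R (regOf p c) (some false) a → R (3 + nxt p c (some false)) b b) ∧
    (TopP p A R (regOf p c) (some true) a → R (3 + nxt p c (some true)) b b)) ∧
  ∀ k < κ, UpdP p A R c k a b

/-- The structure is an accepting run. -/
structure IsRun (p : List Instr) (κ : ℕ) (A : Type) (R : ℕ → A → A → Prop) : Prop where
  irr : ∀ a, ¬ R 0 a a
  tr : ∀ a b c, R 0 a b → R 0 b c → R 0 a c
  tot : ∀ a b, R 0 a b ∨ a = b ∨ R 0 b a
  suc : ∀ a b, R 1 a b ↔ (R 0 a b ∧ ∀ c, ¬ (R 0 a c ∧ R 0 c b))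
  fst : ∀ a, R 2 a a ↔ ∀ b, ¬ R 0 b a
  start : ∀ a, R 2 a a → (∃ c < 3, R (3 + c) a a) ∧ ∀ k < κ, ∀ b, ¬ R (PTR p k) a b
  lab : ∀ a, ∃ c < p.length + 3, R (3 + c) a a
  uniq : ∀ a, ∀ c < p.length + 3, ∀ c' < p.length + 3, R (3 + c) a a → R (3 + c') a a → c = c'
  step : ∀ a b, R 1 a b → ∀ c < p.length + 3, R (3 + c) a a → TrnP p κ A R c a b
  last : ∀ a, (∀ b, ¬ R 0 a b) → R (3 + (p.length + 2)) a a ∧ TopP p A R 0 (some true) a

section definability

variable {p : List Instr} {κ m n : ℕ} (hm : m = 6 + p.length + κ)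

include hm

theorem Df.symP (s : Bool) (i : Fin n) : Df m n (fun A R x => SymP p A R s (x i)) :=
  Df.bexLt _ fun c _ => (Df.const _).and (Df.rel (by omega) i i)

theorem Df.topP {k : ℕ} (hk : k < κ) (o : Option Bool) (i : Fin n) :
    Df m n (fun A R x => TopP p A R k o (x i)) := by
  have hk' : PTR p k < m := by unfold PTR; omega
  cases o with
  | none =>
    refine (Df.all (Df.not (Df.rel (n := n + 1) hk' i.castSucc (Fin.last n)))).congr
      fun A R x => ?_
    simp only [Fin.snoc_castSucc, Fin.snoc_last]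
    rfl
  | some s =>
    refine (Df.ex (Df.and (Df.rel (n := n + 1) hk' i.castSucc (Fin.last n))
      (Df.symP hm s (Fin.last n)))).congr fun A R x => ?_
    simp only [Fin.snoc_castSucc, Fin.snoc_last]
    rfl

theorem Df.updP {c k : ℕ} (hk : k < κ) (i j : Fin n) :
    Df m n (fun A R x => UpdP p A R c k (x i) (x j)) := by
  have hk' : PTR p k < m := by unfold PTR; omega
  refine Df.and (Df.impC fun _ => ?_) (Df.and (Df.impC fun _ => Df.impC fun _ => ?_)
    (Df.impC fun _ => Df.impC fun _ => ?_))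
  · refine (Df.all (Df.iff (Df.rel (n := n + 1) hk' j.castSucc (Fin.last n))
      (Df.eq (Fin.last n) i.castSucc))).congr fun A R x => ?_
    simp only [Fin.snoc_castSucc, Fin.snoc_last]
  · refine (Df.all (Df.iff (Df.rel (n := n + 1) hk' j.castSucc (Fin.last n))
      (Df.ex (Df.and (Df.rel (n := n + 2) hk' i.castSucc.castSucc (Fin.last (n + 1)))
        (Df.rel (n := n + 2) hk' (Fin.last (n + 1)) (Fin.last n).castSucc))))).congr
      fun A R x => ?_
    simp only [Fin.snoc_castSucc, Fin.snoc_last]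
  · refine (Df.all (Df.iff (Df.rel (n := n + 1) hk' j.castSucc (Fin.last n))
      (Df.rel (n := n + 1) hk' i.castSucc (Fin.last n)))).congr fun A R x => ?_
    simp only [Fin.snoc_castSucc, Fin.snoc_last]

theorem Df.trnP (hκ : 0 < κ) (hp : WF p κ) {c : ℕ} (i j : Fin n) :
    Df m n (fun A R x => TrnP p κ A R c (x i) (x j)) := by
  refine Df.and (Df.const _) (Df.and (Df.impC fun _ => Df.bexLt _ fun c' _ =>
    Df.rel (by omega) j j) (Df.and (Df.impC fun hc => ?_) (Df.ballLt _ fun k hk =>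
      Df.updP hm hk i j)))
  have h1 := fun o => (nxt_bounds hp hc.1 hc.2 o).2
  have h2 := regOf_lt hκ hp c
  exact Df.and ((Df.topP hm h2 none i).imp (Df.rel (by have := h1 none; omega) j j))
    (Df.and ((Df.topP hm h2 (some false) i).imp
      (Df.rel (by have := h1 (some false); omega) j j))
    ((Df.topP hm h2 (some true) i).imp (Df.rel (by have := h1 (some true); omega) j j)))

theorem Df.isRun (hκ : 0 < κ) (hp : WF p κ) : Df m 0 (fun A R _ => IsRun p κ A R) := by
  have h0 : 0 < m := by omega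
  have h1 : 1 < m := by omega
  have h2 : 2 < m := by omega
  have d1 : Df m 0 (fun A R _ => ∀ a : A, ¬ R 0 a a) :=
    (Df.all (Df.not (Df.rel (n := 1) h0 0 0))).congr fun A R x => Iff.rfl
  have d2 : Df m 0 (fun A R _ => ∀ a b c : A, R 0 a b → R 0 b c → R 0 a c) :=
    (Df.all (Df.all (n := 1) (Df.all (n := 2) ((Df.rel (n := 3) h0 0 1).imp
      ((Df.rel (n := 3) h0 1 2).imp (Df.rel (n := 3) h0 0 2)))))).congr fun A R x => Iff.rfl
  have d3 : Df m 0 (fun A R _ => ∀ a b : A, R 0 a b ∨ a = b ∨ R 0 b a) :=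
    (Df.all (Df.all (n := 1) ((Df.rel (n := 2) h0 0 1).or ((Df.eq (n := 2) 0 1).or
      (Df.rel (n := 2) h0 1 0))))).congr fun A R x => Iff.rfl
  have d4 : Df m 0 (fun A R _ => ∀ a b : A,
      (R 1 a b ↔ (R 0 a b ∧ ∀ c, ¬ (R 0 a c ∧ R 0 c b)))) :=
    (Df.all (Df.all (n := 1) ((Df.rel (n := 2) h1 0 1).iff ((Df.rel (n := 2) h0 0 1).and
      (Df.all (n := 2) (((Df.rel (n := 3) h0 0 2).and (Df.rel (n := 3) h0 2 1)).not)))))).congr
      fun A R x => Iff.rfl
  have d5 : Df m 0 (fun A R _ => ∀ a : A, (R 2 a a ↔ ∀ b, ¬ R 0 b a)) :=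
    (Df.all ((Df.rel (n := 1) h2 0 0).iff (Df.all (n := 1) (Df.rel (n := 2) h0 1 0).not))).congr
      fun A R x => Iff.rfl
  have d6 : Df m 0 (fun A R _ => ∀ a : A, R 2 a a →
      (∃ c < 3, R (3 + c) a a) ∧ ∀ k < κ, ∀ b, ¬ R (PTR p k) a b) :=
    (Df.all (Df.imp (Df.rel (n := 1) h2 0 0) (Df.and (Df.bexLt (n := 1) 3 fun c _ =>
      Df.rel (k := 3 + c) (by omega) 0 0) (Df.ballLt (n := 1) κ fun k hk => Df.all (n := 1)
        (Df.rel (n := 2) (k := PTR p k) (by unfold PTR; omega) 0 1).not)))).congr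
        fun A R x => Iff.rfl
  have d7 : Df m 0 (fun A R _ => ∀ a : A, ∃ c < p.length + 3, R (3 + c) a a) :=
    (Df.all (Df.bexLt (n := 1) (p.length + 3) fun c _ =>
      Df.rel (k := 3 + c) (by omega) 0 0)).congr fun A R x => Iff.rfl
  have d8 : Df m 0 (fun A R _ => ∀ a : A, ∀ c < p.length + 3, ∀ c' < p.length + 3,
      R (3 + c) a a → R (3 + c') a a → c = c') :=
    (Df.all (Df.ballLt (n := 1) (p.length + 3) fun c _ => Df.ballLt (p.length + 3) fun c' _ =>
      (Df.rel (k := 3 + c) (by omega) 0 0).imp ((Df.rel (k := 3 + c') (by omega) 0 0).imp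
        (Df.const (c = c'))))).congr fun A R x => Iff.rfl
  have d9 : Df m 0 (fun A R _ => ∀ a b : A, R 1 a b → ∀ c < p.length + 3, R (3 + c) a a →
      TrnP p κ A R c a b) :=
    (Df.all (Df.all (n := 1) ((Df.rel (n := 2) h1 0 1).imp (Df.ballLt (n := 2) (p.length + 3)
      fun c _ => (Df.rel (k := 3 + c) (by omega) 0 0).imp
        (Df.trnP hm hκ hp (c := c) 0 1))))).congr fun A R x => Iff.rfl
  have d10 : Df m 0 (fun A R _ => ∀ a : A, (∀ b, ¬ R 0 a b) → R (3 + (p.length + 2)) a a ∧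
      TopP p A R 0 (some true) a) :=
    (Df.all ((Df.all (n := 1) (Df.rel (n := 2) h0 0 1).not).imp
      ((Df.rel (n := 1) (k := 3 + (p.length + 2)) (by omega) 0 0).and
        (Df.topP (n := 1) hm hκ (some true) 0)))).congr fun A R x => Iff.rfl
  refine (d1.and (d2.and (d3.and (d4.and (d5.and (d6.and (d7.and (d8.and
    (d9.and d10))))))))).congr fun A R x => ?_
  constructor
  · rintro ⟨e1, e2, e3, e4, e5, e6, e7, e8, e9, e10⟩
    exact ⟨e1, e2, e3, e4, e5, e6, e7, e8, e9, e10⟩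
  · rintro ⟨e1, e2, e3, e4, e5, e6, e7, e8, e9, e10⟩
    exact ⟨e1, e2, e3, e4, e5, e6, e7, e8, e9, e10⟩

theorem exists_sentence (hκ : 0 < κ) (hp : WF p κ) : ∃ ψ : (binLang m).Sentence,
    ∀ (A : Type) (R : ℕ → A → A → Prop),
      @Sentence.Realize (binLang m) A (mkStr fun j a b => R j a b) ψ ↔ IsRun p κ A R := by
  obtain ⟨ψ, hψ⟩ := Df.isRun hm hκ hp
  exact ⟨ψ, fun A R => hψ A R default default⟩

end definability

end HerCo
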