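import Pool.Agent.Lib.MP_a28c52_lc.Gadget

/-! The sentence associated with a polynomial-time predicate. -/

namespace HerCo

open Function FirstOrder FirstOrder.Language

/-- Accepting traces of a machine deciding `V`. -/
theorem trace_acc {p : List Instr} {κ : ℕ} (hp : WF p κ) {V : List Bool → Bool}
    {Tm : List Bool → ℕ} (hrun : ∀ z, ∃ t ≤ Tm z,
      (stepM p)^[t] (0, ini z) = (p.length, ini [V z.reverse]))
    {lab : ℕ → ℕ} {ℓ : ℕ} (h : Trace p lab ℓ) : ∃ u : List Bool, V u = true ∧
      u.length ≤ ℓ ∧ ℓ ≤ u.length + Tm u.reverse ∧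
      (∀ t (ht : t < u.length), u[t] = decide (lab t = 1)) ∧
      ∀ t ≤ ℓ, (∀ s ≤ t, lab s < 2) → t < u.length := by
  obtain ⟨g, hg, hg1, hg2⟩ := h.machine hp
  let u := (List.range g).map fun t => decide (lab t = 1)
  have hul : u.length = g := by simp [u]
  obtain ⟨s, rfl⟩ := Nat.exists_eq_add_of_le hg
  obtain ⟨_, h1⟩ := hg2 s le_rfl
  rw [h.last, Nat.add_sub_cancel] at h1
  obtain ⟨t', ht', h2⟩ := hrun u.reverse
  rw [List.reverse_reverse] at h2
  have hst : s ≤ t' := by
    by_contra hlt
    have h3 := (hg2 t' (by omega))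
    have h4 := h.lt (g + t') (by omega)
    have h5 := h3.2
    rw [show (List.map (fun t => decide (lab t = 1)) (List.range g)).reverse = u.reverse from rfl,
      h2] at h5
    have h6 : p.length = lab (g + t') - 2 := congrArg Prod.fst h5
    omega
  obtain ⟨r, rfl⟩ := Nat.exists_eq_add_of_le hst
  have h3 : (stepM p)^[s + r] (0, ini u.reverse) = (p.length, stN p lab (g + s)) := by
    rw [Nat.add_comm, iterate_add_apply]
    rw [show (stepM p)^[s] (0, ini u.reverse) = (p.length, stN p lab (g + s)) from h1,
      stepM_halt_iter]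
  rw [h2] at h3
  have h4 : ini [V u] = stN p lab (g + s) := congrArg Prod.snd h3
  have h5 := h.acc
  rw [← h4] at h5
  refine ⟨u, ?_, by omega, by omega, ?_, ?_⟩
  · simpa [ini] using h5
  · intro t ht
    simp [u]
  · intro t ht hs
    rw [hul]
    by_contra hlt
    obtain ⟨r', hr'⟩ := Nat.exists_eq_add_of_le (not_lt.1 hlt)
    have h6 := (hg2 0 (by omega)).1
    have h7 := hs g (by omega)
    rw [Nat.add_zero] at h6
    omega

/-- `y` has a nonempty induced substructure satisfying `ψ`. -/
def UPs {m : ℕ} (ψ : (binLang m).Sentence) (y : List Bool) : Prop :=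
  ∃ l : List ℕ, l ≠ [] ∧ (∀ a ∈ l, a < numElems y) ∧ mc ψ y l [] = true

theorem exists_psi {V : List Bool → Bool} (hV : FP .poly V) :
    ∃ (m : ℕ) (ψ : (binLang m).Sentence) (c : ℕ) (G : ℕ → List Bool → List Bool),
      FP .poly (fun q : ℕ × List Bool => G q.1 q.2) ∧ (∀ T u, IsCode m (G T u)) ∧
      (∀ (y : List Bool) (l : List ℕ), l ≠ [] → l.Nodup → mc ψ y l [] = true →
        ∃ u, V u = true ∧ u.length ≤ l.length ∧ l.length ≤ (u.length + 2) ^ c) ∧
      (∀ T u, UPs ψ (G T u) → ∃ w, V (u ++ w) = true) ∧
      (∀ T u w, V (u ++ w) = true → ((u ++ w).length + 2) ^ c ≤ T → UPs ψ (G T u)) := by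
  have h1 : FP .poly (fun z : List Bool => [V z.reverse]) := by
    have := hV.comp (FP.reverse FP.id)
    fun_prop
  have h2 : Cp .poly (fun z : List Bool => z) (fun z => [V z.reverse]) := Cp.of_FP h1
  obtain ⟨p, κ, Tm, hκ, hp, ⟨k, hk⟩, hrun⟩ := h2.machine
  obtain ⟨ψ, hψ⟩ := exists_sentence (p := p) (κ := κ) (m := 6 + p.length + κ) rfl hκ hp
  have hbound : ∀ u : List Bool, u.length + Tm u.reverse + p.length + 4 ≤
      (u.length + 2) ^ (k + p.length + 7) := by
    intro u
    have h3 := hk u.reverse
    rw [List.length_reverse] at h3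
    have h4 := pow_add_le (a := u.length + 2) (by omega) 1 k
    have h5 := pow_add_le (a := u.length + 2) (by omega) (1 + k + 1) (p.length + 4)
    have h6 : p.length + 4 < (u.length + 2) ^ (p.length + 4) :=
      lt_of_lt_of_le Nat.lt_two_pow_self (Nat.pow_le_pow_left (by omega) _)
    have h7 : 1 + k + 1 + (p.length + 4) + 1 = k + p.length + 7 := by ring
    rw [h7] at h5
    rw [pow_one] at h4
    omega
  refine ⟨6 + p.length + κ, ψ, k + p.length + 7, fun T u => gad p.length κ T u,
    FP.gad _ _ (by fun_prop) (by fun_prop), fun T u => isCode_gad _ _ _ _, ?_, ?_, ?_⟩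
  · intro y l hl hnd h
    rw [mc_iff_isRun hψ] at h
    obtain ⟨a, ha⟩ := List.exists_mem_of_ne_nil l hl
    have : Nonempty {a // a ∈ l} := ⟨⟨a, ha⟩⟩
    have : Finite {a // a ∈ l} := l.finite_toSet
    obtain ⟨ℓ, lab, e, h1, _⟩ := extract hκ hp h
    have hcard : l.length = ℓ + 1 := by
      have e2 := Fintype.card_congr (hnd.getEquiv l)
      have e3 := Fintype.card_congr e
      rw [Fintype.card_fin] at e2 e3
      rw [e2, e3]
    obtain ⟨u, hu1, hu2, hu3, _⟩ := trace_acc hp hrun h1
    exact ⟨u, hu1, by omega, by have := hbound u; omega⟩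
  · rintro T u ⟨l, hl, hl2, h⟩
    obtain ⟨lab, ℓ, h1, h2⟩ := gad_sound hκ hp hψ hl hl2 h
    obtain ⟨u', hu1, hu2, hu3, hu4, hu5⟩ := trace_acc hp hrun h1
    have hall : ∀ t < u.length, t < ℓ + 1 := by
      intro t
      induction t using Nat.strong_induction_on with
      | _ t ih =>
        intro ht
        cases t with
        | zero => omega
        | succ t =>
          have h3 := ih t (by omega) (by omega)
          have h4 := h2 t (by omega) (by omega)
          by_contra h5
          have h6 : t = ℓ := by omega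
          rw [h6, h1.last] at h4
          split_ifs at h4 <;> omega
    have hul : ∀ t < u.length, t < u'.length := fun t ht => hu5 t (by have := hall t ht; omega)
      fun s hs => by
        rw [h2 s (by omega) (by have := hall t ht; omega)]
        split_ifs <;> omega
    have hpre : u <+: u' := by
      rw [List.prefix_iff_eq_take]
      apply List.ext_getElem?
      intro t
      rcases Nat.lt_or_ge t u.length with ht | ht
      · rw [List.getElem?_take_of_lt ht, List.getElem?_eq_getElem ht,
          List.getElem?_eq_getElem (hul t ht), hu4 t (hul t ht),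
          h2 t ht (by have := hall t ht; omega), List.getD_eq_getElem _ _ ht]
        cases u[t] <;> simp
      · rw [List.getElem?_eq_none ht, List.getElem?_eq_none (by rw [List.length_take]; omega)]
    obtain ⟨w, hw⟩ := hpre
    exact ⟨w, by rw [hw]; exact hu1⟩
  · intro T u w hV hT
    obtain ⟨t, ht, hrt⟩ := hrun (u ++ w).reverse
    obtain ⟨lab, τ, hτ, htr, hlab, hle⟩ := exists_trace hp (u := u ++ w) hrt (by
      simp [ini, hV])
    have hb := hbound (u ++ w)
    refine gad_complete hκ hp hψ htr (by omega) (by omega) hle ?_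
    intro s hs
    rw [hlab s (by rw [List.length_append]; omega), List.getElem_append_left hs,
      List.getD_eq_getElem _ _ hs]

end HerCo
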