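import Pool.Agent.Lib.MP_a28c52_lc.SM

/-! Traces of guessing stack machines. -/

namespace HerCo

open Function

/-- The symbol (and register) pushed by a label: labels `0`, `1` guess a bit of the input, the
label `i + 2` executes the instruction `i`. -/
def pushOf (p : List Instr) (c : ℕ) : Option (ℕ × Bool) :=
  if c = 0 then some (0, false) else if c = 1 then some (0, true) else
    (p[c - 2]?).elim none fun i =>
      if i.1 = 0 then some (i.2.1, false) else if i.1 = 1 then some (i.2.1, true) else none

/-- The register popped by a label. -/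
def popOf (p : List Instr) (c : ℕ) : Option ℕ :=
  if c < 2 then none else (p[c - 2]?).elim none fun i => if i.1 = 2 then some i.2.1 else none

/-- The register of the instruction of a label. -/
def regOf (p : List Instr) (c : ℕ) : ℕ := (p[c - 2]?).elim 0 fun i => i.2.1

/-- The next label, depending on the top of the register. -/
def nxt (p : List Instr) (c : ℕ) (o : Option Bool) : ℕ :=
  (p[c - 2]?).elim c fun i =>
    if i.1 ≤ 2 then i.2.2.1 + 2
    else match o with
      | none => i.2.2.1 + 2
      | some false => i.2.2.2.1 + 2
      | some true => i.2.2.2.2 + 2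

theorem pushOf_popOf {p : List Instr} {c : ℕ} {q : ℕ × Bool} (h : pushOf p c = some q) :
    popOf p c = none := by
  unfold popOf
  split_ifs with h1
  · rfl
  · unfold pushOf at h
    rw [if_neg (by omega), if_neg (by omega)] at h
    cases hp : p[c - 2]? with
    | none => rfl
    | some i =>
      rw [hp] at h
      simp only [Option.elim_some] at h ⊢
      by_cases h2 : i.1 = 2
      · rw [if_neg (by omega), if_neg (by omega)] at h; cases h
      · rw [if_neg h2]

/-- Effect of a label on the registers. -/
def act (p : List Instr) (c : ℕ) (s : Store) : Store :=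
  (pushOf p c).elim ((popOf p c).elim s fun k => update s k (s k).tail)
    fun q => update s q.1 (q.2 :: s q.1)

theorem stepM_eq_act {p : List Instr} {κ : ℕ} (hp : WF p κ) {i : ℕ} (hi : i < p.length)
    (s : Store) : stepM p (i, s) = (nxt p (i + 2) (s (regOf p (i + 2))).head? - 2,
      act p (i + 2) s) := by
  have h1 : p[i]? = some p[i] := List.getElem?_eq_getElem hi
  have h2 := hp p[i] (List.getElem_mem hi)
  have e1 : pushOf p (i + 2) = if p[i].1 = 0 then some (p[i].2.1, false) else
      if p[i].1 = 1 then some (p[i].2.1, true) else none := by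
    unfold pushOf
    rw [if_neg (by omega), if_neg (by omega)]
    simp [h1]
  have e2 : popOf p (i + 2) = if p[i].1 = 2 then some p[i].2.1 else none := by
    unfold popOf
    rw [if_neg (by omega)]
    simp [h1]
  have e3 : regOf p (i + 2) = p[i].2.1 := by simp [regOf, h1]
  unfold act
  rw [e1, e2, e3]
  unfold stepM nxt
  simp only [Nat.add_sub_cancel, h1, Option.elim_some]
  have h3 : p[i].1 ≤ 3 := h2.1
  by_cases a0 : p[i].1 = 0
  · simp [a0]
  by_cases a1 : p[i].1 = 1
  · simp [a1]
  by_cases a2 : p[i].1 = 2
  · simp [a2]
  have a3 : p[i].1 = 3 := by omega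
  simp only [a3]
  rcases h : s p[i].2.1 with _ | ⟨_ | _, l⟩ <;> simp

theorem nxt_bounds {p : List Instr} {κ : ℕ} (hp : WF p κ) {c : ℕ} (hc : 2 ≤ c)
    (hc' : c < p.length + 2) (o : Option Bool) : 2 ≤ nxt p c o ∧ nxt p c o ≤ p.length + 2 := by
  unfold nxt
  have h1 : p[c - 2]? = some p[c - 2] := List.getElem?_eq_getElem (by omega)
  have h2 := hp p[c - 2] (List.getElem_mem (by omega))
  rw [h1]
  simp only [Option.elim_some]
  split_ifs
  · omega
  · rcases o with _ | _ | _
    · simp only; omega
    · simp only; omega
    · simp only; omega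

theorem regOf_lt {p : List Instr} {κ : ℕ} (hκ : 0 < κ) (hp : WF p κ) (c : ℕ) :
    regOf p c < κ := by
  unfold regOf
  cases h : p[c - 2]? with
  | none => simpa using hκ
  | some i => simpa using (hp i (List.mem_of_getElem? h)).2.1

/-- The symbol pushed by a label. -/
def symOf (p : List Instr) (c : ℕ) : Bool := (pushOf p c).elim false Prod.snd

/-- The symbolic content of the register `k` at time `t`: the times at which the symbols of the
register were pushed. -/
def psN (p : List Instr) (lab : ℕ → ℕ) : ℕ → ℕ → List ℕ
  | 0, _ => []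
  | t + 1, k => if (pushOf p (lab t)).map Prod.fst = some k then t :: psN p lab t k
      else if popOf p (lab t) = some k then (psN p lab t k).tail else psN p lab t k

/-- The content of the registers at time `t`. -/
def stN (p : List Instr) (lab : ℕ → ℕ) (t : ℕ) : Store :=
  fun k => (psN p lab t k).map fun z => symOf p (lab z)

theorem stN_zero (p : List Instr) (lab : ℕ → ℕ) : stN p lab 0 = fun _ => [] := rfl

theorem stN_succ (p : List Instr) (lab : ℕ → ℕ) (t : ℕ) :
    stN p lab (t + 1) = act p (lab t) (stN p lab t) := by
  unfold act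
  funext k
  unfold stN
  cases h : pushOf p (lab t) with
  | some q =>
    obtain ⟨k', b⟩ := q
    simp only [psN, h, Option.map_some, Option.elim_some, Option.some.injEq, pushOf_popOf h,
      reduceCtorEq, if_false]
    by_cases hk : k' = k
    · subst hk
      simp [symOf, h]
    · rw [if_neg hk, update_of_ne (Ne.symm hk)]
  | none =>
    simp only [psN, h, Option.map_none, Option.elim_none, reduceCtorEq, if_false]
    cases h' : popOf p (lab t) with
    | none => simp
    | some k' =>
      simp only [Option.some.injEq, Option.elim_some]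
      by_cases hk : k' = k
      · subst hk
        simp
      · rw [if_neg hk, update_of_ne (Ne.symm hk)]

theorem psN_cons (p : List Instr) (lab : ℕ → ℕ) (k : ℕ) : ∀ (t z : ℕ) (r : List ℕ),
    psN p lab t k = z :: r → z < t ∧ psN p lab z k = r ∧ ∃ b, pushOf p (lab z) = some (k, b) := by
  intro t
  induction t using Nat.strong_induction_on with
  | _ t ih =>
    intro z r h
    cases t with
    | zero => simp [psN] at h
    | succ t =>
      simp only [psN] at h
      split_ifs at h with h1 h2
      · simp only [List.cons.injEq] at h
        obtain ⟨rfl, rfl⟩ := h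
        refine ⟨by omega, rfl, ?_⟩
        cases h3 : pushOf p (lab t) with
        | none => rw [h3] at h1; simp at h1
        | some q =>
          rw [h3] at h1
          obtain ⟨k', b⟩ := q
          simp only [Option.map_some, Option.some.injEq] at h1
          exact ⟨b, by rw [h1]⟩
      · cases h3 : psN p lab t k with
        | nil => rw [h3] at h; simp at h
        | cons y r' =>
          rw [h3] at h
          simp only [List.tail_cons] at h
          obtain ⟨hy, hy2, _⟩ := ih t (by omega) y r' h3
          rw [h] at hy2
          obtain ⟨hz, hz2⟩ := ih y (by omega) z r hy2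
          exact ⟨by omega, hz2⟩
      · obtain ⟨hz, hz2⟩ := ih t (by omega) z r h
        exact ⟨by omega, hz2⟩

/-- Valid accepting traces. -/
structure Trace (p : List Instr) (lab : ℕ → ℕ) (ℓ : ℕ) : Prop where
  start : lab 0 < 3
  lt : ∀ t < ℓ, lab t < p.length + 2
  guess : ∀ t < ℓ, lab t < 2 → lab (t + 1) < 3
  comp : ∀ t < ℓ, 2 ≤ lab t →
    lab (t + 1) = nxt p (lab t) (stN p lab t (regOf p (lab t))).head?
  last : lab ℓ = p.length + 2
  acc : (stN p lab ℓ 0).head? = some true

theorem stN_guess (p : List Instr) (lab : ℕ → ℕ) (g : ℕ) (h : ∀ t < g, lab t < 2) :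
    stN p lab g = ini ((List.range g).map fun t => decide (lab t = 1)).reverse := by
  induction g with
  | zero =>
    rw [stN_zero]
    funext k
    unfold ini
    simp
  | succ g ih =>
    rw [stN_succ, ih fun t ht => h t (by omega), List.range_succ]
    unfold act
    have h1 := h g (by omega)
    have h2 : lab g = 0 ∨ lab g = 1 := by omega
    rcases h2 with h2 | h2
    · rw [h2]
      simp only [pushOf, if_true, Option.elim_some]
      unfold ini
      simp [h2]
    · rw [h2]
      simp only [pushOf, if_true, one_ne_zero, if_false, Option.elim_some]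
      unfold ini
      simp [h2]

/-- From traces to accepting computations. -/
theorem Trace.machine {p : List Instr} {κ : ℕ} (hp : WF p κ) {lab : ℕ → ℕ} {ℓ : ℕ}
    (h : Trace p lab ℓ) : ∃ g ≤ ℓ, (∀ t < g, lab t < 2) ∧ (∀ s, g + s ≤ ℓ → 2 ≤ lab (g + s) ∧
      (stepM p)^[s] (0, ini ((List.range g).map fun t => decide (lab t = 1)).reverse)
        = (lab (g + s) - 2, stN p lab (g + s))) := by
  have hex : ∃ t, 2 ≤ lab t := ⟨ℓ, by rw [h.last]; omega⟩
  classical
  let g := Nat.find hex
  have hg : 2 ≤ lab g := Nat.find_spec hex
  have hgl : g ≤ ℓ := Nat.find_min' hex (by rw [h.last]; omega)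
  have hg2 : ∀ t < g, lab t < 2 := fun t ht => by
    have := Nat.find_min hex ht
    omega
  have hg3 : lab g = 2 := by
    rcases Nat.eq_zero_or_pos g with h0 | h0
    · have := h.start
      rw [← h0] at this
      omega
    · have h1 := h.guess (g - 1) (by omega) (hg2 _ (by omega))
      rw [Nat.sub_add_cancel h0] at h1
      omega
  refine ⟨g, hgl, hg2, fun s => ?_⟩
  induction s with
  | zero =>
    intro _
    refine ⟨hg, ?_⟩
    rw [Nat.add_zero, hg3, stN_guess p lab g hg2]
    rfl
  | succ s ih =>
    intro hs
    obtain ⟨h1, h2⟩ := ih (by omega)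
    have h3 := h.lt (g + s) (by omega)
    have h4 := h.comp (g + s) (by omega) h1
    have h5 := nxt_bounds hp h1 h3 (stN p lab (g + s) (regOf p (lab (g + s)))).head?
    rw [← h4] at h5
    refine ⟨h5.1, ?_⟩
    rw [iterate_succ_apply', h2, stepM_eq_act hp (by omega)]
    rw [Nat.sub_add_cancel h1, ← h4, ← stN_succ]
    rfl

/-- From accepting computations to traces. -/
theorem exists_trace {p : List Instr} {κ : ℕ} (hp : WF p κ) {u : List Bool} {T : ℕ} {s' : Store}
    (hT : (stepM p)^[T] (0, ini u.reverse) = (p.length, s')) (hs' : (s' 0).head? = some true) :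
    ∃ lab τ, τ ≤ T ∧ Trace p lab (u.length + τ) ∧ (∀ t (ht : t < u.length),
      lab t = if u[t] then 1 else 0) ∧ ∀ t, lab t ≤ p.length + 2 := by
  classical
  have hex : ∃ t, ((stepM p)^[t] (0, ini u.reverse)).1 = p.length := ⟨T, by rw [hT]⟩
  let τ := Nat.find hex
  have hτ : ((stepM p)^[τ] (0, ini u.reverse)).1 = p.length := Nat.find_spec hex
  have hτT : τ ≤ T := Nat.find_min' hex (by rw [hT])
  have hτs : (stepM p)^[τ] (0, ini u.reverse) = (p.length, s') := by
    obtain ⟨r, hr⟩ := Nat.exists_eq_add_of_le hτT
    have h1 : (stepM p)^[τ] (0, ini u.reverse) =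
        (p.length, ((stepM p)^[τ] (0, ini u.reverse)).2) := by rw [← hτ]
    rw [hr, Nat.add_comm, iterate_add_apply, h1, stepM_halt_iter] at hT
    rw [h1, hT]
  let pc : ℕ → ℕ := fun s => ((stepM p)^[s] (0, ini u.reverse)).1
  have hpc : ∀ s, pc s ≤ p.length := by
    intro s
    induction s with
    | zero => exact Nat.zero_le _
    | succ s ih =>
      simp only [pc, iterate_succ_apply'] at ih ⊢
      generalize (stepM p)^[s] (0, ini u.reverse) = c at ih ⊢
      obtain ⟨i, st⟩ := c
      simp only at ih
      rcases Nat.lt_or_ge i p.length with hi | hi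
      · rw [stepM_eq_act hp hi]
        have := nxt_bounds hp (c := i + 2) (by omega) (by omega)
          (st (regOf p (i + 2))).head?
        simp only
        omega
      · obtain rfl : i = p.length := by omega
        rw [stepM_halt]
  have hlt : ∀ s < τ, pc s < p.length := fun s hs => by
    have h1 := Nat.find_min hex hs
    have h2 := hpc s
    simp only [pc] at h2 ⊢
    omega
  let lab : ℕ → ℕ := fun t => if h : t < u.length then (if u[t] then 1 else 0)
    else pc (t - u.length) + 2
  have hlab1 : ∀ t (ht : t < u.length), lab t = if u[t] then 1 else 0 := fun t ht => by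
    simp only [lab, dif_pos ht]
  have hlab2 : ∀ s, lab (u.length + s) = pc s + 2 := fun s => by
    simp only [lab]
    rw [dif_neg (by omega), Nat.add_sub_cancel_left]
  have hu : (List.range u.length).map (fun t => decide (lab t = 1)) = u := by
    apply List.ext_getElem
    · simp
    · intro t h1 h2
      rw [List.getElem_map, List.getElem_range, hlab1 t h2]
      cases u[t] <;> simp
  have hlab3 : ∀ t < u.length, lab t < 2 := fun t ht => by
    rw [hlab1 t ht]; split_ifs <;> omega
  have hst : ∀ s, s ≤ τ → (stepM p)^[s] (0, ini u.reverse) =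
      (pc s, stN p lab (u.length + s)) := by
    intro s
    induction s with
    | zero =>
      intro _
      rw [Nat.add_zero, stN_guess p lab _ hlab3, hu]
      rfl
    | succ s ih =>
      intro hs
      have h1 := ih (by omega)
      have h2 := hlt s (by omega)
      refine Prod.ext rfl ?_
      rw [iterate_succ_apply', h1, stepM_eq_act hp h2]
      show act p (pc s + 2) (stN p lab (u.length + s)) = _
      rw [← hlab2, ← stN_succ]
      rfl
  refine ⟨lab, τ, hτT, ⟨?_, ?_, ?_, ?_, ?_, ?_⟩, hlab1, ?_⟩
  · rcases Nat.eq_zero_or_pos u.length with h0 | h0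
    · have := hlab2 0
      rw [h0] at this
      simp only [Nat.zero_add] at this
      rw [this]
      show 0 + 2 < 3
      omega
    · have := hlab3 0 h0; omega
  · intro t ht
    rcases Nat.lt_or_ge t u.length with h1 | h1
    · have := hlab3 t h1; omega
    · obtain ⟨s, rfl⟩ := Nat.exists_eq_add_of_le h1
      rw [hlab2]
      have := hlt s (by omega)
      omega
  · intro t ht h1
    rcases Nat.lt_or_ge (t + 1) u.length with h2 | h2
    · have := hlab3 _ h2; omega
    · rcases Nat.lt_or_ge t u.length with h3 | h3
      · have h4 : t + 1 = u.length + 0 := by omega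
        rw [h4, hlab2]
        show 0 + 2 < 3
        omega
      · obtain ⟨s, rfl⟩ := Nat.exists_eq_add_of_le h3
        rw [hlab2] at h1
        omega
  · intro t ht h1
    have h3 : u.length ≤ t := by
      by_contra h3
      have := hlab3 t (by omega)
      omega
    obtain ⟨s, rfl⟩ := Nat.exists_eq_add_of_le h3
    have h4 := hst s (by omega)
    have h5 := hst (s + 1) (by omega)
    rw [iterate_succ_apply', h4, stepM_eq_act hp (hlt s (by omega))] at h5
    have h6 := congrArg Prod.fst h5
    simp only at h6
    rw [Nat.add_assoc, hlab2, hlab2, ← h6]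
    have := nxt_bounds hp (c := pc s + 2) (by omega) (by have := hlt s (by omega); omega)
      (stN p lab (u.length + s) (regOf p (pc s + 2))).head?
    omega
  · rw [hlab2]
    show ((stepM p)^[τ] (0, ini u.reverse)).1 + 2 = _
    rw [hτ]
  · have := hst τ le_rfl
    rw [hτs] at this
    have h1 : s' = stN p lab (u.length + τ) := congrArg Prod.snd this
    rw [← h1]
    exact hs'
  · intro t
    rcases Nat.lt_or_ge t u.length with h1 | h1
    · have := hlab3 t h1; omega
    · obtain ⟨s, rfl⟩ := Nat.exists_eq_add_of_le h1
      rw [hlab2]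
      have := hpc s
      omega

end HerCo
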