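import Pool.Agent.Lib.MP_a28c52_lc.Typed2

/-! Flat stack machines, compilation of structured programs, clocked runs. -/

namespace HerCo

open Function

/-- Instructions `(op, k, a, b, c)`: `op = 0`/`1`: push `false`/`true` on stack `k` and go to
`a`; `op = 2`: pop stack `k` and go to `a`; `op = 3`: go to `a`/`b`/`c` if stack `k` is empty/has
top `false`/has top `true`; `op > 3`: loop forever. A program counter outside of the program
means that the machine has halted. -/
abbrev Instr := ℕ × ℕ × ℕ × ℕ × ℕ

/-- One step of a flat machine. -/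
def stepM (p : List Instr) (c : ℕ × Store) : ℕ × Store :=
  match p[c.1]? with
  | none => c
  | some i =>
    if i.1 = 0 then (i.2.2.1, update c.2 i.2.1 (false :: c.2 i.2.1))
    else if i.1 = 1 then (i.2.2.1, update c.2 i.2.1 (true :: c.2 i.2.1))
    else if i.1 = 2 then (i.2.2.1, update c.2 i.2.1 (c.2 i.2.1).tail)
    else if i.1 = 3 then
      ((match c.2 i.2.1 with
        | [] => i.2.2.1
        | false :: _ => i.2.2.2.1
        | true :: _ => i.2.2.2.2), c.2)
    else c

/-- The store with `x` in register `0`. -/
def ini (x : List Bool) : Store := update (fun _ => []) 0 x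

/-- All continuations that can occur while running `c` with continuation `K`. -/
def reach : Cmd → List Cmd → List (List Cmd)
  | .skip, K => [.skip :: K]
  | .push k b, K => [.push k b :: K]
  | .pop k, K => [.pop k :: K]
  | .seq c d, K => (.seq c d :: K) :: (reach c (d :: K) ++ reach d K)
  | .ifte k e f g, K => (.ifte k e f g :: K) :: (reach e K ++ reach f K ++ reach g K)
  | .loop k c, K => (.loop k c :: K) :: reach c (.loop k c :: K)

theorem mem_reach_self (c : Cmd) (K : List Cmd) : (c :: K) ∈ reach c K := by
  cases c <;> simp [reach]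

theorem reach_ne_nil (c : Cmd) : ∀ (K L : List Cmd), L ∈ reach c K → L ≠ [] := by
  induction c with
  | skip => intro K L h; simp [reach] at h; simp [h]
  | push k b => intro K L h; simp [reach] at h; simp [h]
  | pop k => intro K L h; simp [reach] at h; simp [h]
  | seq c d ihc ihd =>
    intro K L h
    simp only [reach, List.mem_cons, List.mem_append] at h
    rcases h with h | h | h
    · simp [h]
    · exact ihc _ _ h
    · exact ihd _ _ h
  | ifte k e f g ihe ihf ihg =>
    intro K L h
    simp only [reach, List.mem_cons, List.mem_append] at h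
    rcases h with h | (h | h) | h
    · simp [h]
    · exact ihe _ _ h
    · exact ihf _ _ h
    · exact ihg _ _ h
  | loop k c ih =>
    intro K L h
    simp only [reach, List.mem_cons] at h
    rcases h with h | h
    · simp [h]
    · exact ih _ _ h

/-- Possible successor continuations. -/
def succs : List Cmd → List (List Cmd)
  | [] => []
  | .skip :: K => [K]
  | .push _ _ :: K => [K]
  | .pop _ :: K => [K]
  | .seq c d :: K => [c :: d :: K]
  | .ifte _ e f g :: K => [e :: K, f :: K, g :: K]
  | .loop k c :: K => [K, c :: .loop k c :: K]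

theorem reach_closed (c : Cmd) : ∀ (K L L' : List Cmd), L ∈ reach c K → L' ∈ succs L →
    L' ∈ reach c K ∨ L' = K := by
  induction c with
  | skip => intro K L L' h h'; simp [reach] at h; subst h; simp [succs] at h'; simp [h']
  | push k b => intro K L L' h h'; simp [reach] at h; subst h; simp [succs] at h'; simp [h']
  | pop k => intro K L L' h h'; simp [reach] at h; subst h; simp [succs] at h'; simp [h']
  | seq c d ihc ihd =>
    intro K L L' h h'
    simp only [reach, List.mem_cons, List.mem_append] at h ⊢
    rcases h with h | h | h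
    · subst h
      simp only [succs, List.mem_singleton] at h'
      subst h'
      exact .inl (.inr (.inl (mem_reach_self _ _)))
    · rcases ihc _ _ _ h h' with h1 | h1
      · exact .inl (.inr (.inl h1))
      · subst h1; exact .inl (.inr (.inr (mem_reach_self _ _)))
    · rcases ihd _ _ _ h h' with h1 | h1
      · exact .inl (.inr (.inr h1))
      · exact .inr h1
  | ifte k e f g ihe ihf ihg =>
    intro K L L' h h'
    simp only [reach, List.mem_cons, List.mem_append] at h ⊢
    rcases h with h | (h | h) | h
    · subst h
      simp only [succs, List.mem_cons, List.not_mem_nil, or_false] at h'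
      rcases h' with h' | h' | h' <;> subst h'
      · exact .inl (.inr (.inl (.inl (mem_reach_self _ _))))
      · exact .inl (.inr (.inl (.inr (mem_reach_self _ _))))
      · exact .inl (.inr (.inr (mem_reach_self _ _)))
    · rcases ihe _ _ _ h h' with h1 | h1
      · exact .inl (.inr (.inl (.inl h1)))
      · exact .inr h1
    · rcases ihf _ _ _ h h' with h1 | h1
      · exact .inl (.inr (.inl (.inr h1)))
      · exact .inr h1
    · rcases ihg _ _ _ h h' with h1 | h1
      · exact .inl (.inr (.inr h1))
      · exact .inr h1
  | loop k c ih =>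
    intro K L L' h h'
    simp only [reach, List.mem_cons] at h ⊢
    rcases h with h | h
    · subst h
      simp only [succs, List.mem_cons, List.not_mem_nil, or_false] at h'
      rcases h' with h' | h' <;> subst h'
      · exact .inr rfl
      · exact .inl (.inr (mem_reach_self _ _))
    · rcases ih _ _ _ h h' with h1 | h1
      · exact .inl (.inr h1)
      · subst h1; exact .inl (.inl rfl)

/-- Instruction for a continuation, relative to a list of continuations. -/
def instrOf (l : List (List Cmd)) : List Cmd → Instr
  | [] => (4, 0, 0, 0, 0)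
  | .skip :: K => (3, 0, l.idxOf K, l.idxOf K, l.idxOf K)
  | .push k b :: K => (if b then 1 else 0, k, l.idxOf K, 0, 0)
  | .pop k :: K => (2, k, l.idxOf K, 0, 0)
  | .seq c d :: K => (3, 0, l.idxOf (c :: d :: K), l.idxOf (c :: d :: K), l.idxOf (c :: d :: K))
  | .ifte k e f g :: K => (3, k, l.idxOf (e :: K), l.idxOf (f :: K), l.idxOf (g :: K))
  | .loop k c :: K =>
    (3, k, l.idxOf K, l.idxOf (c :: .loop k c :: K), l.idxOf (c :: .loop k c :: K))

/-- Compilation to a flat machine. -/
def compile (c : Cmd) : List Instr := (reach c []).map (instrOf (reach c []))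

theorem length_compile (c : Cmd) : (compile c).length = (reach c []).length := by
  simp [compile]

theorem compile_get (c : Cmd) {L : List Cmd} (hL : L ∈ reach c []) :
    (compile c)[(reach c []).idxOf L]? = some (instrOf (reach c []) L) := by
  unfold compile
  rw [List.getElem?_map]
  have h1 : (reach c []).idxOf L < (reach c []).length := List.idxOf_lt_length_iff.2 hL
  rw [List.getElem?_eq_getElem h1, List.getElem_idxOf h1]
  rfl

theorem idxOf_nil (c : Cmd) : (reach c []).idxOf [] = (compile c).length := by
  rw [length_compile, List.idxOf_eq_length_iff]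
  intro h
  exact reach_ne_nil c _ _ h rfl

theorem stepC_mem (c : Cmd) (L : List Cmd) (s : Store) (hL : L ∈ reach c []) :
    (stepC (L, s)).1 ∈ reach c [] ∨ (stepC (L, s)).1 = [] := by
  rcases L with _ | ⟨i, K⟩
  · exact absurd rfl (reach_ne_nil c _ _ hL)
  · apply reach_closed c _ _ _ hL
    cases i with
    | skip => simp [stepC, succs]
    | push k b => simp [stepC, succs]
    | pop k => simp [stepC, succs]
    | seq c d => simp [stepC, succs]
    | ifte k e f g =>
      rcases h : s k with _ | ⟨_ | _, l⟩ <;> simp [stepC, succs, h]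
    | loop k c =>
      rcases h : s k with _ | ⟨b, l⟩ <;> simp [stepC, succs, h]

theorem stepM_compile (c : Cmd) (L : List Cmd) (s : Store) (hL : L ∈ reach c []) :
    stepM (compile c) ((reach c []).idxOf L, s)
      = ((reach c []).idxOf (stepC (L, s)).1, (stepC (L, s)).2) := by
  rcases L with _ | ⟨i, K⟩
  · exact absurd rfl (reach_ne_nil c _ _ hL)
  · unfold stepM
    rw [compile_get c hL]
    cases i with
    | skip => rcases h : s 0 with _ | ⟨_ | _, l⟩ <;> simp [instrOf, stepC, h]
    | push k b => cases b <;> simp [instrOf, stepC]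
    | pop k => simp [instrOf, stepC]
    | seq c d => rcases h : s 0 with _ | ⟨_ | _, l⟩ <;> simp [instrOf, stepC, h]
    | ifte k e f g => rcases h : s k with _ | ⟨_ | _, l⟩ <;> simp [instrOf, stepC, h]
    | loop k c => rcases h : s k with _ | ⟨_ | _, l⟩ <;> simp [instrOf, stepC, h]

theorem stepM_halt (p : List Instr) (s : Store) : stepM p (p.length, s) = (p.length, s) := by
  simp [stepM]

theorem stepM_halt_iter (p : List Instr) (s : Store) (t : ℕ) :
    (stepM p)^[t] (p.length, s) = (p.length, s) :=
  Function.iterate_fixed (stepM_halt p s) t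

theorem stepM_iter_compile (c : Cmd) (t : ℕ) : ∀ (L : List Cmd) (s : Store),
    (L ∈ reach c [] ∨ L = []) →
    (stepM (compile c))^[t] ((reach c []).idxOf L, s)
      = ((reach c []).idxOf (stepC^[t] (L, s)).1, (stepC^[t] (L, s)).2) := by
  induction t with
  | zero => intro L s _; rfl
  | succ t ih =>
    intro L s hL
    rw [iterate_succ_apply, iterate_succ_apply]
    rcases hL with hL | hL
    · rw [stepM_compile c L s hL]
      exact ih _ _ (stepC_mem c L s hL)
    · subst hL
      have h1 : stepC ([], s) = ([], s) := rfl
      rw [h1]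
      have h2 : stepM (compile c) ((reach c []).idxOf [], s) = ((reach c []).idxOf [], s) := by
        rw [idxOf_nil]; exact stepM_halt _ _
      rw [h2]
      exact ih _ _ (.inr rfl)

theorem runs_compile {c : Cmd} {s s' : Store} {t : ℕ} (h : Runs c s s' t) :
    (stepM (compile c))^[t] (0, s) = ((compile c).length, s') := by
  have h0 : (reach c []).idxOf [c] = 0 := by
    have : ∃ l, reach c [] = [c] :: l := by cases c <;> simp [reach]
    obtain ⟨l, hl⟩ := this
    rw [hl]; simp
  have h1 := stepM_iter_compile c t [c] s (.inl (mem_reach_self c []))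
  rw [h0, h.steps [], idxOf_nil] at h1
  exact h1

/-- Well-formed programs: jump targets are at most the length, registers are below `κ`. -/
def WF (p : List Instr) (κ : ℕ) : Prop :=
  ∀ i ∈ p, i.1 ≤ 3 ∧ i.2.1 < κ ∧ i.2.2.1 ≤ p.length ∧ i.2.2.2.1 ≤ p.length ∧
    i.2.2.2.2 ≤ p.length

theorem exists_wf_compile (c : Cmd) : ∃ κ, 0 < κ ∧ WF (compile c) κ := by
  refine ⟨((compile c).map fun i => i.2.1).sum + 1, by omega, fun i hi => ?_⟩
  have h1 : i.2.1 ≤ ((compile c).map fun i => i.2.1).sum :=
    List.single_le_sum (by simp) _ (List.mem_map.2 ⟨i, hi, rfl⟩)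
  have h2 : ∀ L, (reach c []).idxOf L ≤ (compile c).length := fun L => by
    rw [length_compile]; exact List.idxOf_le_length
  have h3 : i.1 ≤ 3 ∧ i.2.2.1 ≤ (compile c).length ∧ i.2.2.2.1 ≤ (compile c).length ∧
    i.2.2.2.2 ≤ (compile c).length := by
    obtain ⟨L, hL, rfl⟩ := List.mem_map.1 hi
    rcases L with _ | ⟨a, K⟩
    · exact absurd rfl (reach_ne_nil c _ _ hL)
    · cases a with
      | push k b => cases b <;> simp [instrOf, h2]
      | _ => simp [instrOf, h2]
  exact ⟨h3.1, by omega, h3.2⟩

/-- From `Cp` to flat machines. -/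
theorem Cp.machine {m : Mode} {D : Type} {e e' : D → List Bool} (h : Cp m e e') :
    ∃ (p : List Instr) (κ : ℕ) (T : D → ℕ), 0 < κ ∧ WF p κ ∧ BD m e T ∧
      ∀ d, ∃ t ≤ T d, (stepM p)^[t] (0, ini (e d)) = (p.length, ini (e' d)) := by
  obtain ⟨code, T, hT, hc⟩ := h
  obtain ⟨κ, hκ, hwf⟩ := exists_wf_compile (code 0)
  refine ⟨compile (code 0), κ, T, hκ, hwf, hT, fun d => ?_⟩
  obtain ⟨t, ht, hr⟩ := hc 0 (ini (e d)) d (fun j hj => by
    unfold ini; rw [update_of_ne hj.ne']) (by simp [ini])
  refine ⟨t, ht, ?_⟩
  rw [runs_compile hr]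
  congr 1
  simp [ini]

/-! Universal version on lists. -/

/-- Write `v` at position `k`, extending the list if necessary. -/
def setE (l : List (List Bool)) (k : ℕ) (v : List Bool) : List (List Bool) :=
  (List.range (l.length + (k + 1 - l.length))).map (fun i => if i = k then v else l.getD i [])

/-- The store given by a list of stacks. -/
def toStore (l : List (List Bool)) : Store := fun j => l.getD j []

theorem toStore_setE (l : List (List Bool)) (k : ℕ) (v : List Bool) :
    toStore (setE l k v) = update (toStore l) k v := by
  funext j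
  unfold toStore setE
  rw [List.getD_eq_getElem?_getD, List.getElem?_map]
  by_cases hj : j < l.length + (k + 1 - l.length)
  · rw [List.getElem?_range hj]
    by_cases hjk : j = k
    · subst hjk; simp
    · simp [update_of_ne hjk, hjk]
  · rw [List.getElem?_eq_none (by simp; omega)]
    have : j ≠ k := by omega
    rw [update_of_ne this, List.getD_eq_getElem?_getD, List.getElem?_eq_none (by omega)]
    rfl

/-- One step, on lists. -/
def stepL (p : List Instr) (c : ℕ × List (List Bool)) : ℕ × List (List Bool) :=
  (p[c.1]?).elim c fun i =>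
    if i.1 = 0 then (i.2.2.1, setE c.2 i.2.1 (false :: c.2.getD i.2.1 []))
    else if i.1 = 1 then (i.2.2.1, setE c.2 i.2.1 (true :: c.2.getD i.2.1 []))
    else if i.1 = 2 then (i.2.2.1, setE c.2 i.2.1 (c.2.getD i.2.1 []).tail)
    else if i.1 = 3 then
      (listElim (c.2.getD i.2.1 []) i.2.2.1
        (fun b _ => if b then i.2.2.2.2 else i.2.2.2.1), c.2)
    else c

theorem stepL_toStore (p : List Instr) (c : ℕ × List (List Bool)) :
    ((stepL p c).1, toStore (stepL p c).2) = stepM p (c.1, toStore c.2) := by
  unfold stepL stepM
  obtain h | ⟨i, h⟩ : p[c.1]? = none ∨ ∃ i, p[c.1]? = some i := by cases p[c.1]? <;> simp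
  · simp [h]
  · simp only [h, Option.elim_some]
    split_ifs with h1 h2 h3 h4
    · simp [toStore_setE, toStore]
    · simp [toStore_setE, toStore]
    · simp [toStore_setE, toStore]
    · have : toStore c.2 i.2.1 = c.2.getD i.2.1 [] := rfl
      simp only [this]
      rcases c.2.getD i.2.1 [] with _ | ⟨_ | _, l⟩ <;> simp [listElim]
    · rfl

theorem stepL_iter (p : List Instr) (t : ℕ) (c : ℕ × List (List Bool)) :
    (((stepL p)^[t] c).1, toStore ((stepL p)^[t] c).2) = (stepM p)^[t] (c.1, toStore c.2) := by
  induction t with
  | zero => rfl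
  | succ t ih => rw [iterate_succ_apply', iterate_succ_apply', ← ih, ← stepL_toStore]

theorem toStore_single (x : List Bool) : toStore [x] = ini x := by
  funext j
  unfold toStore ini
  cases j with
  | zero => simp
  | succ j => simp

/-- Clocked output: the content of register `0` if the machine halts within `t` steps. -/
def outL (p : List Instr) (t : ℕ) (x : List Bool) : Option (List Bool) :=
  if (p[((stepL p)^[t] (0, [x])).1]?).isSome then none
  else some (((stepL p)^[t] (0, [x])).2.getD 0 [])

theorem outL_of_halt {p : List Instr} {t t' : ℕ} {x y : List Bool} {s : Store}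
    (h : (stepM p)^[t'] (0, ini x) = (p.length, s)) (hy : s 0 = y) (ht : t' ≤ t) :
    outL p t x = some y := by
  have h1 := stepL_iter p t (0, [x])
  obtain ⟨r, rfl⟩ := Nat.exists_eq_add_of_le ht
  have h2 : (stepM p)^[t' + r] (0, toStore [x]) = (p.length, s) := by
    rw [Nat.add_comm, iterate_add_apply, toStore_single, h, stepM_halt_iter]
  rw [h2] at h1
  have h3 : ((stepL p)^[t' + r] (0, [x])).1 = p.length := congrArg Prod.fst h1
  have h4 : toStore ((stepL p)^[t' + r] (0, [x])).2 = s := congrArg Prod.snd h1
  unfold outL
  rw [h3, if_neg (by simp)]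
  congr 1
  rw [← hy, ← h4]
  rfl

end HerCo
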