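import Pool.Agent.Lib.MP_a28c52_lc.Base

/-! Typed interface: encodings of data, functions computable in a mode. -/

namespace HerCo

open Function

theorem BD.mono_len {m : Mode} {D : Type} {e e' : D → List Bool} {f : D → ℕ} (h : BD m e f)
    (hl : ∀ d, (e d).length ≤ (e' d).length) : BD m e' f := by
  cases m with
  | any => trivial
  | poly =>
    obtain ⟨k, hk⟩ := h
    exact ⟨k, fun d => (hk d).trans (Nat.pow_le_pow_left (by have := hl d; omega) _)⟩

theorem Cp.of_eq {m : Mode} {D : Type} {e e' e₂ e₂' : D → List Bool} (h : Cp m e e')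
    (h1 : ∀ d, e d = e₂ d) (h2 : ∀ d, e' d = e₂' d) : Cp m e₂ e₂' := by
  have h1' : e = e₂ := funext h1
  have h2' : e' = e₂' := funext h2
  subst h1' h2'
  exact h

/-- Binary codes of data. -/
class Enc (α : Type) where
  enc : α → List Bool

export Enc (enc)

/-- Size of the code. -/
def sz {α : Type} [Enc α] (a : α) : ℕ := (enc a).length

instance : Enc Bool := ⟨fun b => [b]⟩
instance : Enc Unit := ⟨fun _ => []⟩
instance : Enc ℕ := ⟨fun n => List.replicate n true⟩
instance {α β : Type} [Enc α] [Enc β] : Enc (α × β) := ⟨fun p => dl (enc p.1) ++ enc p.2⟩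
instance {α : Type} [Enc α] : Enc (Option α) := ⟨fun o => o.elim [] fun a => true :: enc a⟩

/-- Code of a list. -/
def encList {α : Type} [Enc α] : List α → List Bool
  | [] => []
  | a :: l => dl (enc a) ++ encList l

instance {α : Type} [Enc α] : Enc (List α) := ⟨encList⟩

variable {α β γ δ σ : Type} [Enc α] [Enc β] [Enc γ] [Enc δ] [Enc σ] {m : Mode}

@[simp] theorem sz_nat (n : ℕ) : sz n = n := by simp [sz, enc]
@[simp] theorem sz_bool (b : Bool) : sz b = 1 := by simp [sz, enc]
@[simp] theorem sz_unit (u : Unit) : sz u = 0 := by simp [sz, enc]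
@[simp] theorem sz_prod (a : α) (b : β) : sz (a, b) = 2 * sz a + 1 + sz b := by simp [sz, enc]
@[simp] theorem sz_none : sz (none : Option α) = 0 := by simp [sz, enc]
@[simp] theorem sz_some (a : α) : sz (some a) = sz a + 1 := by simp [sz, enc]
@[simp] theorem sz_nil : sz ([] : List α) = 0 := by simp [sz, enc, encList]
@[simp] theorem sz_cons (a : α) (l : List α) : sz (a :: l) = 2 * sz a + 1 + sz l := by
  simp [sz, enc, encList]

theorem sz_list (l : List α) : sz l = (l.map fun a => 2 * sz a + 1).sum := by
  induction l with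
  | nil => simp
  | cons a l ih => simp [ih]

@[simp] theorem sz_append (l l' : List α) : sz (l ++ l') = sz l + sz l' := by
  simp [sz_list]

@[simp] theorem sz_reverse (l : List α) : sz l.reverse = sz l := by
  simp [sz_list]

theorem length_le_sz (l : List α) : l.length ≤ sz l := by
  induction l with
  | nil => simp
  | cons a l ih => simp; omega

theorem sz_le_of_mem {l : List α} {a : α} (h : a ∈ l) : sz a ≤ sz l := by
  induction l with
  | nil => cases h
  | cons b l ih =>
    rcases List.mem_cons.1 h with rfl | h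
    · simp; omega
    · have := ih h; simp; omega

theorem sz_le_of_all (l : List α) (B : ℕ) (h : ∀ a ∈ l, sz a ≤ B) :
    sz l ≤ l.length * (2 * B + 1) := by
  induction l with
  | nil => simp
  | cons b l ih =>
    have h1 := ih fun a ha => h a (List.mem_cons_of_mem _ ha)
    have h2 := h b (List.mem_cons_self ..)
    simp only [sz_cons, List.length_cons]
    have h3 : (l.length + 1) * (2 * B + 1) = l.length * (2 * B + 1) + (2 * B + 1) := by ring
    omega

/-- `f` is computable in mode `m` (with respect to the codes). -/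
def FP (m : Mode) (f : α → β) : Prop := Cp m (enc : α → List Bool) (fun a => enc (f a))

/-- Resource functions on coded data. -/
def Bd (m : Mode) (f : α → ℕ) : Prop := BD m (enc : α → List Bool) f

/-- `n a` is the length of a string computable from `a`. -/
def FPlen (m : Mode) (n : α → ℕ) : Prop :=
  ∃ N : α → List Bool, Cp m (enc : α → List Bool) N ∧ ∀ a, (N a).length = n a

theorem Bd.const (c : ℕ) : Bd m (fun _ : α => c) := BD.const c
theorem Bd.sz : Bd m (fun a : α => sz a) := BD.len
theorem Bd.mono {f g : α → ℕ} (hg : Bd m g) (h : ∀ x, f x ≤ g x) : Bd m f := BD.mono hg h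
theorem Bd.add {f g : α → ℕ} (hf : Bd m f) (hg : Bd m g) : Bd m (fun x => f x + g x) :=
  BD.add hf hg
theorem Bd.mul {f g : α → ℕ} (hf : Bd m f) (hg : Bd m g) : Bd m (fun x => f x * g x) :=
  BD.mul hf hg
theorem Bd.natPow {f : α → ℕ} (hf : Bd m f) (d : ℕ) : Bd m (fun x => (f x + 2) ^ d) :=
  BD.natPow hf d
theorem FP.bd {f : α → β} (hf : FP m f) : Bd m (fun a => HerCo.sz (f a)) := Cp.size hf

theorem Bd.comp {g : β → ℕ} {f : α → β} (hg : Bd m g) (hf : FP m f) :
    Bd m (fun a => g (f a)) := by
  have h1 : BD m (fun a => enc (f a)) (fun a => g (f a)) := BD.reindex hg f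
  exact h1.comp hf.size

theorem FPlen.bd {n : α → ℕ} (h : FPlen m n) : Bd m n := by
  obtain ⟨N, hN, hn⟩ := h
  exact BD.mono hN.size fun x => (hn x).ge

theorem FP.toAny {f : α → β} (hf : FP m f) : FP .any f := Cp.toAny hf

theorem FP.id : FP m (fun a : α => a) := Cp.id

theorem FP.const (c : β) : FP m (fun _ : α => c) := Cp.const _

theorem FP.comp {g : β → γ} {f : α → β} (hg : FP m g) (hf : FP m f) :
    FP m (fun a => g (f a)) :=
  Cp.comp (Cp.reindex hg f) hf

theorem FP.pair {f : α → β} {g : α → γ} (hf : FP m f) (hg : FP m g) :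
    FP m (fun a => (f a, g a)) := Cp.pair hf hg

theorem FP.fst {f : α → β × γ} (hf : FP m f) : FP m (fun a => (f a).1) := by
  have h : FP m (fun p : β × γ => p.1) :=
    (Cp.fstS (e := (enc : β × γ → List Bool))).of_eq (fun _ => rfl) fun p => by
      show fstS (dl (enc p.1) ++ enc p.2) = _
      rw [fstS_dl]
  exact h.comp hf

theorem FP.snd {f : α → β × γ} (hf : FP m f) : FP m (fun a => (f a).2) := by
  have h : FP m (fun p : β × γ => p.2) :=
    (Cp.sndS (e := (enc : β × γ → List Bool))).of_eq (fun _ => rfl) fun p => by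
      show sndS (dl (enc p.1) ++ enc p.2) = _
      rw [sndS_dl]
  exact h.comp hf

theorem FP.comp₂ {g : β × γ → δ} {f : α → β} {f' : α → γ} (hg : FP m g) (hf : FP m f)
    (hf' : FP m f') : FP m (fun a => g (f a, f' a)) := hg.comp (hf.pair hf')

theorem FP.comp₃ {g : β × γ × δ → σ} {f : α → β} {f' : α → γ} {f'' : α → δ} (hg : FP m g)
    (hf : FP m f) (hf' : FP m f') (hf'' : FP m f'') : FP m (fun a => g (f a, f' a, f'' a)) :=
  hg.comp (hf.pair (hf'.pair hf''))

theorem FP.congr {f g : α → β} (hf : FP m f) (h : ∀ a, f a = g a) : FP m g := by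
  have : f = g := funext h
  rwa [← this]

theorem FP.ite {c : α → Bool} {f g : α → β} (hc : FP m c) (hf : FP m f) (hg : FP m g) :
    FP m (fun a => if c a then f a else g a) := by
  refine Cp.branch (q := fun a => enc (c a)) hc ?_ ?_ ?_
  · refine (Cp.reindex hf Subtype.val).of_eq (fun _ => rfl) ?_
    rintro ⟨d, hd⟩
    simp [enc] at hd
  · refine (Cp.reindex hg Subtype.val).of_eq (fun _ => rfl) ?_
    rintro ⟨d, l, hd⟩
    simp only [enc, List.cons.injEq] at hd
    simp [hd.1]
  · refine (Cp.reindex hf Subtype.val).of_eq (fun _ => rfl) ?_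
    rintro ⟨d, l, hd⟩
    simp only [enc, List.cons.injEq] at hd
    simp [hd.1]

theorem FP.succ {n : α → ℕ} (hn : FP m n) : FP m (fun a => n a + 1) :=
  (Cp.cons true).comp hn

theorem FP.pred {n : α → ℕ} (hn : FP m n) : FP m (fun a => n a - 1) := by
  refine (Cp.tail.comp hn).of_eq (fun _ => rfl) fun a => ?_
  simp [enc]

/-- Case distinction on natural numbers. -/
def natElim {γ : Type} (n : ℕ) (z : γ) (s : ℕ → γ) : γ :=
  match n with
  | 0 => z
  | k + 1 => s k

theorem FP.natElim {n : α → ℕ} {f : α → γ} {g : α × ℕ → γ} (hn : FP m n) (hf : FP m f)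
    (hg : FP m g) : FP m (fun a => natElim (n a) (f a) (fun k => g (a, k))) := by
  have hg' : FP m (fun a => g (a, n a - 1)) := hg.comp (FP.id.pair hn.pred)
  refine Cp.branch (q := fun a => enc (n a)) hn ?_ ?_ ?_
  · refine (Cp.reindex hf Subtype.val).of_eq (fun _ => rfl) ?_
    rintro ⟨d, hd⟩
    simp only [enc, List.replicate_eq_nil_iff] at hd
    simp [hd, HerCo.natElim]
  · refine (Cp.reindex hf Subtype.val).of_eq (fun _ => rfl) ?_
    rintro ⟨d, l, hd⟩
    simp only [enc] at hd
    obtain hn | ⟨k, hk⟩ : n d = 0 ∨ ∃ k, n d = k + 1 := by cases n d <;> simp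
    · simp [hn] at hd
    · rw [hk, List.replicate_succ] at hd
      simp at hd
  · refine (Cp.reindex hg' Subtype.val).of_eq (fun _ => rfl) ?_
    rintro ⟨d, l, hd⟩
    simp only [enc] at hd
    obtain hn | ⟨k, hk⟩ : n d = 0 ∨ ∃ k, n d = k + 1 := by cases n d <;> simp
    · simp [hn] at hd
    · simp [HerCo.natElim, hk]

theorem FP.none : FP m (fun _ : α => (none : Option β)) := FP.const _

theorem FP.some {f : α → β} (hf : FP m f) : FP m (fun a => some (f a)) :=
  (Cp.cons true).comp hf

theorem FP.optElim {o : α → Option β} {f : α → γ} {g : α × β → γ} (ho : FP m o) (hf : FP m f)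
    (hg : FP m g) : FP m (fun a => (o a).elim (f a) (fun b => g (a, b))) := by
  refine Cp.branch (q := fun a => enc (o a)) ho ?_ ?_ ?_
  · refine (Cp.reindex hf Subtype.val).of_eq (fun _ => rfl) ?_
    rintro ⟨d, hd⟩
    obtain h | ⟨b, h⟩ : o d = .none ∨ ∃ b, o d = .some b := by cases o d <;> simp
    · simp [h]
    · simp [enc, h] at hd
  · refine (Cp.reindex hf Subtype.val).of_eq (fun _ => rfl) ?_
    rintro ⟨d, l, hd⟩
    obtain h | ⟨b, h⟩ : o d = .none ∨ ∃ b, o d = .some b := by cases o d <;> simp
    · simp [enc, h] at hd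
    · simp [enc, h] at hd
  · have hs : ∀ d : {d // ∃ l, enc (o d) = true :: l}, (o d.1).isSome := by
      rintro ⟨d, l, hd⟩
      obtain h | ⟨b, h⟩ : o d = .none ∨ ∃ b, o d = .some b := by cases o d <;> simp
      · simp [enc, h] at hd
      · simp [h]
    have h1 : Cp m (fun d : {d // ∃ l, enc (o d) = true :: l} => enc d.1)
        (fun d => enc (d.1, (o d.1).get (hs d))) := by
      refine (Cp.pair Cp.id (Cp.tail.comp (Cp.reindex ho Subtype.val))).of_eq (fun _ => rfl) ?_
      intro d
      have := hs d
      obtain ⟨b, hb⟩ := Option.isSome_iff_exists.1 this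
      simp [enc, hb]
    refine ((Cp.reindex hg (fun d : {d // ∃ l, enc (o d) = true :: l} =>
      (d.1, (o d.1).get (hs d)))).comp h1).of_eq (fun _ => rfl) ?_
    intro d
    obtain ⟨b, hb⟩ := Option.isSome_iff_exists.1 (hs d)
    simp [hb]

/-- Case distinction on lists. -/
def listElim {β γ : Type} (l : List β) (z : γ) (s : β → List β → γ) : γ :=
  match l with
  | [] => z
  | b :: t => s b t

theorem enc_cons (b : β) (t : List β) : enc (b :: t) = dl (enc b) ++ enc t := rfl

theorem enc_eq_nil (l : List β) (h : enc l = []) : l = [] := by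
  cases l with
  | nil => rfl
  | cons b t =>
    have := congrArg List.length h
    simp [enc_cons] at this

theorem FP.listElim {l : α → List β} {f : α → γ} {g : α × β × List β → γ} (hl : FP m l)
    (hf : FP m f) (hg : FP m g) :
    FP m (fun a => listElim (l a) (f a) (fun b t => g (a, b, t))) := by
  have key : ∀ P : α → Prop, (∀ d, P d → l d ≠ []) →
      Cp m (fun d : {d // P d} => enc d.1)
        (fun d => enc (HerCo.listElim (l d.1) (f d.1) (fun b t => g (d.1, b, t)))) := by
    intro P hP
    have h1 : Cp m (fun d : {d // P d} => enc d.1)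
        (fun d => enc (d.1, (l d.1).head (hP d.1 d.2), (l d.1).tail)) := by
      refine (Cp.pair Cp.id (Cp.reindex hl Subtype.val)).of_eq (fun _ => rfl) ?_
      intro d
      show dl (enc d.1) ++ enc (l d.1) = _
      have hne := hP d.1 d.2
      have : enc (l d.1) = dl (enc ((l d.1).head hne)) ++ enc (l d.1).tail := by
        rw [← enc_cons, List.cons_head_tail]
      rw [this]
      rfl
    refine ((Cp.reindex hg (fun d : {d // P d} =>
      (d.1, (l d.1).head (hP d.1 d.2), (l d.1).tail))).comp h1).of_eq (fun _ => rfl) ?_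
    intro d
    have hne := hP d.1 d.2
    congr 1
    generalize hP d.1 d.2 = hh
    revert hh
    cases h : l d.1 with
    | nil => exact absurd h hne
    | cons b t => intro hh; simp [HerCo.listElim]
  refine Cp.branch (q := fun a => enc (l a)) hl ?_ (key _ ?_) (key _ ?_)
  · refine (Cp.reindex hf Subtype.val).of_eq (fun _ => rfl) ?_
    rintro ⟨d, hd⟩
    simp [enc_eq_nil _ hd, HerCo.listElim]
  · rintro d ⟨l', hd⟩ h
    rw [h] at hd
    simp [enc, encList] at hd
  · rintro d ⟨l', hd⟩ h
    rw [h] at hd
    simp [enc, encList] at hd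

theorem FP.nil : FP m (fun _ : α => ([] : List β)) := FP.const _

theorem FP.cons {f : α → β} {g : α → List β} (hf : FP m f) (hg : FP m g) :
    FP m (fun a => f a :: g a) := (hf.pair hg).of_eq (fun _ => rfl) fun _ => rfl

theorem FP.tail {l : α → List β} (hl : FP m l) : FP m (fun a => (l a).tail) := by
  refine (FP.listElim hl FP.nil (FP.snd (FP.snd FP.id))).congr fun a => ?_
  cases l a <;> rfl

theorem FP.head? {l : α → List β} (hl : FP m l) : FP m (fun a => (l a).head?) := by
  refine (FP.listElim hl FP.none (FP.some (FP.fst (FP.snd FP.id)))).congr fun a => ?_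
  cases l a <;> rfl

theorem FP.isEmpty {l : α → List β} (hl : FP m l) : FP m (fun a => (l a).isEmpty) := by
  refine (FP.listElim hl (FP.const true) (g := fun _ => false) (FP.const false)).congr
    fun a => ?_
  cases l a <;> rfl

theorem FP.len {n : α → ℕ} (h : FP m n) : FPlen m n := ⟨fun a => enc (n a), h, fun a => by
  simp [enc]⟩

theorem FP.szLen {f : α → β} (h : FP m f) : FPlen m (fun a => sz (f a)) :=
  ⟨fun a => enc (f a), h, fun _ => rfl⟩

theorem FP.iterate {init : α → σ} {h : α × σ → σ} {n : α → ℕ} (hi : FP m init) (hh : FP m h)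
    (hn : FPlen m n)
    (hb : m = .poly → ∃ B : α → ℕ, Bd .poly B ∧
      ∀ a i, i ≤ n a → sz ((fun s => h (a, s))^[i] (init a)) ≤ B a) :
    FP m (fun a => (fun s => h (a, s))^[n a] (init a)) := by
  have hnb := hn.bd
  obtain ⟨N, hN, hNn⟩ := hn
  let st : α → ℕ → σ := fun a i => (fun s => h (a, s))^[i] (init a)
  let v : α → ℕ → List Bool := fun a i => dl (N a) ++ enc (a, st a i)
  have h0 : Cp m (enc : α → List Bool) (fun a => v a 0) := by
    refine Cp.pair hN ?_
    exact FP.pair FP.id hi
  have hstep : Cp m (fun p : {p : α × ℕ // p.2 < (N p.1).length} => v p.1.1 p.1.2)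
      (fun p => v p.1.1 (p.1.2 + 1)) := by
    have h1 : Cp m (fun p : {p : α × ℕ // p.2 < (N p.1).length} => v p.1.1 p.1.2)
        (fun p => N p.1.1) := Cp.fstS.of_eq (fun _ => rfl) (fun p => by simp [v])
    have h2 : Cp m (fun p : {p : α × ℕ // p.2 < (N p.1).length} => v p.1.1 p.1.2)
        (fun p => enc (p.1.1, st p.1.1 p.1.2)) :=
      Cp.sndS.of_eq (fun _ => rfl) (fun p => by simp [v])
    have h3 : FP m (fun p : α × σ => (p.1, h p)) := (FP.fst FP.id).pair hh
    have h4 := (Cp.reindex h3 (fun p : {p : α × ℕ // p.2 < (N p.1).length} =>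
      (p.1.1, st p.1.1 p.1.2))).comp h2
    refine (h1.pair h4).of_eq (fun _ => rfl) fun p => ?_
    simp only [v, st, iterate_succ_apply']
  have hc : Cp m (fun a => v a 0) N := Cp.fstS.of_eq (fun _ => rfl) (fun p => by simp [v])
  have hlen : ∀ a, (enc a).length ≤ (v a 0).length := by
    intro a
    simp only [v, List.length_append, length_dl]
    have : (enc (a, st a 0)).length = sz (a, st a 0) := rfl
    rw [this, sz_prod]
    simp only [sz]
    omega
  have hiter := Cp.iter hstep hc (fun hm => by
    subst hm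
    obtain ⟨B, hB, hBx⟩ := hb rfl
    refine ⟨fun a => 2 * n a + 2 * sz a + 2 + B a, ?_, ?_⟩
    · refine BD.mono_len (e := enc) ?_ hlen
      exact ((((Bd.const 2).mul hnb).add ((Bd.const 2).mul Bd.sz)).add (Bd.const 2)).add hB
    · intro a i hi'
      have h1 := hBx a i (by rw [← hNn]; exact hi')
      simp only [v, List.length_append, length_dl]
      have : (enc (a, st a i)).length = sz (a, st a i) := rfl
      rw [this, sz_prod, hNn]
      simp only [st] at h1 ⊢
      omega)
  have h5 := Cp.sndS.comp (hiter.comp h0)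
  have h6 : Cp m (enc : α → List Bool) (fun a => enc (a, st a (n a))) :=
    h5.of_eq (fun _ => rfl) (fun a => by simp [v, hNn])
  have h7 : FP m (fun a => (a, st a (n a))) := h6
  exact h7.snd

end HerCo
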