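import Pool.Agent.Lib.MP_a28c52_lc.Typed

/-! Derived functions. -/

namespace HerCo

open Function

attribute [fun_prop] FP
attribute [fun_prop] FP.id FP.const FP.comp FP.pair FP.fst FP.snd FP.succ FP.pred
  FP.cons FP.tail FP.head? FP.isEmpty FP.some

variable {α β γ δ σ : Type} [Enc α] [Enc β] [Enc γ] [Enc δ] [Enc σ] {m : Mode}

theorem FP.comp2' {f : α → β} {f' : α → γ} {g : β → γ → δ}
    (hg : FP m (fun p : β × γ => g p.1 p.2)) (hf : FP m f)
    (hf' : FP m f') : FP m (fun a => g (f a) (f' a)) := hg.comp (hf.pair hf')

@[fun_prop]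
theorem FP.iteP {p : α → Prop} [inst : ∀ a, Decidable (p a)] {f g : α → β}
    (hp : FP m (fun a => decide (p a))) (hf : FP m f) (hg : FP m g) :
    FP m (fun a => if p a then f a else g a) :=
  (FP.ite hp hf hg).congr fun a => by by_cases h : p a <;> simp [h]

@[fun_prop]
theorem FP.decTrue {c : α → Bool} (hc : FP m c) : FP m (fun a => decide (c a = true)) :=
  hc.congr fun a => by simp

@[fun_prop]
theorem FP.decFalse {c : α → Bool} (hc : FP m c) : FP m (fun a => decide (c a = false)) :=
  (FP.ite hc (FP.const false) (FP.const true)).congr fun a => by cases c a <;> rfl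

@[fun_prop]
theorem FP.not {c : α → Bool} (hc : FP m c) : FP m (fun a => !(c a)) :=
  (FP.ite hc (FP.const false) (FP.const true)).congr fun a => by cases c a <;> rfl

@[fun_prop]
theorem FP.and {c d : α → Bool} (hc : FP m c) (hd : FP m d) : FP m (fun a => c a && d a) :=
  (FP.ite hc hd (FP.const false)).congr fun a => by cases c a <;> rfl

@[fun_prop]
theorem FP.or {c d : α → Bool} (hc : FP m c) (hd : FP m d) : FP m (fun a => c a || d a) :=
  (FP.ite hc (FP.const true) hd).congr fun a => by cases c a <;> rfl

@[fun_prop]
theorem FP.decAnd {p q : α → Prop} [∀ a, Decidable (p a)] [∀ a, Decidable (q a)]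
    (hp : FP m (fun a => decide (p a))) (hq : FP m (fun a => decide (q a))) :
    FP m (fun a => decide (p a ∧ q a)) :=
  (hp.and hq).congr fun a => by simp

@[fun_prop]
theorem FP.decOr {p q : α → Prop} [∀ a, Decidable (p a)] [∀ a, Decidable (q a)]
    (hp : FP m (fun a => decide (p a))) (hq : FP m (fun a => decide (q a))) :
    FP m (fun a => decide (p a ∨ q a)) :=
  (hp.or hq).congr fun a => by simp

@[fun_prop]
theorem FP.decNot {p : α → Prop} [∀ a, Decidable (p a)]
    (hp : FP m (fun a => decide (p a))) :
    FP m (fun a => decide (¬ p a)) :=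
  (hp.not).congr fun a => by simp

@[fun_prop]
theorem FP.boolEq {c d : α → Bool} (hc : FP m c) (hd : FP m d) :
    FP m (fun a => c a == d a) :=
  (FP.ite hc hd hd.not).congr fun a => by cases c a <;> cases d a <;> rfl

/-- Folding over a list, with a bound on the intermediate values. -/
theorem FP.foldl {l : α → List β} {g : α → γ} {h : α → γ → β → γ} (hl : FP m l) (hg : FP m g)
    (hh : FP m (fun p : α × γ × β => h p.1 p.2.1 p.2.2))
    (hb : m = .poly → ∃ B : α → ℕ, Bd .poly B ∧
      ∀ a l', l' <+: l a → sz (l'.foldl (h a) (g a)) ≤ B a) :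
    FP m (fun a => (l a).foldl (h a) (g a)) := by
  let step : α × (List β × γ) → List β × γ := fun p =>
    HerCo.listElim p.2.1 p.2 (fun b t => (t, h p.1 p.2.2 b))
  have hstep : FP m step := by
    refine FP.listElim (g := fun q : (α × (List β × γ)) × β × List β =>
      (q.2.2, h q.1.1 q.1.2.2 q.2.1)) (by fun_prop) (by fun_prop) ?_
    refine FP.pair (by fun_prop) ?_
    exact FP.comp (f := fun q : (α × (List β × γ)) × β × List β => (q.1.1, q.1.2.2, q.2.1)) hh
      (by fun_prop)
  have hit : ∀ a i (l₀ : List β) (c : γ), (fun s => step (a, s))^[i] (l₀, c)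
      = (l₀.drop i, (l₀.take i).foldl (h a) c) := by
    intro a i
    induction i with
    | zero => intro l₀ c; simp
    | succ i ih =>
      intro l₀ c
      rw [iterate_succ_apply]
      cases l₀ with
      | nil =>
        show (fun s => step (a, s))^[i] ([], c) = _
        rw [ih]; simp
      | cons b t =>
        show (fun s => step (a, s))^[i] (t, h a c b) = _
        rw [ih]; simp
  have h1 := FP.iterate (n := fun a => sz (l a)) (init := fun a => (l a, g a)) (h := step)
    (hl.pair hg) hstep hl.szLen (by
      intro hm
      obtain ⟨B, hB, hBx⟩ := hb hm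
      subst hm
      refine ⟨fun a => 2 * sz (l a) + 1 + B a,
        (((Bd.const 2).mul hl.bd).add (Bd.const 1)).add hB, fun a i _ => ?_⟩
      rw [hit, sz_prod]
      have e1 : sz ((l a).drop i) ≤ sz (l a) := by
        have := sz_append ((l a).take i) ((l a).drop i)
        rw [List.take_append_drop] at this
        omega
      have e2 := hBx a _ (List.take_prefix i (l a))
      beta_reduce
      omega)
  refine h1.snd.congr fun a => ?_
  rw [hit, List.take_of_length_le (length_le_sz _)]

theorem FP.foldlAny {l : α → List β} {g : α → γ} {h : α → γ → β → γ} (hl : FP .any l)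
    (hg : FP .any g)
    (hh : FP .any (fun p : α × γ × β => h p.1 p.2.1 p.2.2)) :
    FP .any (fun a => (l a).foldl (h a) (g a)) :=
  FP.foldl hl hg hh (fun h => nomatch h)

theorem sz_le_of_prefix {l l' : List β} (h : l' <+: l) : sz l' ≤ sz l := by
  obtain ⟨t, rfl⟩ := h
  simp

@[fun_prop]
theorem FP.reverse {l : α → List β} (hl : FP m l) : FP m (fun a => (l a).reverse) := by
  have e : ∀ (l : List β) (c : List β), l.foldl (fun c b => b :: c) c = l.reverse ++ c := by
    intro l
    induction l with
    | nil => intro c; rfl
    | cons b l ih => intro c; simp [ih]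
  refine (FP.foldl (g := fun _ => ([] : List β)) (h := fun _ c b => b :: c) hl (by fun_prop)
    (by fun_prop) fun hm => ?_).congr fun a => ?_
  · subst hm
    refine ⟨fun a => sz (l a), hl.bd, fun a l' h => ?_⟩
    rw [e, List.append_nil, sz_reverse]
    exact sz_le_of_prefix h
  · rw [e, List.append_nil]

@[fun_prop]
theorem FP.append {f g : α → List β} (hf : FP m f) (hg : FP m g) :
    FP m (fun a => f a ++ g a) := by
  have e : ∀ (l : List β) (c : List β), l.foldl (fun c b => b :: c) c = l.reverse ++ c := by
    intro l
    induction l with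
    | nil => intro c; rfl
    | cons b l ih => intro c; simp [ih]
  refine (FP.foldl (l := fun a => (f a).reverse) (g := g) (h := fun _ c b => b :: c)
    (by fun_prop) hg (by fun_prop) fun hm => ?_).congr fun a => ?_
  · subst hm
    refine ⟨fun a => sz (f a) + sz (g a), hf.bd.add hg.bd, fun a l' h => ?_⟩
    rw [e, sz_append, sz_reverse]
    have := sz_le_of_prefix h
    rw [sz_reverse] at this
    beta_reduce
    omega
  · rw [e, List.reverse_reverse]

/-- Bound on a function of two arguments over the members of a list. -/
theorem FP.bd_mem {l : α → List β} {g : α → β → γ} (hl : FP .poly l)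
    (hg : FP .poly (fun p : α × β => g p.1 p.2)) :
    ∃ B : α → ℕ, Bd .poly B ∧ ∀ a, ∀ b ∈ l a, sz (g a b) ≤ B a := by
  obtain ⟨k, hk⟩ := hg.bd
  refine ⟨fun a => (2 * sz a + 1 + sz (l a) + 2) ^ k,
    ((((Bd.const 2).mul Bd.sz).add (Bd.const 1)).add hl.bd).natPow k, fun a b hb => ?_⟩
  refine (hk (a, b)).trans (Nat.pow_le_pow_left ?_ _)
  have h1 : (enc (a, b)).length = sz (a, b) := rfl
  have h2 := sz_le_of_mem hb
  rw [h1, sz_prod]
  omega

@[fun_prop]
theorem FP.map {l : α → List β} {g : α → β → γ} (hl : FP m l)
    (hg : FP m (fun p : α × β => g p.1 p.2)) : FP m (fun a => (l a).map (fun b => g a b)) := by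
  have e : ∀ a (l : List β) (c : List γ), l.foldl (fun c b => g a b :: c) c
      = (l.map (fun b => g a b)).reverse ++ c := by
    intro a l
    induction l with
    | nil => intro c; rfl
    | cons b l ih => intro c; simp [ih]
  have h1 : FP m (fun a => (l a).foldl (fun c b => g a b :: c) ([] : List γ)) := by
    refine FP.foldl (h := fun a c b => g a b :: c) hl (by fun_prop) (by fun_prop) fun hm => ?_
    subst hm
    obtain ⟨B, hB, hBx⟩ := FP.bd_mem hl hg
    refine ⟨fun a => sz (l a) * (2 * B a + 1), hl.bd.mul (((Bd.const 2).mul hB).add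
      (Bd.const 1)), fun a l' hl' => ?_⟩
    rw [e, List.append_nil, sz_reverse]
    have h2 := sz_le_of_all (l'.map fun b => g a b) (B a) (by
      intro c hc
      obtain ⟨b, hb, rfl⟩ := List.mem_map.1 hc
      exact hBx a b (hl'.subset hb))
    rw [List.length_map] at h2
    exact h2.trans (Nat.mul_le_mul_right _ (hl'.length_le.trans (length_le_sz _)))
  refine h1.reverse.congr fun a => ?_
  rw [e, List.append_nil, List.reverse_reverse]

@[fun_prop]
theorem FP.filter {l : α → List β} {g : α → β → Bool} (hl : FP m l)
    (hg : FP m (fun p : α × β => g p.1 p.2)) :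
    FP m (fun a => (l a).filter (fun b => g a b)) := by
  have e : ∀ a (l : List β) (c : List β), l.foldl (fun c b => if g a b then b :: c else c) c
      = (l.filter (fun b => g a b)).reverse ++ c := by
    intro a l
    induction l with
    | nil => intro c; rfl
    | cons b l ih => intro c; by_cases h : g a b <;> simp [ih, h]
  have h1 : FP m (fun a => (l a).foldl (fun c b => if g a b then b :: c else c)
      ([] : List β)) := by
    refine FP.foldl (h := fun a c b => if g a b then b :: c else c) hl (by fun_prop) ?_
      fun hm => ?_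
    · refine FP.ite (c := fun p : α × List β × β => g p.1 p.2.2) ?_ (by fun_prop) (by fun_prop)
      exact hg.comp (f := fun p : α × List β × β => (p.1, p.2.2)) (by fun_prop)
    · subst hm
      refine ⟨fun a => sz (l a), hl.bd, fun a l' hl' => ?_⟩
      rw [e, List.append_nil, sz_reverse]
      refine le_trans ?_ (sz_le_of_prefix hl')
      clear hl'
      induction l' with
      | nil => simp
      | cons b l' ih =>
        by_cases h : g a b
        · simp [h, ih]
        · simp [h]; omega
  refine h1.reverse.congr fun a => ?_
  rw [e, List.append_nil, List.reverse_reverse]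

@[fun_prop]
theorem FP.flatMap {l : α → List β} {g : α → β → List γ} (hl : FP m l)
    (hg : FP m (fun p : α × β => g p.1 p.2)) :
    FP m (fun a => (l a).flatMap (fun b => g a b)) := by
  have e : ∀ a (l : List β) (c : List γ), l.foldl (fun c b => c ++ g a b) c
      = c ++ (l.flatMap (fun b => g a b)) := by
    intro a l
    induction l with
    | nil => intro c; simp
    | cons b l ih => intro c; simp [ih]
  have h1 : FP m (fun a => (l a).foldl (fun c b => c ++ g a b) ([] : List γ)) := by
    refine FP.foldl (h := fun a c b => c ++ g a b) hl (by fun_prop) (by fun_prop) fun hm => ?_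
    subst hm
    obtain ⟨B, hB, hBx⟩ := FP.bd_mem hl hg
    refine ⟨fun a => sz (l a) * B a, hl.bd.mul hB, fun a l' hl' => ?_⟩
    rw [e, List.nil_append]
    have h2 : ∀ l' : List β, (∀ b ∈ l', sz (g a b) ≤ B a) →
        sz (l'.flatMap fun b => g a b) ≤ l'.length * B a := by
      intro l'
      induction l' with
      | nil => intro _; simp
      | cons b l' ih =>
        intro h
        have h3 := ih fun b hb => h b (List.mem_cons_of_mem _ hb)
        have h4 := h b (List.mem_cons_self ..)
        simp only [List.flatMap_cons, sz_append, List.length_cons, Nat.succ_mul]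
        omega
    exact (h2 l' fun b hb => hBx a b (hl'.subset hb)).trans
      (Nat.mul_le_mul_right _ (hl'.length_le.trans (length_le_sz _)))
  refine h1.congr fun a => ?_
  rw [e, List.nil_append]

@[fun_prop]
theorem FP.length {l : α → List β} (hl : FP m l) : FP m (fun a => (l a).length) := by
  have e : ∀ (l : List β) (n : ℕ), l.foldl (fun n _ => n + 1) n = n + l.length := by
    intro l
    induction l with
    | nil => intro c; simp
    | cons b l ih => intro c; simp [ih]; omega
  refine (FP.foldl (g := fun _ => 0) (h := fun _ n _ => n + 1) hl (by fun_prop)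
    (by fun_prop) fun hm => ?_).congr fun a => ?_
  · subst hm
    refine ⟨fun a => sz (l a), hl.bd, fun a l' h => ?_⟩
    rw [e, sz_nat, Nat.zero_add]
    exact h.length_le.trans (length_le_sz _)
  · rw [e, Nat.zero_add]

@[fun_prop]
theorem FP.all {l : α → List β} {g : α → β → Bool} (hl : FP m l)
    (hg : FP m (fun p : α × β => g p.1 p.2)) :
    FP m (fun a => (l a).all (fun b => g a b)) := by
  have e : ∀ a (l : List β) (c : Bool), l.foldl (fun c b => c && g a b) c
      = (c && l.all (fun b => g a b)) := by
    intro a l
    induction l with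
    | nil => intro c; simp
    | cons b l ih => intro c; simp [ih, Bool.and_assoc]
  refine (FP.foldl (g := fun _ => true) (h := fun a c b => c && g a b) hl (by fun_prop)
    (by fun_prop) fun hm => ⟨fun _ => 1, Bd.const 1, fun a l' _ => by simp⟩).congr
    fun a => ?_
  rw [e]; simp

@[fun_prop]
theorem FP.anyB {l : α → List β} {g : α → β → Bool} (hl : FP m l)
    (hg : FP m (fun p : α × β => g p.1 p.2)) :
    FP m (fun a => (l a).any (fun b => g a b)) := by
  have e : ∀ a (l : List β) (c : Bool), l.foldl (fun c b => c || g a b) c
      = (c || l.any (fun b => g a b)) := by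
    intro a l
    induction l with
    | nil => intro c; simp
    | cons b l ih => intro c; simp [ih, Bool.or_assoc]
  refine (FP.foldl (g := fun _ => false) (h := fun a c b => c || g a b) hl (by fun_prop)
    (by fun_prop) fun hm => ⟨fun _ => 1, Bd.const 1, fun a l' _ => by simp⟩).congr
    fun a => ?_
  rw [e]; simp

/-- Iteration a natural number of times. -/
theorem FP.nat_iterate {init : α → σ} {h : α → σ → σ} {n : α → ℕ} (hi : FP m init)
    (hh : FP m (fun p : α × σ => h p.1 p.2)) (hn : FP m n)
    (hb : m = .poly → ∃ B : α → ℕ, Bd .poly B ∧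
      ∀ a i, i ≤ n a → sz ((h a)^[i] (init a)) ≤ B a) :
    FP m (fun a => (h a)^[n a] (init a)) :=
  FP.iterate (h := fun p : α × σ => h p.1 p.2) hi hh hn.len hb

theorem FP.nat_iterateAny {init : α → σ} {h : α → σ → σ} {n : α → ℕ} (hi : FP .any init)
    (hh : FP .any (fun p : α × σ => h p.1 p.2)) (hn : FP .any n) :
    FP .any (fun a => (h a)^[n a] (init a)) :=
  FP.nat_iterate hi hh hn (fun h => nomatch h)

@[fun_prop]
theorem FP.add {f g : α → ℕ} (hf : FP m f) (hg : FP m g) : FP m (fun a => f a + g a) := by
  have e : ∀ n k : ℕ, (fun s => s + 1)^[n] k = k + n := by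
    intro n
    induction n with
    | zero => intro k; simp
    | succ n ih => intro k; rw [iterate_succ_apply', ih]; omega
  refine (FP.nat_iterate (init := f) (h := fun _ s => s + 1) hf (by fun_prop) hg
    fun hm => ?_).congr fun a => by rw [e]
  subst hm
  refine ⟨fun a => f a + g a, ?_, fun a i hi => ?_⟩
  · have h1 := hf.bd.add hg.bd
    simpa only [sz_nat] using h1
  · rw [e, sz_nat]; beta_reduce; omega

@[fun_prop]
theorem FP.sub {f g : α → ℕ} (hf : FP m f) (hg : FP m g) : FP m (fun a => f a - g a) := by
  have e : ∀ n k : ℕ, (fun s => s - 1)^[n] k = k - n := by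
    intro n
    induction n with
    | zero => intro k; simp
    | succ n ih => intro k; rw [iterate_succ_apply', ih]; omega
  refine (FP.nat_iterate (init := f) (h := fun _ s => s - 1) hf (by fun_prop) hg
    fun hm => ?_).congr fun a => by rw [e]
  subst hm
  refine ⟨fun a => f a, ?_, fun a i hi => ?_⟩
  · have h1 := hf.bd
    simpa only [sz_nat] using h1
  · rw [e, sz_nat]; beta_reduce; omega

@[fun_prop]
theorem FP.mul {f g : α → ℕ} (hf : FP m f) (hg : FP m g) : FP m (fun a => f a * g a) := by
  have e : ∀ c n k : ℕ, (fun s => s + c)^[n] k = k + c * n := by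
    intro c n
    induction n with
    | zero => intro k; simp
    | succ n ih => intro k; rw [iterate_succ_apply', ih]; ring
  refine (FP.nat_iterate (init := fun _ => 0) (h := fun a s => s + f a) (by fun_prop)
    (by fun_prop) hg fun hm => ?_).congr fun a => by rw [e]; simp
  subst hm
  refine ⟨fun a => f a * g a, ?_, fun a i hi => ?_⟩
  · have h1 := hf.bd.mul hg.bd
    simpa only [sz_nat] using h1
  · rw [e, sz_nat, Nat.zero_add]; exact Nat.mul_le_mul_left _ hi

@[fun_prop]
theorem FP.powC {f : α → ℕ} (hf : FP m f) (k : ℕ) : FP m (fun a => f a ^ k) := by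
  induction k with
  | zero => simp only [pow_zero]; fun_prop
  | succ k ih => simp only [pow_succ]; fun_prop

@[fun_prop]
theorem FP.powAny {f g : α → ℕ} (hf : FP .any f) (hg : FP .any g) :
    FP .any (fun a => f a ^ g a) := by
  have e : ∀ c n : ℕ, (fun s => s * c)^[n] 1 = c ^ n := by
    intro c n
    induction n with
    | zero => simp
    | succ n ih => rw [iterate_succ_apply', ih, pow_succ]
  exact (FP.nat_iterateAny (init := fun _ => 1) (h := fun a s => s * f a) (by fun_prop)
    (by fun_prop) hg).congr fun a => by rw [e]

@[fun_prop]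
theorem FP.natIsZero {f : α → ℕ} (hf : FP m f) : FP m (fun a => decide (f a = 0)) := by
  refine (FP.natElim hf (FP.const true) (g := fun _ => false) (by fun_prop)).congr fun a => ?_
  cases h : f a <;> simp [HerCo.natElim]

@[fun_prop]
theorem FP.natLe {f g : α → ℕ} (hf : FP m f) (hg : FP m g) :
    FP m (fun a => decide (f a ≤ g a)) :=
  (FP.natIsZero (f := fun a => f a - g a) (by fun_prop)).congr fun a => by
    simp [Nat.sub_eq_zero_iff_le]

@[fun_prop]
theorem FP.natLt {f g : α → ℕ} (hf : FP m f) (hg : FP m g) :
    FP m (fun a => decide (f a < g a)) :=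
  (FP.natLe (f := fun a => f a + 1) (by fun_prop) hg).congr fun a => by
    simp [Nat.succ_le_iff]

@[fun_prop]
theorem FP.natEq {f g : α → ℕ} (hf : FP m f) (hg : FP m g) :
    FP m (fun a => decide (f a = g a)) :=
  ((hf.natLe hg).and (hg.natLe hf)).congr fun a => by
    rw [← Bool.decide_and]
    congr 1
    exact propext ⟨fun h => le_antisymm h.1 h.2, fun h => ⟨h.le, h.ge⟩⟩

@[fun_prop]
theorem FP.natBeq {f g : α → ℕ} (hf : FP m f) (hg : FP m g) :
    FP m (fun a => f a == g a) := (hf.natEq hg).congr fun a => rfl

@[fun_prop]
theorem FP.range {n : α → ℕ} (hn : FP m n) : FP m (fun a => List.range (n a)) := by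
  have e : ∀ n : ℕ, (fun s : ℕ × List ℕ => (s.1 + 1, s.1 :: s.2))^[n] (0, [])
      = (n, (List.range n).reverse) := by
    intro n
    induction n with
    | zero => rfl
    | succ n ih => rw [iterate_succ_apply', ih, List.range_succ]; simp
  have h1 : FP m (fun a => (fun s : ℕ × List ℕ => (s.1 + 1, s.1 :: s.2))^[n a]
      ((0, []) : ℕ × List ℕ)) := by
    refine FP.nat_iterate (init := fun _ => ((0, []) : ℕ × List ℕ))
      (h := fun _ s => (s.1 + 1, s.1 :: s.2)) (by fun_prop) (by fun_prop) hn fun hm => ?_
    subst hm
    refine ⟨fun a => 2 * n a + 1 + n a * (2 * n a + 1), ?_, fun a i hi => ?_⟩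
    · have h1 := hn.bd
      simp only [sz_nat] at h1
      exact (((Bd.const 2).mul h1).add (Bd.const 1)).add (h1.mul
        (((Bd.const 2).mul h1).add (Bd.const 1)))
    · rw [e, sz_prod, sz_reverse, sz_nat]
      have h2 := sz_le_of_all (List.range i) (n a) (by
        intro b hb
        rw [sz_nat]
        have := List.mem_range.1 hb
        omega)
      rw [List.length_range] at h2
      have h3 : i * (2 * n a + 1) ≤ n a * (2 * n a + 1) := Nat.mul_le_mul_right _ hi
      beta_reduce
      omega
  refine h1.snd.reverse.congr fun a => ?_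
  rw [e, List.reverse_reverse]

@[fun_prop]
theorem FP.replicate {n : α → ℕ} {f : α → β} (hn : FP m n) (hf : FP m f) :
    FP m (fun a => List.replicate (n a) (f a)) := by
  refine (FP.map (l := fun a => List.range (n a)) (g := fun a _ => f a) (by fun_prop)
    (by fun_prop)).congr fun a => ?_
  simp

@[fun_prop]
theorem FP.drop {l : α → List β} {n : α → ℕ} (hl : FP m l) (hn : FP m n) :
    FP m (fun a => (l a).drop (n a)) := by
  have e : ∀ (n : ℕ) (l : List β), (fun s : List β => s.tail)^[n] l = l.drop n := by
    intro n
    induction n with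
    | zero => intro l; rfl
    | succ n ih =>
      intro l
      rw [iterate_succ_apply, ih]
      simp
  refine (FP.nat_iterate (init := l) (h := fun _ s => s.tail) hl (by fun_prop) hn
    fun hm => ?_).congr fun a => by rw [e]
  subst hm
  refine ⟨fun a => sz (l a), hl.bd, fun a i hi => ?_⟩
  rw [e]
  have := sz_append ((l a).take i) ((l a).drop i)
  rw [List.take_append_drop] at this
  beta_reduce
  omega

@[fun_prop]
theorem FP.getElem? {l : α → List β} {n : α → ℕ} (hl : FP m l) (hn : FP m n) :
    FP m (fun a => (l a)[n a]?) :=
  (FP.head? (l := fun a => (l a).drop (n a)) (by fun_prop)).congr fun a => by simp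

@[fun_prop]
theorem FP.optGetD {o : α → Option β} {f : α → β} (ho : FP m o) (hf : FP m f) :
    FP m (fun a => (o a).getD (f a)) :=
  (FP.optElim ho hf (g := fun p : α × β => p.2) (by fun_prop)).congr fun a => by
    cases o a <;> rfl

@[fun_prop]
theorem FP.getD {l : α → List β} {n : α → ℕ} {f : α → β} (hl : FP m l) (hn : FP m n)
    (hf : FP m f) : FP m (fun a => (l a).getD (n a) (f a)) :=
  (FP.optGetD (o := fun a => (l a)[n a]?) (by fun_prop) hf).congr fun a => by
    rw [List.getD_eq_getElem?_getD]

@[fun_prop]
theorem FP.optIsSome {o : α → Option β} (ho : FP m o) : FP m (fun a => (o a).isSome) :=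
  (FP.optElim ho (FP.const false) (g := fun _ => true) (by fun_prop)).congr fun a => by
    cases o a <;> rfl

@[fun_prop]
theorem FP.optMap {o : α → Option β} {g : α → β → γ} (ho : FP m o)
    (hg : FP m (fun p : α × β => g p.1 p.2)) :
    FP m (fun a => (o a).map (fun b => g a b)) :=
  (FP.optElim ho FP.none (g := fun p : α × β => Option.some (g p.1 p.2)) (by fun_prop)).congr
    fun a => by cases o a <;> rfl

@[fun_prop]
theorem FP.optBind {o : α → Option β} {g : α → β → Option γ} (ho : FP m o)
    (hg : FP m (fun p : α × β => g p.1 p.2)) :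
    FP m (fun a => (o a).bind (fun b => g a b)) :=
  (FP.optElim ho FP.none (g := fun p : α × β => g p.1 p.2) (by fun_prop)).congr
    fun a => by cases o a <;> rfl

/-- Decidable equality computable in mode `m`. -/
class EqFP (m : Mode) (β : Type) [Enc β] [DecidableEq β] : Prop where
  out : FP m (fun p : β × β => decide (p.1 = p.2))

@[fun_prop]
theorem FP.decEq [DecidableEq β] [h : EqFP m β] {f g : α → β} (hf : FP m f) (hg : FP m g) :
    FP m (fun a => decide (f a = g a)) := h.out.comp (hf.pair hg)

instance : EqFP m ℕ := ⟨by fun_prop⟩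

instance : EqFP m Bool := ⟨(FP.boolEq (c := fun p : Bool × Bool => p.1)
  (d := fun p : Bool × Bool => p.2) (by fun_prop) (by fun_prop)).congr fun a => by
    cases a.1 <;> cases a.2 <;> rfl⟩

instance [DecidableEq β] [DecidableEq γ] [EqFP m β] [EqFP m γ] : EqFP m (β × γ) :=
  ⟨(FP.and (c := fun p : (β × γ) × (β × γ) => decide (p.1.1 = p.2.1))
    (d := fun p : (β × γ) × (β × γ) => decide (p.1.2 = p.2.2)) (FP.decEq (by fun_prop)
      (by fun_prop)) (FP.decEq (by fun_prop) (by fun_prop))).congr fun p => by
      rw [← Bool.decide_and]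
      congr 1
      exact propext Prod.ext_iff.symm⟩

/-- One step of the comparison of two lists. -/
def listEqStep {β : Type} [DecidableEq β] (s : Bool × List β) (b : β) : Bool × List β :=
  listElim s.2 (false, []) (fun c t => (s.1 && decide (b = c), t))

/-- Comparison of two lists by a loop. -/
def listEqAux {β : Type} [DecidableEq β] (l l' : List β) : Bool :=
  (l.foldl listEqStep (true, l')).1 && (l.foldl listEqStep (true, l')).2.isEmpty

omit [Enc β] in
theorem listEqAux_eq [DecidableEq β] (l l' : List β) : listEqAux l l' = decide (l = l') := by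
  have h0 : ∀ (l : List β) (r : List β), (l.foldl listEqStep (false, r)).1 = false := by
    intro l
    induction l with
    | nil => intro r; rfl
    | cons b l ih =>
      intro r
      rw [List.foldl_cons]
      cases r with
      | nil => exact ih _
      | cons c r => exact ih _
  have : ∀ (l : List β) (r : List β),
      ((l.foldl listEqStep (true, r)).1 && (l.foldl listEqStep (true, r)).2.isEmpty)
        = decide (l = r) := by
    intro l
    induction l with
    | nil => intro r; cases r <;> simp
    | cons b l ih =>
      intro r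
      rw [List.foldl_cons]
      cases r with
      | nil =>
        have : listEqStep (true, ([] : List β)) b = (false, []) := rfl
        rw [this, h0]; simp
      | cons c r =>
        have : listEqStep (true, c :: r) b = (decide (b = c), r) := by simp [listEqStep, listElim]
        rw [this]
        by_cases hbc : b = c
        · subst hbc
          simpa using ih r
        · simp only [hbc, decide_false]
          rw [h0]
          simp [hbc]
  exact this l l'

instance [DecidableEq β] [EqFP m β] : EqFP m (List β) := by
  refine ⟨FP.congr (f := fun p : List β × List β => listEqAux p.1 p.2) ?_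
    fun p => listEqAux_eq _ _⟩
  have h1 : FP m (fun p : List β × List β => p.1.foldl listEqStep (true, p.2)) := by
    refine FP.foldl (h := fun _ (s : Bool × List β) b => listEqStep s b) (by fun_prop)
      (by fun_prop) ?_ fun hm => ?_
    · exact FP.listElim (g := fun q : ((List β × List β) × (Bool × List β) × β) × β × List β =>
        (q.1.2.1.1 && decide (q.1.2.2 = q.2.1), q.2.2)) (by fun_prop) (by fun_prop)
        (by fun_prop)
    · subst hm
      refine ⟨fun p => 3 + sz p.2, (Bd.const 3).add (FP.bd (by fun_prop)), fun p l' hl' => ?_⟩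
      have : ∀ (l : List β) (c : Bool) (r : List β),
          sz (l.foldl listEqStep (c, r)) ≤ 3 + sz r := by
        intro l
        induction l with
        | nil => intro c r; simp
        | cons b l ih =>
          intro c r
          rw [List.foldl_cons]
          cases r with
          | nil => exact ih _ _
          | cons c' r =>
            refine (ih _ _).trans ?_
            simp
      exact this l' true p.2
  unfold listEqAux
  fun_prop

@[fun_prop]
theorem FP.elem [DecidableEq β] [EqFP m β] {f : α → β} {l : α → List β} (hf : FP m f)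
    (hl : FP m l) : FP m (fun a => decide (f a ∈ l a)) :=
  (FP.anyB (g := fun a b => decide (f a = b)) hl (by fun_prop)).congr fun a => by
    rw [Bool.eq_iff_iff]
    simp

end HerCo
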